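import Pool.Agent.Lib.MP_cb9986_co.Lattice

set_option autoImplicit false
open Finset

namespace Pool.Agent.Lib.MP_cb9986_co

variable {n : ℕ}

/-- Integer functions on pairs, three copies. -/
abbrev VV (n : ℕ) := (Fin n → Fin n → ℤ) × (Fin n → Fin n → ℤ) × (Fin n → Fin n → ℤ)

/-- indicator of a pair -/
def ind (x y : Fin n) : Fin n → Fin n → ℤ := fun a b => if a = x ∧ b = y then 1 else 0

open Classical in
/-- live triple -/
noncomputable def trv (g0 g1 g2 : W n) (p : Fin n × Fin n × Fin n) : VV n :=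
  if g0 p.1 p.2.1 = 1 ∧ g1 p.2.1 p.2.2 = 1 ∧ g2 p.2.2 p.1 = 1 then
    (ind p.1 p.2.1, ind p.2.1 p.2.2, ind p.2.2 p.1) else 0

open Classical in
/-- target vector -/
noncomputable def tgt (g : W n) : Fin n → Fin n → ℤ := fun x y => if g x y = 1 then 1 else 0

theorem sum_ind_eq (g : W n) :
    ∑ x, ∑ y, (if g x y = 1 then ind x y else 0) = tgt g := by
  classical
  funext a b
  rw [Finset.sum_apply, Finset.sum_apply]
  have : ∀ x, (∑ y, (if g x y = 1 then ind x y else 0)) a b =
      if a = x then (if g a b = 1 then 1 else 0) else 0 := by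
    intro x
    rw [Finset.sum_apply, Finset.sum_apply]
    by_cases hx : a = x
    · subst hx
      rw [if_pos rfl, Finset.sum_eq_single b]
      · split_ifs <;> simp [ind]
      · intro y _ hy
        split_ifs
        · simp [ind, Ne.symm hy]
        · rfl
      · intro h; exact absurd (Finset.mem_univ _) h
    · rw [if_neg hx]
      refine Finset.sum_eq_zero fun y _ => ?_
      split_ifs
      · simp [ind, hx]
      · rfl
  simp_rw [this]
  simp [tgt]

theorem mem_span_tgt {g0 g1 g2 : W n} {k : ℝ} (H : Hyp k g0 g1 g2)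
    (hn : 0 < n) (hk : 4 * k < n) :
    ((tgt g0, tgt g1, tgt g2) : VV n) ∈ Submodule.span ℤ (Set.range (trv g0 g1 g2)) := by
  classical
  set Λ := Submodule.span ℤ (Set.range (trv g0 g1 g2)) with hΛ
  set q := Λ.mkQ with hq
  have hzero := dual_zero (A := VV n ⧸ Λ) H hn hk
    (fun x y => q (if g0 x y = 1 then (ind x y, 0, 0) else 0))
    (fun x y => q (if g1 x y = 1 then (0, ind x y, 0) else 0))
    (fun x y => q (if g2 x y = 1 then (0, 0, ind x y) else 0))
    (by
      intro x y z h0 h1 h2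
      rw [if_pos h0, if_pos h1, if_pos h2, ← map_add, ← map_add, hq, Submodule.mkQ_apply,
        Submodule.Quotient.mk_eq_zero]
      refine Submodule.subset_span ⟨(x, y, z), ?_⟩
      unfold trv
      rw [if_pos ⟨h0, h1, h2⟩]
      simp)
    (by
      intro x y h
      show q (if g0 x y = 1 then (ind x y, 0, 0) else 0) = 0
      rw [if_neg (by rw [h]; norm_num), map_zero])
    (by
      intro x y h
      show q (if g1 x y = 1 then (0, ind x y, 0) else 0) = 0
      rw [if_neg (by rw [h]; norm_num), map_zero])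
    (by
      intro x y h
      show q (if g2 x y = 1 then (0, 0, ind x y) else 0) = 0
      rw [if_neg (by rw [h]; norm_num), map_zero])
  simp only [← map_sum, ← map_add] at hzero
  rw [hq, Submodule.mkQ_apply, Submodule.Quotient.mk_eq_zero] at hzero
  have e0 : ∑ x, ∑ y, (if g0 x y = 1 then ((ind x y, 0, 0) : VV n) else 0) = (tgt g0, 0, 0) := by
    have h1 : ∀ x y, (if g0 x y = 1 then ((ind x y, 0, 0) : VV n) else 0) =
        LinearMap.inl ℤ (Fin n → Fin n → ℤ) ((Fin n → Fin n → ℤ) × (Fin n → Fin n → ℤ))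
          (if g0 x y = 1 then ind x y else 0) := by
      intro x y; split_ifs <;> rfl
    simp_rw [h1, ← map_sum, sum_ind_eq]
    rfl
  have e1 : ∑ x, ∑ y, (if g1 x y = 1 then ((0, ind x y, 0) : VV n) else 0) = (0, tgt g1, 0) := by
    have h1 : ∀ x y, (if g1 x y = 1 then ((0, ind x y, 0) : VV n) else 0) =
        ((LinearMap.inr ℤ (Fin n → Fin n → ℤ) ((Fin n → Fin n → ℤ) × (Fin n → Fin n → ℤ))) ∘ₗ
          (LinearMap.inl ℤ (Fin n → Fin n → ℤ) (Fin n → Fin n → ℤ)))
          (if g1 x y = 1 then ind x y else 0) := by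
      intro x y; split_ifs <;> rfl
    simp_rw [h1, ← map_sum, sum_ind_eq]
    rfl
  have e2 : ∑ x, ∑ y, (if g2 x y = 1 then ((0, 0, ind x y) : VV n) else 0) = (0, 0, tgt g2) := by
    have h1 : ∀ x y, (if g2 x y = 1 then ((0, 0, ind x y) : VV n) else 0) =
        ((LinearMap.inr ℤ (Fin n → Fin n → ℤ) ((Fin n → Fin n → ℤ) × (Fin n → Fin n → ℤ))) ∘ₗ
          (LinearMap.inr ℤ (Fin n → Fin n → ℤ) (Fin n → Fin n → ℤ)))
          (if g2 x y = 1 then ind x y else 0) := by
      intro x y; split_ifs <;> rfl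
    simp_rw [h1, ← map_sum, sum_ind_eq]
    rfl
  rw [e0, e1, e2] at hzero
  simpa using hzero

/-- **Signed integral decompositions.** -/
theorem exists_int {g0 g1 g2 : W n} {k : ℝ} (H : Hyp k g0 g1 g2)
    (hn : 0 < n) (hk : 4 * k < n) :
    ∃ z : Fin n → Fin n → Fin n → ℤ,
      (∀ x y w, (g0 x y = 0 ∨ g1 y w = 0 ∨ g2 w x = 0) → z x y w = 0) ∧
      (∀ x y, g0 x y = 1 → ∑ w, z x y w = 1) ∧
      (∀ y w, g1 y w = 1 → ∑ x, z x y w = 1) ∧
      (∀ w x, g2 w x = 1 → ∑ y, z x y w = 1) := by
  classical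
  obtain ⟨c, hc⟩ := (Submodule.mem_span_range_iff_exists_fun ℤ).1 (mem_span_tgt H hn hk)
  set z : Fin n → Fin n → Fin n → ℤ := fun x y w =>
    if g0 x y = 1 ∧ g1 y w = 1 ∧ g2 w x = 1 then c (x, y, w) else 0 with hz
  have c0 : ∀ a b, ∑ p : Fin n × Fin n × Fin n, c p * (trv g0 g1 g2 p).1 a b = tgt g0 a b := by
    intro a b
    have h : _ = tgt g0 a b := congrFun (congrFun (congrArg Prod.fst hc) a) b
    rw [← h, Prod.fst_sum, Finset.sum_apply, Finset.sum_apply]
    simp
  have c1 : ∀ a b, ∑ p : Fin n × Fin n × Fin n, c p * (trv g0 g1 g2 p).2.1 a b = tgt g1 a b := by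
    intro a b
    have h : _ = tgt g1 a b := congrFun (congrFun (congrArg (fun v : VV n => v.2.1) hc) a) b
    rw [← h]
    simp [Prod.snd_sum, Prod.fst_sum, Finset.sum_apply]
  have c2 : ∀ a b, ∑ p : Fin n × Fin n × Fin n, c p * (trv g0 g1 g2 p).2.2 a b = tgt g2 a b := by
    intro a b
    have h : _ = tgt g2 a b := congrFun (congrFun (congrArg (fun v : VV n => v.2.2) hc) a) b
    rw [← h]
    simp [Prod.snd_sum, Finset.sum_apply]
  have t0 : ∀ p a b, c p * (trv g0 g1 g2 p).1 a b =
      if a = p.1 ∧ b = p.2.1 then z p.1 p.2.1 p.2.2 else 0 := by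
    intro p a b
    simp only [trv, hz]
    split_ifs <;> simp_all [ind]
  have t1 : ∀ p a b, c p * (trv g0 g1 g2 p).2.1 a b =
      if a = p.2.1 ∧ b = p.2.2 then z p.1 p.2.1 p.2.2 else 0 := by
    intro p a b
    simp only [trv, hz]
    split_ifs <;> simp_all [ind]
  have t2 : ∀ p a b, c p * (trv g0 g1 g2 p).2.2 a b =
      if a = p.2.2 ∧ b = p.1 then z p.1 p.2.1 p.2.2 else 0 := by
    intro p a b
    simp only [trv, hz]
    split_ifs <;> simp_all [ind]
  simp_rw [t0] at c0
  simp_rw [t1] at c1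
  simp_rw [t2] at c2
  refine ⟨z, ?_, ?_, ?_, ?_⟩
  · intro x y w h
    simp only [hz]
    rw [if_neg]
    rintro ⟨h0, h1, h2⟩
    rcases h with h | h | h
    · rw [h0] at h; norm_num at h
    · rw [h1] at h; norm_num at h
    · rw [h2] at h; norm_num at h
  · intro x y h
    have := c0 x y
    rw [tgt, if_pos h, Fintype.sum_prod_type, Finset.sum_eq_single x] at this
    · rw [Fintype.sum_prod_type, Finset.sum_eq_single y] at this
      · simpa using this
      · intro b _ hb; simp [Ne.symm hb]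
      · intro h'; exact absurd (Finset.mem_univ _) h'
    · intro b _ hb; simp [Ne.symm hb]
    · intro h'; exact absurd (Finset.mem_univ _) h'
  · intro y w h
    have := c1 y w
    rw [tgt, if_pos h, Fintype.sum_prod_type] at this
    rw [← this]
    refine Finset.sum_congr rfl fun x _ => ?_
    rw [Fintype.sum_prod_type, Finset.sum_eq_single y]
    · rw [Finset.sum_eq_single w]
      · simp
      · intro b _ hb; simp [Ne.symm hb]
      · intro h'; exact absurd (Finset.mem_univ _) h'
    · intro b _ hb; simp [Ne.symm hb]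
    · intro h'; exact absurd (Finset.mem_univ _) h'
  · intro w x h
    have := c2 w x
    rw [tgt, if_pos h, Fintype.sum_prod_type, Finset.sum_eq_single x] at this
    · rw [Fintype.sum_prod_type] at this
      rw [← this]
      refine Finset.sum_congr rfl fun y _ => ?_
      rw [Finset.sum_eq_single w]
      · simp
      · intro b _ hb; simp [Ne.symm hb]
      · intro h'; exact absurd (Finset.mem_univ _) h'
    · intro b _ hb; simp [Ne.symm hb]
    · intro h'; exact absurd (Finset.mem_univ _) h'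

end Pool.Agent.Lib.MP_cb9986_co
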