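import Pool.Agent.Lib.MP_cb9986_co.Rat

set_option autoImplicit false
open Finset

namespace Pool.Agent.Lib.MP_cb9986_co

/-- Rational replacement of a finite family of nonnegative reals, keeping zeros, positivity and all
sums equal to one. -/
theorem rat_family {ι : Type} [Fintype ι] (n : ℕ) (x : ι → ℝ) (h0 : ∀ i, 0 ≤ x i) :
    ∃ y : ι → ℚ, (∀ i, 0 ≤ y i) ∧ (∀ i, 0 < x i → 0 < y i) ∧ (∀ i, x i = 0 → y i = 0) ∧
      (∀ i, x i = 1 → y i = 1) ∧
      (∀ f : Fin n → ι, ∑ j, x (f j) = 1 → ∑ j, y (f j) = 1) := by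
  classical
  set S : Finset ℝ := insert 1 (Finset.univ.image x) with hS
  obtain ⟨φ, hφ⟩ := exists_functional S
  have h1 : (1 : ℝ) ∈ S := by simp [hS]
  have hxS : ∀ i, x i ∈ S := by
    intro i
    rw [hS]
    exact Finset.mem_insert_of_mem (Finset.mem_image.2 ⟨i, Finset.mem_univ _, rfl⟩)
  set e : Submodule.span ℚ (S : Set ℝ) := ⟨1, Submodule.subset_span h1⟩ with he
  set X : ι → Submodule.span ℚ (S : Set ℝ) := fun i => ⟨x i, Submodule.subset_span (hxS i)⟩ with hX
  have hpos : 0 < φ e := hφ 1 h1 one_pos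
  have hz : ∀ i, x i = 0 → φ (X i) / φ e = 0 := by
    intro i h
    have : X i = 0 := Subtype.ext h
    rw [this, map_zero, zero_div]
  have hp : ∀ i, 0 < x i → 0 < φ (X i) / φ e := fun i h => div_pos (hφ _ (hxS i) h) hpos
  refine ⟨fun i => φ (X i) / φ e, ?_, hp, hz, ?_, ?_⟩
  · intro i
    rcases (h0 i).eq_or_lt with h | h
    · exact (hz i h.symm).ge
    · exact (hp i h).le
  · intro i h
    have : X i = e := Subtype.ext h
    show φ (X i) / φ e = 1
    rw [this]
    exact div_self hpos.ne'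
  · intro f hf
    show ∑ j, φ (X (f j)) / φ e = 1
    rw [← Finset.sum_div, ← map_sum, div_eq_one_iff_eq hpos.ne']
    congr 1
    apply Subtype.ext
    rw [AddSubmonoidClass.coe_finsetSum]
    exact hf

end Pool.Agent.Lib.MP_cb9986_co
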