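import Pool.Agent.Lib.MP_cb9986_co.Lim

set_option autoImplicit false
open Finset

namespace Pool.Agent.Lib.MP_cb9986_co

variable {n : ℕ}

theorem core {k α b : ℝ} (hα : 0 ≤ α) (d h : Fin n → ℝ) (hd : ∀ y, 0 ≤ d y)
    (hdα : ∀ y, d y ≤ α) (hh : ∀ y, h y = 0 ∨ h y = 1) (hsum : ∑ y, (1 - h y) = k - α)
    (hlive : ∀ y, h y = 1 → 0 < d y → d y ≤ 2 * k - b - α)
    (hb : ∑ y, (if 0 < d y then (1 : ℝ) else 0) ≤ b) : 2 * ∑ y, d y ≤ k ^ 2 := by
  obtain ⟨γ, hγ⟩ : ∃ γ, γ = 2 * k - b - α := ⟨_, rfl⟩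
  rw [← hγ] at hlive
  rcases le_or_gt γ 0 with hc | hc
  · have h1 : ∑ y, d y ≤ ∑ y, (1 - h y) * α := by
      refine Finset.sum_le_sum fun y _ => ?_
      rcases hh y with h | h
      · rw [h]; linarith [hdα y]
      · rw [h]
        rcases (hd y).eq_or_lt with h' | h'
        · rw [← h']; norm_num
        · linarith [hlive y h h']
    rw [← Finset.sum_mul, hsum] at h1
    nlinarith [sq_nonneg (k - 2 * α), sq_nonneg k]
  rcases le_or_gt α γ with hc' | hc'
  · have h1 : ∑ y, d y ≤ ∑ y, (if 0 < d y then (1 : ℝ) else 0) * α := by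
      refine Finset.sum_le_sum fun y _ => ?_
      split_ifs with h
      · linarith [hdα y]
      · linarith
    rw [← Finset.sum_mul] at h1
    have h2 : (∑ y, (if 0 < d y then (1 : ℝ) else 0)) * α ≤ b * α :=
      mul_le_mul_of_nonneg_right hb hα
    have h3 : b * α ≤ (2 * k - 2 * α) * α :=
      mul_le_mul_of_nonneg_right (by linarith) hα
    nlinarith [sq_nonneg (k - 2 * α)]
  · have h1 : ∑ y, d y ≤ ∑ y, ((if 0 < d y then (1 : ℝ) else 0) * γ + (1 - h y) * (α - γ)) := by
      refine Finset.sum_le_sum fun y _ => ?_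
      split_ifs with h'
      · rcases hh y with h | h
        · rw [h]; linarith [hdα y]
        · rw [h]; linarith [hlive y h h']
      · have : 0 ≤ (1 - h y) * (α - γ) := by
          refine mul_nonneg ?_ (by linarith)
          rcases hh y with h | h <;> rw [h] <;> norm_num
        linarith
    rw [Finset.sum_add_distrib, ← Finset.sum_mul, ← Finset.sum_mul, hsum] at h1
    have h2 : (∑ y, (if 0 < d y then (1 : ℝ) else 0)) * γ ≤ b * γ :=
      mul_le_mul_of_nonneg_right hb hc.le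
    have h3 : b = 2 * k - γ - α := by linarith
    rw [h3] at h2
    nlinarith [sq_nonneg (k - 2 * α), sq_nonneg (k - 2 * γ)]

/-- number of vertices with positive deficit -/
noncomputable def nf (k : ℝ) (g : W n) : ℝ := ∑ x, (if 0 < dl k g x then (1 : ℝ) else 0)

theorem deficit_aux {g0 g1 g2 : W n} {k : ℝ} (H : Hyp k g0 g1 g2) (hn : 0 < n)
    (hmax : ∀ x y z, 0 < dl k g0 x → 0 < dl k g1 y → 0 < dl k g2 z →
      g0 x y = 0 ∨ g1 y z = 0 ∨ g2 z x = 0)
    (h0 : nf k g0 ≤ nf k g2) (h1 : nf k g1 ≤ nf k g2) : 2 * DD k g0 ≤ k ^ 2 := by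
  have : Nonempty (Fin n) := ⟨⟨0, hn⟩⟩
  obtain ⟨x0, hx0⟩ := Finite.exists_max (dl k g0)
  obtain ⟨y0, hy0⟩ := Finite.exists_max (dl k g1)
  -- live pair of nonfull vertices
  have live : ∀ x y, g0 x y = 1 → 0 < dl k g0 x → 0 < dl k g1 y →
      dl k g0 x + dl k g1 y ≤ 2 * k - nf k g2 := by
    intro x y hg hx hy
    have e1 : nf k g2 ≤ ∑ z, ((1 - g1 y z) + (1 - g2 z x)) := by
      unfold nf
      refine Finset.sum_le_sum fun z _ => ?_
      split_ifs with hz
      · rcases hmax x y z hx hy hz with h | h | h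
        · rw [hg] at h; norm_num at h
        · rw [h]; linarith [zo_le (H.z2 z x)]
        · rw [h]; linarith [zo_le (H.z1 y z)]
      · linarith [zo_le (H.z2 z x), zo_le (H.z1 y z)]
    have e2 : ∑ z, ((1 - g1 y z) + (1 - g2 z x)) = (k - dl k g1 y) + (k - dl k g0 x) := by
      rw [Finset.sum_add_distrib, Finset.sum_sub_distrib, Finset.sum_sub_distrib, H.b0 x]
      unfold dl
      simp
      ring
    linarith
  rcases le_total (dl k g1 y0) (dl k g0 x0) with hc | hc
  · rw [← DD_rot H]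
    refine core (α := dl k g0 x0) (b := nf k g2) (dl_nonneg H x0) (dl k g1) (g0 x0)
      (dl_nonneg H.rot) (fun y => (hy0 y).trans hc) (H.z0 x0) ?_ ?_ h1
    · rw [Finset.sum_sub_distrib]
      unfold dl
      simp
      ring
    · intro y hy hd
      have := live x0 y hy (lt_of_lt_of_le hd ((hy0 y).trans hc)) hd
      linarith
  · refine core (α := dl k g1 y0) (b := nf k g2) (dl_nonneg H.rot y0) (dl k g0)
      (fun x => g0 x y0)
      (dl_nonneg H) (fun x => (hx0 x).trans hc) (fun x => H.z0 x y0) ?_ ?_ h0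
    · rw [Finset.sum_sub_distrib, H.b1 y0]
      unfold dl
      simp
      ring
    · intro x hx hd
      have := live x y0 hx hd (lt_of_lt_of_le hd ((hx0 x).trans hc))
      linarith

/-- In a maximal configuration the total deficit is at most `k ^ 2 / 2`. -/
theorem deficit {g0 g1 g2 : W n} {k : ℝ} (H : Hyp k g0 g1 g2) (hn : 0 < n)
    (hmax : ∀ x y z, 0 < dl k g0 x → 0 < dl k g1 y → 0 < dl k g2 z →
      g0 x y = 0 ∨ g1 y z = 0 ∨ g2 z x = 0) : 2 * DD k g0 ≤ k ^ 2 := by
  have hm1 : ∀ y z x, 0 < dl k g1 y → 0 < dl k g2 z → 0 < dl k g0 x →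
      g1 y z = 0 ∨ g2 z x = 0 ∨ g0 x y = 0 := by
    intro y z x hy hz hx
    rcases hmax x y z hx hy hz with h | h | h
    · exact Or.inr (Or.inr h)
    · exact Or.inl h
    · exact Or.inr (Or.inl h)
  have hm2 : ∀ z x y, 0 < dl k g2 z → 0 < dl k g0 x → 0 < dl k g1 y →
      g2 z x = 0 ∨ g0 x y = 0 ∨ g1 y z = 0 := by
    intro z x y hz hx hy
    rcases hmax x y z hx hy hz with h | h | h
    · exact Or.inr (Or.inl h)
    · exact Or.inr (Or.inr h)
    · exact Or.inl h
  rcases le_total (nf k g0) (nf k g2) with h02 | h02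
  · rcases le_total (nf k g1) (nf k g2) with h12 | h12
    · exact deficit_aux H hn hmax h02 h12
    · -- `g1` largest
      have := deficit_aux H.rot.rot hn hm2 h12 (h02.trans h12)
      rw [DD_rot H.rot, DD_rot H] at this
      exact this
  · rcases le_total (nf k g1) (nf k g0) with h10 | h10
    · have := deficit_aux H.rot hn hm1 h10 h02
      rw [DD_rot H] at this
      exact this
    · have := deficit_aux H.rot.rot hn hm2 (h02.trans h10) h10
      rw [DD_rot H.rot, DD_rot H] at this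
      exact this

end Pool.Agent.Lib.MP_cb9986_co
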