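import Pool.Agent.Lib.MP_cb9986_co.Sys

set_option autoImplicit false
open Finset

namespace Pool.Agent.Lib.MP_cb9986_co

variable {n : ℕ}

theorem sum3_rot (f : Fin n → Fin n → Fin n → ℝ) :
    ∑ y, ∑ z, ∑ x, f x y z = ∑ x, ∑ y, ∑ z, f x y z := by
  have h1 : ∀ y : Fin n, ∑ z, ∑ x, f x y z = ∑ x, ∑ z, f x y z := fun y => Finset.sum_comm
  simp_rw [h1]
  exact Finset.sum_comm

/-- number of live pairs -/
noncomputable def mm (g : W n) : ℝ := ∑ x, ∑ y, g x y

/-- number of live triples -/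
noncomputable def tt (g0 g1 g2 : W n) : ℝ := ∑ x, ∑ y, ∑ z, g0 x y * g1 y z * g2 z x

theorem tt_rot (g0 g1 g2 : W n) : tt g1 g2 g0 = tt g0 g1 g2 := by
  unfold tt
  rw [← sum3_rot (fun x y z => g0 x y * g1 y z * g2 z x)]
  refine Finset.sum_congr rfl fun x _ => Finset.sum_congr rfl fun y _ =>
    Finset.sum_congr rfl fun z _ => by ring

theorem mm_rot {g0 g1 g2 : W n} {k : ℝ} (H : Hyp k g0 g1 g2) : mm g1 = mm g0 := by
  unfold mm
  rw [Finset.sum_comm (f := fun x y => g0 x y)]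
  exact Finset.sum_congr rfl fun y _ => (H.b1 y).symm

/-- sum of squares of the edge weights -/
noncomputable def qq (u : W n) : ℝ := ∑ x, ∑ y, u x y ^ 2

theorem en_part {g0 g1 g2 u0 u1 u2 : W n} {k e : ℝ} (H : Hyp k g0 g1 g2)
    (S : Sol e g0 g1 g2 u0 u1 u2) :
    ∑ x, ∑ y, ∑ z, g0 x y * g1 y z * g2 z x * (u0 x y + u1 y z + u2 z x) * u0 x y =
      tau u0 - e * qq u0 := by
  have h1 : tau u0 - e * qq u0 = ∑ x, ∑ y, (u0 x y - e * u0 x y ^ 2) := by
    unfold tau qq pp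
    rw [Finset.mul_sum, ← Finset.sum_sub_distrib]
    refine Finset.sum_congr rfl fun x _ => ?_
    rw [Finset.mul_sum, ← Finset.sum_sub_distrib]
  rw [h1]
  refine Finset.sum_congr rfl fun x _ => Finset.sum_congr rfl fun y _ => ?_
  have h2 : ∑ z, g0 x y * g1 y z * g2 z x * (u0 x y + u1 y z + u2 z x) * u0 x y =
      g0 x y * XX g1 g2 u0 u1 u2 x y * u0 x y := by
    simp only [XX, Finset.mul_sum, Finset.sum_mul]
    refine Finset.sum_congr rfl fun z _ => by ring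
  rw [h2]
  rcases H.z0 x y with h | h
  · rw [h, S.s0 x y h]; ring
  · have := S.e0 x y h
    rw [h]
    have h3 : XX g1 g2 u0 u1 u2 x y = 1 - e * u0 x y := by linarith
    rw [h3]; ring

theorem lin_part {g0 g1 g2 u0 u1 u2 : W n} {k e : ℝ} (H : Hyp k g0 g1 g2)
    (S : Sol e g0 g1 g2 u0 u1 u2) :
    ∑ x, ∑ y, ∑ z, g0 x y * g1 y z * g2 z x * (u0 x y + u1 y z + u2 z x) =
      mm g0 - e * tau u0 := by
  have h1 : mm g0 - e * tau u0 = ∑ x, ∑ y, (g0 x y - e * u0 x y) := by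
    unfold tau mm pp
    rw [Finset.mul_sum, ← Finset.sum_sub_distrib]
    refine Finset.sum_congr rfl fun x _ => ?_
    rw [Finset.mul_sum, ← Finset.sum_sub_distrib]
  rw [h1]
  refine Finset.sum_congr rfl fun x _ => Finset.sum_congr rfl fun y _ => ?_
  have h2 : ∑ z, g0 x y * g1 y z * g2 z x * (u0 x y + u1 y z + u2 z x) =
      g0 x y * XX g1 g2 u0 u1 u2 x y := by
    simp only [XX, Finset.mul_sum]
    refine Finset.sum_congr rfl fun z _ => by ring
  rw [h2]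
  rcases H.z0 x y with h | h
  · rw [h, S.s0 x y h]; ring
  · have := S.e0 x y h
    rw [h]
    linarith

/-- The energy identity. -/
theorem en_sol {g0 g1 g2 u0 u1 u2 : W n} {k e : ℝ} (H : Hyp k g0 g1 g2)
    (S : Sol e g0 g1 g2 u0 u1 u2) :
    ∑ x, ∑ y, ∑ z, g0 x y * g1 y z * g2 z x * (u0 x y + u1 y z + u2 z x) ^ 2 =
      3 * tau u0 - e * (qq u0 + qq u1 + qq u2) := by
  have a0 := en_part H S
  have a1 := en_part H.rot S.rot
  have a2 := en_part H.rot.rot S.rot.rot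
  rw [tau_eq S] at a1
  rw [tau_eq S.rot, tau_eq S] at a2
  rw [sum3_rot (fun x y z => g1 y z * g2 z x * g0 x y * (u1 y z + u2 z x + u0 x y) * u1 y z)] at a1
  rw [← sum3_rot] at a2
  rw [← sum3_rot] at a2
  rw [← sum3_rot] at a2
  rw [← sum3_rot] at a2
  have e1 : 3 * tau u0 - e * (qq u0 + qq u1 + qq u2) =
      (tau u0 - e * qq u0) + (tau u0 - e * qq u1) + (tau u0 - e * qq u2) := by ring
  rw [e1, ← a0, ← a1, ← a2]
  simp only [← Finset.sum_add_distrib]
  refine Finset.sum_congr rfl fun x _ => Finset.sum_congr rfl fun y _ =>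
    Finset.sum_congr rfl fun z _ => by ring

theorem P3 {g0 g1 g2 u0 u1 u2 : W n} {k e : ℝ} (H : Hyp k g0 g1 g2) (he : 0 ≤ e)
    (S : Sol e g0 g1 g2 u0 u1 u2) (hQ : 0 < 3 * tt g0 g1 g2 + e * mm g0) :
    mm g0 ^ 2 ≤ tau u0 * (3 * tt g0 g1 g2 + e * mm g0) := by
  have key : ∀ c : ℝ, 0 ≤ 3 * tau u0 - 6 * c * mm g0 + 3 * c ^ 2 * (3 * tt g0 g1 g2 + e * mm g0) := by
    intro c
    have h1 : 0 ≤ ∑ x, ∑ y, ∑ z, g0 x y * g1 y z * g2 z x *
        (u0 x y + u1 y z + u2 z x - 3 * c) ^ 2 := by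
      refine Finset.sum_nonneg fun x _ => Finset.sum_nonneg fun y _ => Finset.sum_nonneg
        fun z _ => ?_
      have e0 := zo_nonneg (H.z0 x y)
      have e1 := zo_nonneg (H.z1 y z)
      have e2 := zo_nonneg (H.z2 z x)
      positivity
    have h2 : ∑ x, ∑ y, ∑ z, g0 x y * g1 y z * g2 z x *
        (u0 x y + u1 y z + u2 z x - 3 * c) ^ 2 =
        (∑ x, ∑ y, ∑ z, g0 x y * g1 y z * g2 z x * (u0 x y + u1 y z + u2 z x) ^ 2) -
        6 * c * (∑ x, ∑ y, ∑ z, g0 x y * g1 y z * g2 z x * (u0 x y + u1 y z + u2 z x)) +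
        9 * c ^ 2 * tt g0 g1 g2 := by
      unfold tt
      simp only [Finset.mul_sum, ← Finset.sum_sub_distrib, ← Finset.sum_add_distrib]
      refine Finset.sum_congr rfl fun x _ => Finset.sum_congr rfl fun y _ =>
        Finset.sum_congr rfl fun z _ => by ring
    have h3 : ∀ (g u : W n), (∀ x y, g x y = 0 ∨ g x y = 1) → (∀ x y, g x y = 0 → u x y = 0) →
        0 ≤ qq u - 2 * c * tau u + c ^ 2 * mm g := by
      intro g u hg hu
      have : qq u - 2 * c * tau u + c ^ 2 * mm g = ∑ x, ∑ y, g x y * (u x y - c) ^ 2 := by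
        unfold qq tau mm pp
        simp only [Finset.mul_sum, ← Finset.sum_sub_distrib, ← Finset.sum_add_distrib]
        refine Finset.sum_congr rfl fun x _ => Finset.sum_congr rfl fun y _ => ?_
        rcases hg x y with h | h
        · rw [h, hu x y h]; ring
        · rw [h]; ring
      rw [this]
      exact Finset.sum_nonneg fun x _ => Finset.sum_nonneg fun y _ =>
        mul_nonneg (zo_nonneg (hg x y)) (sq_nonneg _)
    have q0 := h3 g0 u0 H.z0 S.s0
    have q1 := h3 g1 u1 H.z1 S.s1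
    have q2 := h3 g2 u2 H.z2 S.s2
    rw [tau_eq S, mm_rot H] at q1
    rw [tau_eq S.rot, tau_eq S, mm_rot H.rot, mm_rot H] at q2
    rw [h2, en_sol H S, lin_part H S] at h1
    have q : 0 ≤ e * ((qq u0 - 2 * c * tau u0 + c ^ 2 * mm g0) +
        (qq u1 - 2 * c * tau u0 + c ^ 2 * mm g0) + (qq u2 - 2 * c * tau u0 + c ^ 2 * mm g0)) :=
      mul_nonneg he (by linarith)
    nlinarith
  have h := key (mm g0 / (3 * tt g0 g1 g2 + e * mm g0))
  set Q := 3 * tt g0 g1 g2 + e * mm g0 with hQd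
  have h2 : 3 * tau u0 - 6 * (mm g0 / Q) * mm g0 + 3 * (mm g0 / Q) ^ 2 * Q =
      3 * (tau u0 * Q - mm g0 ^ 2) / Q := by
    field_simp
    ring
  rw [h2] at h
  have h3 : 0 ≤ 3 * (tau u0 * Q - mm g0 ^ 2) := by
    by_contra hcon
    push Not at hcon
    have := div_neg_of_neg_of_pos hcon hQ
    linarith
  linarith

/-- The energy is nonnegative. -/
theorem qq_le {g0 g1 g2 u0 u1 u2 : W n} {k e : ℝ} (H : Hyp k g0 g1 g2)
    (S : Sol e g0 g1 g2 u0 u1 u2) :
    e * (qq u0 + qq u1 + qq u2) ≤ 3 * tau u0 := by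
  have h := en_sol H S
  have h1 : 0 ≤ ∑ x, ∑ y, ∑ z, g0 x y * g1 y z * g2 z x *
      (u0 x y + u1 y z + u2 z x) ^ 2 := by
    refine Finset.sum_nonneg fun x _ => Finset.sum_nonneg fun y _ => Finset.sum_nonneg
      fun z _ => ?_
    have e0 := zo_nonneg (H.z0 x y)
    have e1 := zo_nonneg (H.z1 y z)
    have e2 := zo_nonneg (H.z2 z x)
    positivity
  rw [h] at h1
  linarith

end Pool.Agent.Lib.MP_cb9986_co
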