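import Pool.Agent.Lib.MP_cb9986_co.Min

set_option autoImplicit false
open Finset

namespace Pool.Agent.Lib.MP_cb9986_co

variable {n : ℕ}

/-- The three bipartite graphs of a tripartite graph whose vertices have equally many neighbours
in the two other parts, namely at least `n - k`. -/
structure Hyp (k : ℝ) (g0 g1 g2 : W n) : Prop where
  z0 : ∀ x y, g0 x y = 0 ∨ g0 x y = 1
  z1 : ∀ x y, g1 x y = 0 ∨ g1 x y = 1
  z2 : ∀ x y, g2 x y = 0 ∨ g2 x y = 1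
  b0 : ∀ x, ∑ z, g2 z x = ∑ y, g0 x y
  b1 : ∀ y, ∑ x, g0 x y = ∑ z, g1 y z
  b2 : ∀ z, ∑ y, g1 y z = ∑ x, g2 z x
  d0 : ∀ x, (n : ℝ) - k ≤ ∑ y, g0 x y
  d1 : ∀ y, (n : ℝ) - k ≤ ∑ z, g1 y z
  d2 : ∀ z, (n : ℝ) - k ≤ ∑ x, g2 z x

theorem Hyp.rot {k : ℝ} {g0 g1 g2 : W n} (h : Hyp k g0 g1 g2) : Hyp k g1 g2 g0 :=
  ⟨h.z1, h.z2, h.z0, h.b1, h.b2, h.b0, h.d1, h.d2, h.d0⟩

theorem zo_nonneg {t : ℝ} (h : t = 0 ∨ t = 1) : 0 ≤ t := by
  rcases h with h | h <;> rw [h] <;> norm_num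

theorem zo_le {t : ℝ} (h : t = 0 ∨ t = 1) : t ≤ 1 := by
  rcases h with h | h <;> rw [h] <;> norm_num

def NN (g1 g2 : W n) (x y : Fin n) : ℝ := ∑ z, g1 y z * g2 z x

def FF (g1 g2 u1 u2 : W n) (x y : Fin n) : ℝ :=
  ∑ z, (1 - g2 z x) * u1 y z + ∑ z, (1 - g1 y z) * u2 z x

def pp (u1 : W n) (y : Fin n) : ℝ := ∑ z, u1 y z

theorem XX_eq {g0 g1 g2 u0 u1 u2 : W n} {k : ℝ} (H : Hyp k g0 g1 g2)
    (f1 : Feas g1 u1) (f2 : Feas g2 u2) (x y : Fin n) :
    XX g1 g2 u0 u1 u2 x y =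
      NN g1 g2 x y * u0 x y + pp u1 y + 1 - FF g1 g2 u1 u2 x y := by
  have h2 := f2.sum x
  rw [← h2]
  simp only [XX, NN, FF, pp, Finset.sum_mul]
  rw [← Finset.sum_add_distrib, ← Finset.sum_add_distrib, ← Finset.sum_add_distrib,
    ← Finset.sum_sub_distrib]
  refine Finset.sum_congr rfl fun z _ => ?_
  have e1 : g1 y z * u1 y z = u1 y z := by
    rcases H.z1 y z with h | h
    · rw [f1.supp y z h]; ring
    · rw [h]; ring
  have e2 : g2 z x * u2 z x = u2 z x := by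
    rcases H.z2 z x with h | h
    · rw [f2.supp z x h]; ring
    · rw [h]; ring
  have e3 : g1 y z * g2 z x * (u0 x y + u1 y z + u2 z x) =
      g1 y z * g2 z x * u0 x y + g2 z x * (g1 y z * u1 y z) + g1 y z * (g2 z x * u2 z x) := by
    ring
  rw [e3, e1, e2]
  ring

theorem FF_nonneg {g0 g1 g2 u1 u2 : W n} {k : ℝ} (H : Hyp k g0 g1 g2)
    (f1 : Feas g1 u1) (f2 : Feas g2 u2) (x y : Fin n) : 0 ≤ FF g1 g2 u1 u2 x y := by
  unfold FF
  refine add_nonneg (Finset.sum_nonneg fun z _ => ?_) (Finset.sum_nonneg fun z _ => ?_)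
  · exact mul_nonneg (by linarith [zo_le (H.z2 z x)]) (f1.nonneg y z)
  · exact mul_nonneg (by linarith [zo_le (H.z1 y z)]) (f2.nonneg z x)

theorem NN_ge {g0 g1 g2 : W n} {k : ℝ} (H : Hyp k g0 g1 g2) (x y : Fin n) :
    (n : ℝ) - 2 * k ≤ NN g1 g2 x y := by
  have h1 : ∑ z, (g1 y z + g2 z x - 1) ≤ NN g1 g2 x y := by
    refine Finset.sum_le_sum fun z _ => ?_
    rcases H.z1 y z with h | h <;> rcases H.z2 z x with h' | h' <;> rw [h, h'] <;> norm_num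
  have h2 : ∑ z, (g1 y z + g2 z x - 1) = ∑ z, g1 y z + ∑ z, g2 z x - n := by
    rw [Finset.sum_sub_distrib, Finset.sum_add_distrib]
    simp
  rw [h2, H.b0 x] at h1
  have h3 := H.d1 y
  have h4 := H.d0 x
  linarith

theorem NN_le {g0 g1 g2 : W n} {k : ℝ} (H : Hyp k g0 g1 g2) (x y : Fin n) :
    NN g1 g2 x y ≤ ∑ z, g1 y z := by
  refine Finset.sum_le_sum fun z _ => ?_
  rcases H.z1 y z with h | h <;> rcases H.z2 z x with h' | h' <;> rw [h, h'] <;> norm_num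

theorem exists_lam {g0 g1 g2 u0 u1 u2 : W n} {k : ℝ} (H : Hyp k g0 g1 g2)
    (M : IsMinz g0 g1 g2 u0 u1 u2) (y : Fin n) :
    ∃ lam : ℝ, (∀ x, g0 x y = 1 → lam + FF g1 g2 u1 u2 x y ≤ NN g1 g2 x y * u0 x y) ∧
      (∀ x, 0 < u0 x y → NN g1 g2 x y * u0 x y = lam + FF g1 g2 u1 u2 x y) ∧
      (∀ x, 0 < u0 x y → XX g1 g2 u0 u1 u2 x y = lam + 1 + pp u1 y) := by
  have hex : ∃ x, 0 < u0 x y := by
    by_contra hcon
    push Not at hcon
    have : ∑ x, u0 x y ≤ 0 := Finset.sum_nonpos fun x _ => hcon x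
    rw [M.f0.sum y] at this
    norm_num at this
  obtain ⟨w, hw⟩ := hex
  have live : ∀ x, 0 < u0 x y → g0 x y = 1 := by
    intro x hx
    rcases H.z0 x y with h | h
    · rw [M.f0.supp x y h] at hx; exact absurd hx (lt_irrefl _)
    · exact h
  have key : ∀ x, g0 x y = 1 → XX g1 g2 u0 u1 u2 w y ≤ XX g1 g2 u0 u1 u2 x y := fun x hx =>
    kkt M H.z0 H.z1 H.z2 (live w hw) hx hw
  have key2 : ∀ x, 0 < u0 x y → XX g1 g2 u0 u1 u2 x y = XX g1 g2 u0 u1 u2 w y := fun x hx =>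
    le_antisymm (kkt M H.z0 H.z1 H.z2 (live x hx) (live w hw) hx) (key x (live x hx))
  refine ⟨XX g1 g2 u0 u1 u2 w y - 1 - pp u1 y, ?_, ?_, ?_⟩
  · intro x hx
    have h1 := key x hx
    rw [XX_eq H M.f1 M.f2 x y] at h1
    linarith
  · intro x hx
    have h1 := key2 x hx
    rw [XX_eq H M.f1 M.f2 x y] at h1
    linarith
  · intro x hx
    rw [key2 x hx]; ring

/-- If the multiplier is positive it is at most one. -/
theorem lam_le {g0 g1 g2 u0 u1 u2 : W n} {k : ℝ} (H : Hyp k g0 g1 g2) (hk : k < n)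
    (f0 : Feas g0 u0) (f1 : Feas g1 u1) (f2 : Feas g2 u2) (y : Fin n) (lam : ℝ)
    (h : ∀ x, g0 x y = 1 → lam + FF g1 g2 u1 u2 x y ≤ NN g1 g2 x y * u0 x y) : lam ≤ 1 := by
  by_contra hcon
  push Not at hcon
  have hD : 0 < ∑ z, g1 y z := lt_of_lt_of_le (by linarith) (H.d1 y)
  have h1 : ∀ x, lam * g0 x y ≤ (∑ z, g1 y z) * u0 x y := by
    intro x
    rcases H.z0 x y with hx | hx
    · rw [hx, mul_zero]
      exact mul_nonneg hD.le (f0.nonneg x y)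
    · have h2 := h x hx
      have h3 := FF_nonneg H f1 f2 x y
      have h4 : NN g1 g2 x y * u0 x y ≤ (∑ z, g1 y z) * u0 x y :=
        mul_le_mul_of_nonneg_right (NN_le H x y) (f0.nonneg x y)
      rw [hx]; linarith
  have h5 : ∑ x, lam * g0 x y ≤ ∑ x, (∑ z, g1 y z) * u0 x y :=
    Finset.sum_le_sum fun x _ => h1 x
  rw [← Finset.mul_sum, ← Finset.mul_sum, H.b1 y, f0.sum y] at h5
  nlinarith

theorem u_le {g0 g1 g2 u0 u1 u2 : W n} {k : ℝ} (H : Hyp k g0 g1 g2) (hk : k < n)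
    (M : IsMinz g0 g1 g2 u0 u1 u2) (x y : Fin n) :
    ((n : ℝ) - 2 * k) * u0 x y ≤ g0 x y * (1 + FF g1 g2 u1 u2 x y) := by
  have hF := FF_nonneg H M.f1 M.f2 x y
  rcases H.z0 x y with h | h
  · rw [M.f0.supp x y h, h]; simp
  · rw [h, one_mul]
    rcases (M.f0.nonneg x y).eq_or_lt with hu | hu
    · rw [← hu, mul_zero]; linarith
    · obtain ⟨lam, h1, h2, -⟩ := exists_lam H M y
      have h3 := lam_le H hk M.f0 M.f1 M.f2 y lam h1
      have h4 := h2 x hu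
      have h5 : ((n : ℝ) - 2 * k) * u0 x y ≤ NN g1 g2 x y * u0 x y :=
        mul_le_mul_of_nonneg_right (NN_ge H x y) hu.le
      linarith

/-- complementary degrees -/
theorem codeg {g0 g1 g2 : W n} {k : ℝ} (H : Hyp k g0 g1 g2) :
    (∀ x, ∑ y, (1 - g0 x y) ≤ k) ∧ (∀ x, ∑ z, (1 - g2 z x) ≤ k) := by
  constructor
  · intro x
    rw [Finset.sum_sub_distrib]
    simp only [Finset.sum_const, Finset.card_univ, Fintype.card_fin, nsmul_eq_mul, mul_one]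
    linarith [H.d0 x]
  · intro x
    rw [Finset.sum_sub_distrib, H.b0 x]
    simp only [Finset.sum_const, Finset.card_univ, Fintype.card_fin, nsmul_eq_mul, mul_one]
    linarith [H.d0 x]

theorem p_le {g0 g1 g2 u0 u1 u2 : W n} {k : ℝ} (H : Hyp k g0 g1 g2) (hk : k < n)
    (M : IsMinz g0 g1 g2 u0 u1 u2) (x : Fin n) :
    ((n : ℝ) - 2 * k) * pp u0 x ≤ n + k := by
  have h1 : ((n : ℝ) - 2 * k) * pp u0 x ≤ ∑ y, (g0 x y * (1 + FF g1 g2 u1 u2 x y)) := by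
    rw [pp, Finset.mul_sum]
    exact Finset.sum_le_sum fun y _ => u_le H hk M x y
  have h2 : ∑ y, (g0 x y * (1 + FF g1 g2 u1 u2 x y)) ≤
      ∑ y, g0 x y + ∑ y, FF g1 g2 u1 u2 x y := by
    rw [← Finset.sum_add_distrib]
    refine Finset.sum_le_sum fun y _ => ?_
    have hF := FF_nonneg H M.f1 M.f2 x y
    rcases H.z0 x y with h | h <;> rw [h] <;> linarith
  have h3 : ∑ y, FF g1 g2 u1 u2 x y ≤ ∑ z, (1 - g2 z x) + k := by
    simp only [FF, Finset.sum_add_distrib]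
    refine add_le_add ?_ ?_
    · rw [Finset.sum_comm]
      refine le_of_eq (Finset.sum_congr rfl fun z _ => ?_)
      rw [← Finset.mul_sum, M.f1.sum z, mul_one]
    · rw [Finset.sum_comm]
      calc ∑ z, ∑ y, (1 - g1 y z) * u2 z x = ∑ z, (∑ y, (1 - g1 y z)) * u2 z x := by
            refine Finset.sum_congr rfl fun z _ => ?_
            rw [Finset.sum_mul]
        _ ≤ ∑ z, k * u2 z x := by
            refine Finset.sum_le_sum fun z _ => ?_
            exact mul_le_mul_of_nonneg_right ((codeg H.rot.rot).2 z) (M.f2.nonneg z x)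
        _ = k := by rw [← Finset.mul_sum, M.f2.sum x, mul_one]
  have h4 : ∑ z, (1 - g2 z x) = n - ∑ y, g0 x y := by
    rw [Finset.sum_sub_distrib, H.b0 x]
    simp
  linarith

theorem lam_pos {g0 g1 g2 u0 u1 u2 : W n} {k : ℝ} (H : Hyp k g0 g1 g2) (hk0 : 0 ≤ k)
    (hk : 2 * k < n) (hk2 : 2 * k * (n + k) < (n - 2 * k) ^ 2)
    (M : IsMinz g0 g1 g2 u0 u1 u2) (y : Fin n) (lam : ℝ)
    (hl : ∀ x, 0 < u0 x y → NN g1 g2 x y * u0 x y = lam + FF g1 g2 u1 u2 x y) : 0 < lam := by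
  by_contra hcon
  push Not at hcon
  have hkn : k < n := by linarith
  have hP1 : ((n : ℝ) - 2 * k) * pp u1 y ≤ n + k := p_le H.rot hkn M.rot y
  have hP2 : ∀ z, ((n : ℝ) - 2 * k) * pp u2 z ≤ n + k := fun z =>
    p_le H.rot.rot hkn M.rot.rot z
  have h1 : ∀ x, ((n : ℝ) - 2 * k) * u0 x y ≤ FF g1 g2 u1 u2 x y := by
    intro x
    rcases (M.f0.nonneg x y).eq_or_lt with hu | hu
    · rw [← hu, mul_zero]; exact FF_nonneg H M.f1 M.f2 x y
    · have h4 := hl x hu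
      have h5 : ((n : ℝ) - 2 * k) * u0 x y ≤ NN g1 g2 x y * u0 x y :=
        mul_le_mul_of_nonneg_right (NN_ge H x y) hu.le
      linarith
  have h2 : (n : ℝ) - 2 * k ≤ ∑ x, FF g1 g2 u1 u2 x y := by
    calc (n : ℝ) - 2 * k = ∑ x, ((n : ℝ) - 2 * k) * u0 x y := by
          rw [← Finset.mul_sum, M.f0.sum y, mul_one]
      _ ≤ _ := Finset.sum_le_sum fun x _ => h1 x
  have hF1 : ∑ x, ∑ z, (1 - g2 z x) * u1 y z ≤ k * pp u1 y := by
    rw [Finset.sum_comm]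
    calc ∑ z, ∑ x, (1 - g2 z x) * u1 y z = ∑ z, (∑ x, (1 - g2 z x)) * u1 y z := by
          refine Finset.sum_congr rfl fun z _ => ?_
          rw [Finset.sum_mul]
      _ ≤ ∑ z, k * u1 y z := by
          refine Finset.sum_le_sum fun z _ => ?_
          exact mul_le_mul_of_nonneg_right ((codeg H.rot.rot).1 z) (M.f1.nonneg y z)
      _ = k * pp u1 y := by rw [← Finset.mul_sum, pp]
  have hF2 : ((n : ℝ) - 2 * k) * ∑ x, ∑ z, (1 - g1 y z) * u2 z x ≤ k * (n + k) := by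
    rw [Finset.sum_comm]
    calc ((n : ℝ) - 2 * k) * ∑ z, ∑ x, (1 - g1 y z) * u2 z x
        = ∑ z, (1 - g1 y z) * (((n : ℝ) - 2 * k) * pp u2 z) := by
          rw [Finset.mul_sum]
          refine Finset.sum_congr rfl fun z _ => ?_
          rw [pp, ← Finset.mul_sum]; ring
      _ ≤ ∑ z, (1 - g1 y z) * (n + k) := by
          refine Finset.sum_le_sum fun z _ => ?_
          exact mul_le_mul_of_nonneg_left (hP2 z) (by linarith [zo_le (H.z1 y z)])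
      _ = (∑ z, (1 - g1 y z)) * (n + k) := by rw [Finset.sum_mul]
      _ ≤ k * (n + k) := by
          refine mul_le_mul_of_nonneg_right ((codeg H.rot).1 y) ?_
          have : (0 : ℝ) ≤ n := Nat.cast_nonneg n
          linarith
  have h3 : ((n : ℝ) - 2 * k) * ((n : ℝ) - 2 * k) ≤ 2 * k * (n + k) := by
    calc ((n : ℝ) - 2 * k) * ((n : ℝ) - 2 * k)
        ≤ ((n : ℝ) - 2 * k) * ∑ x, FF g1 g2 u1 u2 x y :=
          mul_le_mul_of_nonneg_left h2 (by linarith)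
      _ = ((n : ℝ) - 2 * k) * ∑ x, ∑ z, (1 - g2 z x) * u1 y z +
          ((n : ℝ) - 2 * k) * ∑ x, ∑ z, (1 - g1 y z) * u2 z x := by
          simp only [FF, Finset.sum_add_distrib, mul_add]
      _ ≤ ((n : ℝ) - 2 * k) * (k * pp u1 y) + k * (n + k) := by
          refine add_le_add (mul_le_mul_of_nonneg_left hF1 (by linarith)) hF2
      _ = k * (((n : ℝ) - 2 * k) * pp u1 y) + k * (n + k) := by ring
      _ ≤ k * (n + k) + k * (n + k) := by
          have := mul_le_mul_of_nonneg_left hP1 hk0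
          linarith
      _ = 2 * k * (n + k) := by ring
  nlinarith

end Pool.Agent.Lib.MP_cb9986_co
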