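import Pool.Agent.Lib.MP_cb9986_co.Pos

set_option autoImplicit false
open Finset Filter Topology

namespace Pool.Agent.Lib.MP_cb9986_co

variable {n : ℕ}

/-- Triples of edge functions. -/
abbrev EE (n : ℕ) := W n × W n × W n

/-- The kernel operator. -/
noncomputable def KK (g0 g1 g2 : W n) : EE n →ₗ[ℝ] EE n where
  toFun u := (fun x y => g0 x y * XX g1 g2 u.1 u.2.1 u.2.2 x y,
    fun x y => g1 x y * XX g2 g0 u.2.1 u.2.2 u.1 x y,
    fun x y => g2 x y * XX g0 g1 u.2.2 u.1 u.2.1 x y)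
  map_add' u v := by
    have h : ∀ (g h a b c a' b' c' : W n) (x y : Fin n),
        XX g h (a + a') (b + b') (c + c') x y = XX g h a b c x y + XX g h a' b' c' x y := by
      intro g h a b c a' b' c' x y
      unfold XX
      rw [← Finset.sum_add_distrib]
      refine Finset.sum_congr rfl fun z _ => ?_
      simp only [Pi.add_apply]; ring
    refine Prod.ext ?_ (Prod.ext ?_ ?_)
    · funext x y
      simp only [Prod.fst_add, Prod.snd_add, Pi.add_apply, h]; ring
    · funext x y
      simp only [Prod.fst_add, Prod.snd_add, Pi.add_apply, h]; ring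
    · funext x y
      simp only [Prod.fst_add, Prod.snd_add, Pi.add_apply, h]; ring
  map_smul' t u := by
    have h : ∀ (g h a b c : W n) (x y : Fin n),
        XX g h (t • a) (t • b) (t • c) x y = t * XX g h a b c x y := by
      intro g h a b c x y
      unfold XX
      rw [Finset.mul_sum]
      refine Finset.sum_congr rfl fun z _ => ?_
      simp only [Pi.smul_apply, smul_eq_mul]; ring
    refine Prod.ext ?_ (Prod.ext ?_ ?_)
    · funext x y
      simp only [Prod.smul_fst, Prod.smul_snd, Pi.smul_apply, h, smul_eq_mul, RingHom.id_apply]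
      ring
    · funext x y
      simp only [Prod.smul_fst, Prod.smul_snd, Pi.smul_apply, h, smul_eq_mul, RingHom.id_apply]
      ring
    · funext x y
      simp only [Prod.smul_fst, Prod.smul_snd, Pi.smul_apply, h, smul_eq_mul, RingHom.id_apply]
      ring

/-- The energy as a quadratic form of the kernel operator. -/
theorem en_form (g0 g1 g2 u0 u1 u2 : W n) :
    ∑ x, ∑ y, g0 x y * XX g1 g2 u0 u1 u2 x y * u0 x y +
    ∑ x, ∑ y, g1 x y * XX g2 g0 u1 u2 u0 x y * u1 x y +
    ∑ x, ∑ y, g2 x y * XX g0 g1 u2 u0 u1 x y * u2 x y =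
    ∑ x, ∑ y, ∑ z, g0 x y * g1 y z * g2 z x * (u0 x y + u1 y z + u2 z x) ^ 2 := by
  have h0 : ∑ x, ∑ y, g0 x y * XX g1 g2 u0 u1 u2 x y * u0 x y =
      ∑ x, ∑ y, ∑ z, g0 x y * g1 y z * g2 z x * (u0 x y + u1 y z + u2 z x) * u0 x y := by
    refine Finset.sum_congr rfl fun x _ => Finset.sum_congr rfl fun y _ => ?_
    simp only [XX, Finset.mul_sum, Finset.sum_mul]
    refine Finset.sum_congr rfl fun z _ => by ring
  have h1 : ∑ y, ∑ z, g1 y z * XX g2 g0 u1 u2 u0 y z * u1 y z =
      ∑ x, ∑ y, ∑ z, g0 x y * g1 y z * g2 z x * (u0 x y + u1 y z + u2 z x) * u1 y z := by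
    rw [← sum3_rot]
    refine Finset.sum_congr rfl fun x _ => Finset.sum_congr rfl fun y _ => ?_
    simp only [XX, Finset.mul_sum, Finset.sum_mul]
    refine Finset.sum_congr rfl fun z _ => by ring
  have h2 : ∑ z, ∑ x, g2 z x * XX g0 g1 u2 u0 u1 z x * u2 z x =
      ∑ x, ∑ y, ∑ z, g0 x y * g1 y z * g2 z x * (u0 x y + u1 y z + u2 z x) * u2 z x := by
    rw [← sum3_rot, ← sum3_rot]
    refine Finset.sum_congr rfl fun x _ => Finset.sum_congr rfl fun y _ => ?_
    simp only [XX, Finset.mul_sum, Finset.sum_mul]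
    refine Finset.sum_congr rfl fun z _ => by ring
  rw [h0, h1, h2]
  simp only [← Finset.sum_add_distrib]
  refine Finset.sum_congr rfl fun x _ => Finset.sum_congr rfl fun y _ =>
    Finset.sum_congr rfl fun z _ => by ring

theorem qq_eq_zero {u : W n} (h : qq u ≤ 0) : u = 0 := by
  funext x y
  have h1 : u x y ^ 2 ≤ qq u := by
    unfold qq
    calc u x y ^ 2 ≤ ∑ y, u x y ^ 2 :=
          Finset.single_le_sum (f := fun y => u x y ^ 2) (fun i _ => sq_nonneg _)
            (Finset.mem_univ y)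
      _ ≤ ∑ x, ∑ y, u x y ^ 2 :=
          Finset.single_le_sum (f := fun x => ∑ y, u x y ^ 2)
            (fun i _ => Finset.sum_nonneg fun j _ => sq_nonneg _) (Finset.mem_univ x)
  have h2 : u x y ^ 2 = 0 := le_antisymm (h1.trans h) (sq_nonneg _)
  exact pow_eq_zero_iff (two_ne_zero) |>.1 h2

/-- The regularised operator. -/
noncomputable def TT (g0 g1 g2 : W n) (e : ℝ) : EE n →L[ℝ] EE n :=
  LinearMap.toContinuousLinearMap (KK g0 g1 g2) + e • (1 : EE n →L[ℝ] EE n)

theorem TT_apply (g0 g1 g2 : W n) (e : ℝ) (u : EE n) :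
    TT g0 g1 g2 e u = KK g0 g1 g2 u + e • u := by
  simp [TT]

theorem TT_unit {g0 g1 g2 : W n} {k : ℝ} (H : Hyp k g0 g1 g2) {e : ℝ} (he : 0 < e) :
    IsUnit (TT g0 g1 g2 e) := by
  rw [ContinuousLinearMap.isUnit_iff_bijective]
  have hinj : Function.Injective (TT g0 g1 g2 e) := by
    rw [injective_iff_map_eq_zero]
    intro u hu
    rw [TT_apply] at hu
    have e0 : ∀ x y, g0 x y * XX g1 g2 u.1 u.2.1 u.2.2 x y + e * u.1 x y = 0 := fun x y => by
      have := congrFun (congrFun (congrArg Prod.fst hu) x) y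
      simpa [KK] using this
    have e1 : ∀ x y, g1 x y * XX g2 g0 u.2.1 u.2.2 u.1 x y + e * u.2.1 x y = 0 := fun x y => by
      have := congrFun (congrFun (congrArg (fun p : EE n => p.2.1) hu) x) y
      simpa [KK] using this
    have e2 : ∀ x y, g2 x y * XX g0 g1 u.2.2 u.1 u.2.1 x y + e * u.2.2 x y = 0 := fun x y => by
      have := congrFun (congrFun (congrArg (fun p : EE n => p.2.2) hu) x) y
      simpa [KK] using this
    have hen := en_form g0 g1 g2 u.1 u.2.1 u.2.2
    have h1 : 0 ≤ ∑ x, ∑ y, ∑ z, g0 x y * g1 y z * g2 z x *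
        (u.1 x y + u.2.1 y z + u.2.2 z x) ^ 2 := by
      refine Finset.sum_nonneg fun x _ => Finset.sum_nonneg fun y _ => Finset.sum_nonneg
        fun z _ => ?_
      have e0 := zo_nonneg (H.z0 x y)
      have e1 := zo_nonneg (H.z1 y z)
      have e2 := zo_nonneg (H.z2 z x)
      positivity
    have q : ∀ (g X v : W n), (∀ x y, g x y * X x y + e * v x y = 0) →
        ∑ x, ∑ y, g x y * X x y * v x y = - (e * qq v) := by
      intro g X v h
      unfold qq
      rw [Finset.mul_sum, ← Finset.sum_neg_distrib]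
      refine Finset.sum_congr rfl fun x _ => ?_
      rw [Finset.mul_sum, ← Finset.sum_neg_distrib]
      refine Finset.sum_congr rfl fun y _ => ?_
      have := h x y
      have h' : g x y * X x y = - (e * v x y) := by linarith
      rw [h']; ring
    rw [q _ _ _ e0, q _ _ _ e1, q _ _ _ e2] at hen
    rw [← hen] at h1
    have p0 : 0 ≤ qq u.1 := Finset.sum_nonneg fun _ _ => Finset.sum_nonneg fun _ _ => sq_nonneg _
    have p1 : 0 ≤ qq u.2.1 := Finset.sum_nonneg fun _ _ => Finset.sum_nonneg fun _ _ => sq_nonneg _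
    have p2 : 0 ≤ qq u.2.2 := Finset.sum_nonneg fun _ _ => Finset.sum_nonneg fun _ _ => sq_nonneg _
    have h2 : e * (qq u.1 + qq u.2.1 + qq u.2.2) ≤ 0 := by linarith
    have h3 : qq u.1 + qq u.2.1 + qq u.2.2 ≤ 0 := by
      by_contra hcon
      push Not at hcon
      have := mul_pos he hcon
      linarith
    refine Prod.ext (qq_eq_zero (by linarith)) (Prod.ext (qq_eq_zero (by linarith))
      (qq_eq_zero (by linarith)))
  refine ⟨hinj, ?_⟩
  exact (LinearMap.injective_iff_surjective (f := (TT g0 g1 g2 e : EE n →ₗ[ℝ] EE n))).1 hinj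

/-- The solution of the regularised system. -/
noncomputable def sol (g0 g1 g2 : W n) (e : ℝ) : EE n :=
  (Ring.inverse (TT g0 g1 g2 e)) (g0, g1, g2)

theorem sol_cont {g0 g1 g2 : W n} {k : ℝ} (H : Hyp k g0 g1 g2) {e : ℝ} (he : 0 < e) :
    ContinuousAt (sol g0 g1 g2) e := by
  have : CompleteSpace (EE n →L[ℝ] EE n) := FiniteDimensional.complete ℝ _
  obtain ⟨v, hv⟩ := TT_unit H he
  have h1 : ContinuousAt (fun e => TT g0 g1 g2 e) e := by
    unfold TT
    fun_prop
  have h2 : ContinuousAt Ring.inverse (TT g0 g1 g2 e) := by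
    rw [← hv]; exact NormedRing.inverse_continuousAt v
  have h3 : ContinuousAt (fun e => Ring.inverse (TT g0 g1 g2 e)) e :=
    ContinuousAt.comp (f := fun e => TT g0 g1 g2 e) (g := Ring.inverse) h2 h1
  exact h3.clm_apply continuousAt_const

theorem bal_form {g0 g1 g2 u0 u1 u2 : W n} (x : Fin n) :
    ∑ y, g0 x y * XX g1 g2 u0 u1 u2 x y = ∑ z, g2 z x * XX g0 g1 u2 u0 u1 z x := by
  simp only [XX, Finset.mul_sum]
  rw [Finset.sum_comm]
  refine Finset.sum_congr rfl fun y _ => Finset.sum_congr rfl fun z _ => by ring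

theorem sol_bal {g0 g1 g2 u0 u1 u2 : W n} {e : ℝ} (he : 0 < e) (x : Fin n)
    (hb : ∑ z, g2 z x = ∑ y, g0 x y)
    (e0 : ∀ x y, g0 x y * XX g1 g2 u0 u1 u2 x y + e * u0 x y = g0 x y)
    (e2 : ∀ x y, g2 x y * XX g0 g1 u2 u0 u1 x y + e * u2 x y = g2 x y) :
    ∑ z, u2 z x = ∑ y, u0 x y := by
  have h1 : e * ∑ z, u2 z x = ∑ z, g2 z x - ∑ z, g2 z x * XX g0 g1 u2 u0 u1 z x := by
    rw [Finset.mul_sum, ← Finset.sum_sub_distrib]
    refine Finset.sum_congr rfl fun z _ => ?_
    linarith [e2 z x]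
  have h2 : e * ∑ y, u0 x y = ∑ y, g0 x y - ∑ y, g0 x y * XX g1 g2 u0 u1 u2 x y := by
    rw [Finset.mul_sum, ← Finset.sum_sub_distrib]
    refine Finset.sum_congr rfl fun z _ => ?_
    linarith [e0 x z]
  rw [bal_form, ← hb] at h2
  rw [← h2] at h1
  exact mul_left_cancel₀ he.ne' h1

theorem sol_Sol {g0 g1 g2 : W n} {k : ℝ} (H : Hyp k g0 g1 g2) {e : ℝ} (he : 0 < e) :
    Sol e g0 g1 g2 (sol g0 g1 g2 e).1 (sol g0 g1 g2 e).2.1 (sol g0 g1 g2 e).2.2 := by
  set u := sol g0 g1 g2 e with hu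
  have hT : TT g0 g1 g2 e u = (g0, g1, g2) := by
    have h1 := Ring.mul_inverse_cancel _ (TT_unit H he)
    have h2 := congrArg (fun f : EE n →L[ℝ] EE n => f (g0, g1, g2)) h1
    exact h2
  rw [TT_apply] at hT
  have e0 : ∀ x y, g0 x y * XX g1 g2 u.1 u.2.1 u.2.2 x y + e * u.1 x y = g0 x y := fun x y => by
    have := congrFun (congrFun (congrArg Prod.fst hT) x) y
    simpa [KK] using this
  have e1 : ∀ x y, g1 x y * XX g2 g0 u.2.1 u.2.2 u.1 x y + e * u.2.1 x y = g1 x y := fun x y => by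
    have := congrFun (congrFun (congrArg (fun p : EE n => p.2.1) hT) x) y
    simpa [KK] using this
  have e2 : ∀ x y, g2 x y * XX g0 g1 u.2.2 u.1 u.2.1 x y + e * u.2.2 x y = g2 x y := fun x y => by
    have := congrFun (congrFun (congrArg (fun p : EE n => p.2.2) hT) x) y
    simpa [KK] using this
  have zero : ∀ (g X v : W n), (∀ x y, g x y * X x y + e * v x y = g x y) →
      ∀ x y, g x y = 0 → v x y = 0 := by
    intro g X v h x y hg
    have := h x y
    rw [hg, zero_mul, zero_add] at this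
    exact (mul_eq_zero.1 this).resolve_left he.ne'
  refine ⟨zero _ _ _ e0, zero _ _ _ e1, zero _ _ _ e2, ?_, ?_, ?_, ?_, ?_, ?_⟩
  · intro x y h
    have := e0 x y
    rw [h, one_mul] at this
    exact this
  · intro x y h
    have := e1 x y
    rw [h, one_mul] at this
    exact this
  · intro x y h
    have := e2 x y
    rw [h, one_mul] at this
    exact this
  · intro x
    exact sol_bal he x (H.b0 x) e0 e2
  · intro x
    exact sol_bal he x (H.b1 x) e1 e0
  · intro x
    exact sol_bal he x (H.b2 x) e2 e1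

end Pool.Agent.Lib.MP_cb9986_co
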