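import Mathlib

set_option autoImplicit false
open Finset

namespace Pool.Agent.Lib.MP_cb9986_co

/-- **König**: the edges of an `m`-regular bipartite graph (two copies of the same finite vertex
set) can be coloured with `m` colours. -/
theorem konig {α : Type*} [Fintype α] [DecidableEq α] (m : ℕ) :
    ∀ (E : α → α → Prop) [DecidableRel E],
      (∀ x, (Finset.univ.filter fun y => E x y).card = m) →
      (∀ y, (Finset.univ.filter fun x => E x y).card = m) →
      ∃ f : α → α → ℕ, (∀ x y, E x y → f x y < m) ∧
        (∀ x y y', E x y → E x y' → f x y = f x y' → y = y') ∧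
        (∀ x x' y, E x y → E x' y → f x y = f x' y → x = x') := by
  induction m with
  | zero =>
    intro E _ h1 _
    refine ⟨fun _ _ => 0, ?_, ?_, ?_⟩
    · intro x y hxy
      have := h1 x
      rw [Finset.card_eq_zero, Finset.filter_eq_empty_iff] at this
      exact absurd hxy (this (Finset.mem_univ y))
    · intro x y y' hxy
      have := h1 x
      rw [Finset.card_eq_zero, Finset.filter_eq_empty_iff] at this
      exact absurd hxy (this (Finset.mem_univ y))
    · intro x x' y hxy
      have := h1 x
      rw [Finset.card_eq_zero, Finset.filter_eq_empty_iff] at this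
      exact absurd hxy (this (Finset.mem_univ y))
  | succ m ih =>
    intro E _ h1 h2
    -- Hall
    have hall : ∀ s : Finset α, s.card ≤ (s.biUnion fun x => Finset.univ.filter fun y => E x y).card := by
      intro s
      set N := s.biUnion fun x => Finset.univ.filter fun y => E x y with hN
      have hc : ∑ x ∈ s, (Finset.univ.filter fun y => E x y).card ≤
          ∑ y ∈ N, (Finset.univ.filter fun x => E x y).card := by
        have e1 : ∀ x ∈ s, (Finset.univ.filter fun y => E x y).card =
            (N.filter fun y => E x y).card := by
          intro x hx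
          congr 1
          ext y
          simp only [Finset.mem_filter, Finset.mem_univ, true_and, hN, Finset.mem_biUnion]
          exact ⟨fun h => ⟨⟨x, hx, h⟩, h⟩, fun h => h.2⟩
        rw [Finset.sum_congr rfl e1]
        calc ∑ x ∈ s, (N.filter fun y => E x y).card
            = ∑ y ∈ N, (s.filter fun x => E x y).card :=
              Finset.sum_card_bipartiteAbove_eq_sum_card_bipartiteBelow E
          _ ≤ _ := Finset.sum_le_sum fun y _ =>
              Finset.card_le_card (Finset.filter_subset_filter _ (Finset.subset_univ s))
      simp only [h1, h2, Finset.sum_const, smul_eq_mul] at hc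
      exact Nat.le_of_mul_le_mul_right hc (Nat.succ_pos m)
    obtain ⟨σ, hσ, hσE⟩ := (Finset.all_card_le_biUnion_card_iff_exists_injective _).1 hall
    have hσE' : ∀ x, E x (σ x) := fun x => by simpa using hσE x
    have hsurj : Function.Surjective σ := Finite.surjective_of_injective hσ
    let E' : α → α → Prop := fun x y => E x y ∧ y ≠ σ x
    haveI : DecidableRel E' := fun x y => inferInstanceAs (Decidable (E x y ∧ y ≠ σ x))
    have h1' : ∀ x, (Finset.univ.filter fun y => E' x y).card = m := by
      intro x
      have : (Finset.univ.filter fun y => E' x y) =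
          (Finset.univ.filter fun y => E x y).erase (σ x) := by
        ext y
        simp only [Finset.mem_filter, Finset.mem_univ, true_and, Finset.mem_erase, E']
        tauto
      rw [this, Finset.card_erase_of_mem (by simpa using hσE' x), h1 x]
      rfl
    have h2' : ∀ y, (Finset.univ.filter fun x => E' x y).card = m := by
      intro y
      obtain ⟨w, hw⟩ := hsurj y
      have : (Finset.univ.filter fun x => E' x y) =
          (Finset.univ.filter fun x => E x y).erase w := by
        ext x
        simp only [Finset.mem_filter, Finset.mem_univ, true_and, Finset.mem_erase, E']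
        constructor
        · rintro ⟨h, h'⟩
          refine ⟨?_, h⟩
          rintro rfl
          exact h' hw.symm
        · rintro ⟨h, h'⟩
          refine ⟨h', ?_⟩
          intro h3
          exact h (hσ (by rw [← h3, hw]))
      rw [this, Finset.card_erase_of_mem (by rw [← hw]; simpa using hσE' w), h2 y]
      rfl
    obtain ⟨f, f1, f2, f3⟩ := ih E' h1' h2'
    refine ⟨fun x y => if y = σ x then m else f x y, ?_, ?_, ?_⟩
    · intro x y h
      show (if y = σ x then m else f x y) < m + 1
      split_ifs with hy
      · exact Nat.lt_succ_self m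
      · exact Nat.lt_succ_of_lt (f1 x y ⟨h, hy⟩)
    · intro x y y' h h' heq
      simp only at heq
      split_ifs at heq with hy hy' hy'
      · rw [hy, hy']
      · exact absurd heq.symm (f1 x y' ⟨h', hy'⟩).ne
      · exact absurd heq (f1 x y ⟨h, hy⟩).ne
      · exact f2 x y y' ⟨h, hy⟩ ⟨h', hy'⟩ heq
    · intro x x' y h h' heq
      simp only at heq
      split_ifs at heq with hy hy' hy'
      · exact hσ (by rw [← hy, ← hy'])
      · exact absurd heq.symm (f1 x' y ⟨h', hy'⟩).ne
      · exact absurd heq (f1 x y ⟨h, hy⟩).ne
      · exact f3 x x' y ⟨h, hy⟩ ⟨h', hy'⟩ heq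

/-- A function `Fin m → Fin n` with prescribed fibre sizes. -/
theorem exists_fibres {n m : ℕ} (a : Fin n → ℕ) (ha : ∑ s, a s = m) :
    ∃ τ : Fin m → Fin n, ∀ s, (Finset.univ.filter fun t => τ t = s).card = a s := by
  subst ha
  refine ⟨fun t => (finSigmaFinEquiv.symm t).1, ?_⟩
  intro s
  have h : (Finset.univ.filter fun t : Fin (∑ s, a s) => (finSigmaFinEquiv.symm t).1 = s).card =
      (Finset.univ.filter fun p : (i : Fin n) × Fin (a i) => p.1 = s).card := by
    refine Finset.card_bij (fun t _ => finSigmaFinEquiv.symm t) ?_ ?_ ?_
    · intro t ht; simpa using ht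
    · intro t _ t' _ h; exact finSigmaFinEquiv.symm.injective h
    · intro p hp
      refine ⟨finSigmaFinEquiv p, ?_, ?_⟩
      · simpa using hp
      · simp
  rw [h]
  have h2 : (Finset.univ.filter fun p : (i : Fin n) × Fin (a i) => p.1 = s) =
      (Finset.univ : Finset (Fin (a s))).map ⟨fun t => (⟨s, t⟩ : (i : Fin n) × Fin (a i)), by
        intro t t' h; simpa using h⟩ := by
    ext ⟨i, t⟩
    simp only [Finset.mem_filter, Finset.mem_univ, true_and, Finset.mem_map,
      Function.Embedding.coeFn_mk]
    constructor
    · rintro rfl; exact ⟨t, rfl⟩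
    · rintro ⟨t', h'⟩
      exact (Sigma.mk.inj h').1.symm
  rw [h2, Finset.card_map, Finset.card_univ, Fintype.card_fin]

end Pool.Agent.Lib.MP_cb9986_co
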