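import Pool.Agent.Lib.MP_cb9986_co.Rat
import Pool.Agent.Lib.MP_cb9986_co.Konig

set_option autoImplicit false
open Finset

namespace Pool.Agent.Lib.MP_cb9986_co

theorem sum_shift {m n : ℕ} [NeZero m] (τ : Fin m → Fin n) (s : Fin n) (i : Fin m) :
    (∑ j, if τ (i + j) = s then 1 else 0) = (Finset.univ.filter fun t => τ t = s).card := by
  rw [Finset.card_filter]
  exact Fintype.sum_equiv (Equiv.addLeft i) _ _ fun j => rfl

/-- An integral `m`-fold completion of `L` gives a completion of every `m`-inflation of `L`. -/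
theorem inflate {n m : ℕ} (hm : 0 < m) {L : Fin n → Fin n → Option (Fin n)}
    (A : Fin n → Fin n → Fin n → ℕ) (hcell : ∀ r c, ∑ s, A r c s = m)
    (hrow : ∀ r s, ∑ c, A r c s = m) (hcol : ∀ c s, ∑ r, A r c s = m)
    (hext : ∀ r c s, L r c = some s → A r c s = m)
    (Q : Fin n → Fin n → Fin m → Fin m → Fin m)
    (hQ : ∀ r c s, L r c = some s →
      (∀ i, Function.Injective (Q r c i)) ∧ (∀ j, Function.Injective fun i => Q r c i j)) :
    ∃ M : Fin n × Fin m → Fin n × Fin m → Fin n × Fin m,
      (∀ X, Function.Injective (M X)) ∧ (∀ Y, Function.Injective fun X => M X Y) ∧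
      ∀ r c s i j, L r c = some s → M (r, i) (c, j) = (s, Q r c i j) := by
  classical
  haveI : NeZero m := ⟨hm.ne'⟩
  have hτ : ∀ r c, ∃ τ : Fin m → Fin n, ∀ s, (Finset.univ.filter fun t => τ t = s).card = A r c s :=
    fun r c => exists_fibres (A r c) (hcell r c)
  choose τ hτ using hτ
  let sg : Fin n × Fin m → Fin n × Fin m → Fin n := fun X Y => τ X.1 Y.1 (X.2 + Y.2)
  have row : ∀ s X, (Finset.univ.filter fun Y => sg X Y = s).card = m := by
    intro s X
    rw [Finset.card_filter, Fintype.sum_prod_type]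
    simp only [sg]
    refine Eq.trans (Finset.sum_congr rfl fun c _ => ?_) (hrow X.1 s)
    rw [sum_shift, hτ]
  have col : ∀ s Y, (Finset.univ.filter fun X => sg X Y = s).card = m := by
    intro s Y
    rw [Finset.card_filter, Fintype.sum_prod_type]
    simp only [sg]
    refine Eq.trans (Finset.sum_congr rfl fun r _ => ?_) (hcol Y.1 s)
    simp_rw [add_comm _ Y.2]
    rw [sum_shift, hτ]
  have kon : ∀ s, ∃ f : Fin n × Fin m → Fin n × Fin m → ℕ, (∀ x y, sg x y = s → f x y < m) ∧
        (∀ x y y', sg x y = s → sg x y' = s → f x y = f x y' → y = y') ∧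
        (∀ x x' y, sg x y = s → sg x' y = s → f x y = f x' y → x = x') := fun s =>
    konig m (fun X Y => sg X Y = s) (row s) (col s)
  choose f f1 f2 f3 using kon
  -- filled blocks
  have full : ∀ r c s, L r c = some s → ∀ t, τ r c t = s := by
    intro r c s h t
    have h1 := hτ r c s
    rw [hext r c s h] at h1
    have h2 : (Finset.univ.filter fun t => τ r c t = s) = Finset.univ := by
      apply Finset.eq_univ_of_card
      rw [h1, Fintype.card_fin]
    have : t ∈ (Finset.univ.filter fun t => τ r c t = s) := by rw [h2]; exact Finset.mem_univ t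
    simpa using this
  have pos : ∀ r c t, 0 < A r c (τ r c t) := by
    intro r c t
    rw [← hτ r c (τ r c t)]
    exact Finset.card_pos.2 ⟨t, by simp⟩
  have rowx : ∀ r c c' s t, L r c = some s → τ r c' t = s → c' = c := by
    intro r c c' s t h h'
    by_contra hne
    have h1 := hrow r s
    have h2 : A r c s + A r c' s ≤ ∑ c, A r c s := by
      rw [← Finset.sum_pair (f := fun c => A r c s) (Ne.symm hne)]
      exact Finset.sum_le_sum_of_subset (Finset.subset_univ _)
    rw [hext r c s h, h1] at h2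
    have h3 := pos r c' t
    rw [h'] at h3
    omega
  have colx : ∀ r r' c s t, L r c = some s → τ r' c t = s → r' = r := by
    intro r r' c s t h h'
    by_contra hne
    have h1 := hcol c s
    have h2 : A r c s + A r' c s ≤ ∑ r, A r c s := by
      rw [← Finset.sum_pair (f := fun r => A r c s) (Ne.symm hne)]
      exact Finset.sum_le_sum_of_subset (Finset.subset_univ _)
    rw [hext r c s h, h1] at h2
    have h3 := pos r' c t
    rw [h'] at h3
    omega
  let M : Fin n × Fin m → Fin n × Fin m → Fin n × Fin m := fun X Y =>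
    (sg X Y, if (L X.1 Y.1).isSome then Q X.1 Y.1 X.2 Y.2
      else ⟨f (sg X Y) X Y, f1 (sg X Y) X Y rfl⟩)
  have sgL : ∀ X Y, (L X.1 Y.1).isSome → L X.1 Y.1 = some (sg X Y) := by
    intro X Y h
    obtain ⟨s, hs⟩ := Option.isSome_iff_exists.1 h
    rw [hs]
    congr 1
    exact (full _ _ s hs _).symm
  refine ⟨M, ?_, ?_, ?_⟩
  · intro X Y Y' h
    obtain ⟨h1, h2⟩ := Prod.mk.inj h
    by_cases hY : (L X.1 Y.1).isSome
    · have e := sgL X Y hY
      have e2 : Y'.1 = Y.1 := rowx X.1 Y.1 Y'.1 (sg X Y) _ e h1.symm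
      have hY' : (L X.1 Y'.1).isSome := by rw [e2]; exact hY
      rw [if_pos hY, if_pos hY', e2] at h2
      exact Prod.ext e2.symm ((hQ _ _ _ e).1 X.2 h2)
    · by_cases hY' : (L X.1 Y'.1).isSome
      · have e := sgL X Y' hY'
        have e2 : Y.1 = Y'.1 := rowx X.1 Y'.1 Y.1 (sg X Y') _ e h1
        rw [e2] at hY
        exact absurd hY' hY
      · rw [if_neg hY, if_neg hY'] at h2
        have h3 := Fin.mk.inj h2
        rw [← h1] at h3
        exact f2 (sg X Y) X Y Y' rfl h1.symm h3
  · intro Y X X' h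
    obtain ⟨h1, h2⟩ := Prod.mk.inj h
    by_cases hX : (L X.1 Y.1).isSome
    · have e := sgL X Y hX
      have e2 : X'.1 = X.1 := colx X.1 X'.1 Y.1 (sg X Y) _ e h1.symm
      have hX' : (L X'.1 Y.1).isSome := by rw [e2]; exact hX
      rw [if_pos hX, if_pos hX', e2] at h2
      exact Prod.ext e2.symm ((hQ _ _ _ e).2 Y.2 h2)
    · by_cases hX' : (L X'.1 Y.1).isSome
      · have e := sgL X' Y hX'
        have e2 : X.1 = X'.1 := colx X'.1 X.1 Y.1 (sg X' Y) _ e h1
        rw [e2] at hX
        exact absurd hX' hX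
      · rw [if_neg hX, if_neg hX'] at h2
        have h3 := Fin.mk.inj h2
        rw [← h1] at h3
        exact f3 (sg X Y) X X' Y rfl h1.symm h3
  · intro r c s i j h
    have hs : (L r c).isSome := by rw [h]; rfl
    show (sg (r, i) (c, j), if (L r c).isSome then Q r c i j
      else ⟨f (sg (r, i) (c, j)) (r, i) (c, j), _⟩) = (s, Q r c i j)
    rw [if_pos hs]
    congr 1
    exact full r c s h _

/-- A rational fractional completion has integral `m`-fold multiples for all multiples `m` of some
`m₀`. -/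
theorem exists_den {n : ℕ} {L : Fin n → Fin n → Option (Fin n)}
    {x : Fin n → Fin n → Fin n → ℚ} (hx : IsFracCompletion L x) :
    ∃ m₀ : ℕ, 0 < m₀ ∧ ∀ m : ℕ, m₀ ∣ m → ∃ A : Fin n → Fin n → Fin n → ℕ,
      (∀ r c, ∑ s, A r c s = m) ∧ (∀ r s, ∑ c, A r c s = m) ∧ (∀ c s, ∑ r, A r c s = m) ∧
      ∀ r c s, L r c = some s → A r c s = m := by
  classical
  set m₀ : ℕ := ∏ p : Fin n × Fin n × Fin n, (x p.1 p.2.1 p.2.2).den with hm₀
  refine ⟨m₀, Finset.prod_pos fun p _ => (x p.1 p.2.1 p.2.2).den_pos, ?_⟩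
  intro m hm
  have hA : ∀ r c s, ∃ a : ℕ, (a : ℚ) = m * x r c s := by
    intro r c s
    have h1 : (x r c s).den ∣ m :=
      (Finset.dvd_prod_of_mem (fun p : Fin n × Fin n × Fin n => (x p.1 p.2.1 p.2.2).den)
        (Finset.mem_univ (r, c, s))).trans hm
    obtain ⟨q, hq⟩ := h1
    have h2 : (m : ℚ) * x r c s = q * (x r c s).num := by
      have h3 : ((x r c s).den : ℚ) * x r c s = (x r c s).num := by
        rw [mul_comm]; exact Rat.mul_den_eq_num _
      rw [hq]; push_cast
      rw [mul_comm ((x r c s).den : ℚ) q, mul_assoc, h3]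
    have h4 : 0 ≤ (x r c s).num := Rat.num_nonneg.2 (hx.nonneg r c s)
    refine ⟨q * (x r c s).num.toNat, ?_⟩
    rw [h2]; push_cast
    congr 1
    have : (((x r c s).num.toNat : ℤ) : ℚ) = (x r c s).num := by rw [Int.toNat_of_nonneg h4]
    exact_mod_cast this
  choose A hA using hA
  refine ⟨A, ?_, ?_, ?_, ?_⟩
  · intro r c
    have : ((∑ s, A r c s : ℕ) : ℚ) = m := by
      push_cast
      simp_rw [hA]
      rw [← Finset.mul_sum, hx.cell, mul_one]
    exact_mod_cast this
  · intro r s
    have : ((∑ c, A r c s : ℕ) : ℚ) = m := by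
      push_cast
      simp_rw [hA]
      rw [← Finset.mul_sum, hx.row, mul_one]
    exact_mod_cast this
  · intro c s
    have : ((∑ r, A r c s : ℕ) : ℚ) = m := by
      push_cast
      simp_rw [hA]
      rw [← Finset.mul_sum, hx.col, mul_one]
    exact_mod_cast this
  · intro r c s h
    have : ((A r c s : ℕ) : ℚ) = m := by rw [hA, hx.ext r c s h, mul_one]
    exact_mod_cast this

end Pool.Agent.Lib.MP_cb9986_co
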