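import Pool.Agent.Lib.MP_cb9986_co.Deficit

set_option autoImplicit false
open Finset

namespace Pool.Agent.Lib.MP_cb9986_co

variable {n : ℕ}

open Classical in
/-- Delete the pair `(x, y)`. -/
noncomputable def del (g : W n) (x y : Fin n) : W n :=
  fun a b => if a = x ∧ b = y then 0 else g a b

theorem del_row {g : W n} {x y : Fin n} (h : g x y = 1) (a : Fin n) :
    ∑ b, del g x y a b = ∑ b, g a b - (if a = x then 1 else 0) := by
  classical
  have h1 : ∀ b, del g x y a b = g a b - (if a = x then (if b = y then 1 else 0) else 0) := by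
    intro b
    unfold del
    by_cases ha : a = x
    · by_cases hb : b = y
      · rw [ha, hb, h]; simp
      · simp [hb]
    · simp [ha]
  simp_rw [h1]
  rw [Finset.sum_sub_distrib]
  congr 1
  split_ifs <;> simp

theorem del_col {g : W n} {x y : Fin n} (h : g x y = 1) (b : Fin n) :
    ∑ a, del g x y a b = ∑ a, g a b - (if b = y then 1 else 0) := by
  classical
  have h1 : ∀ a, del g x y a b = g a b - (if b = y then (if a = x then 1 else 0) else 0) := by
    intro a
    unfold del
    by_cases ha : a = x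
    · by_cases hb : b = y
      · rw [ha, hb, h]; simp
      · simp [hb]
    · simp [ha]
  simp_rw [h1]
  rw [Finset.sum_sub_distrib]
  congr 1
  split_ifs <;> simp

theorem del_zo {g : W n} (hg : ∀ x y, g x y = 0 ∨ g x y = 1) (x y a b : Fin n) :
    del g x y a b = 0 ∨ del g x y a b = 1 := by
  unfold del
  split_ifs
  · exact Or.inl rfl
  · exact hg a b

theorem del_le {g : W n} (hg : ∀ x y, g x y = 0 ∨ g x y = 1) {x y a b : Fin n}
    (h : g a b = 0) : del g x y a b = 0 := by
  unfold del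
  split_ifs
  · rfl
  · exact h

theorem int_sum {g : W n} (hg : ∀ x y, g x y = 0 ∨ g x y = 1) (x : Fin n) :
    ∃ m : ℕ, ∑ y, g x y = m := by
  classical
  refine ⟨(Finset.univ.filter fun y => g x y = 1).card, ?_⟩
  rw [← Finset.sum_boole]
  refine Finset.sum_congr rfl fun y _ => ?_
  rcases hg x y with h | h <;> rw [h] <;> simp

theorem dl_ge_one {g : W n} (hg : ∀ x y, g x y = 0 ∨ g x y = 1) {k : ℕ} {x : Fin n}
    (h : 0 < dl k g x) : 1 ≤ dl k g x := by
  obtain ⟨m, hm⟩ := int_sum hg x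
  unfold dl at h ⊢
  rw [hm] at h ⊢
  have h1 : (0 : ℤ) < (k : ℤ) - n + m := by exact_mod_cast h
  have h2 : (1 : ℤ) ≤ (k : ℤ) - n + m := h1
  exact_mod_cast h2

theorem hyp_del {g0 g1 g2 : W n} {k : ℕ} (H : Hyp (k : ℝ) g0 g1 g2) {x y z : Fin n}
    (h0 : g0 x y = 1) (h1 : g1 y z = 1) (h2 : g2 z x = 1)
    (d0 : 0 < dl k g0 x) (d1 : 0 < dl k g1 y) (d2 : 0 < dl k g2 z) :
    Hyp (k : ℝ) (del g0 x y) (del g1 y z) (del g2 z x) := by
  refine ⟨del_zo H.z0 x y, del_zo H.z1 y z, del_zo H.z2 z x, ?_, ?_, ?_, ?_, ?_, ?_⟩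
  · intro a
    rw [del_row h0, del_col h2, H.b0 a]
  · intro a
    rw [del_row h1, del_col h0, H.b1 a]
  · intro a
    rw [del_row h2, del_col h1, H.b2 a]
  · intro a
    rw [del_row h0]
    split_ifs with ha
    · have := dl_ge_one H.z0 d0
      unfold dl at this
      rw [ha]; linarith
    · linarith [H.d0 a]
  · intro a
    rw [del_row h1]
    split_ifs with ha
    · have := dl_ge_one H.z1 d1
      unfold dl at this
      rw [ha]; linarith
    · linarith [H.d1 a]
  · intro a
    rw [del_row h2]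
    split_ifs with ha
    · have := dl_ge_one H.z2 d2
      unfold dl at this
      rw [ha]; linarith
    · linarith [H.d2 a]

/-- Fractional triangle decomposition. -/
structure IsDecomp (g0 g1 g2 : W n) (w : Fin n → Fin n → Fin n → ℝ) : Prop where
  nonneg : ∀ x y z, 0 ≤ w x y z
  dead : ∀ x y z, g0 x y = 0 ∨ g1 y z = 0 ∨ g2 z x = 0 → w x y z = 0
  s0 : ∀ x y, g0 x y = 1 → ∑ z, w x y z = 1
  s1 : ∀ y z, g1 y z = 1 → ∑ x, w x y z = 1
  s2 : ∀ z x, g2 z x = 1 → ∑ y, w x y z = 1

theorem sum_ind3 (x y z a b : Fin n) :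
    ∑ c, (if a = x ∧ b = y ∧ c = z then (1 : ℝ) else 0) = if a = x ∧ b = y then 1 else 0 := by
  classical
  by_cases ha : a = x
  · by_cases hb : b = y
    · simp [ha, hb]
    · simp [hb]
  · simp [ha]

theorem decomp_add {g0 g1 g2 : W n} {x y z : Fin n}
    (h0 : g0 x y = 1) (h1 : g1 y z = 1) (h2 : g2 z x = 1)
    {w : Fin n → Fin n → Fin n → ℝ}
    (hz0 : ∀ x y, g0 x y = 0 ∨ g0 x y = 1) (hz1 : ∀ x y, g1 x y = 0 ∨ g1 x y = 1)
    (hz2 : ∀ x y, g2 x y = 0 ∨ g2 x y = 1)
    (hw : IsDecomp (del g0 x y) (del g1 y z) (del g2 z x) w) : ∃ v, IsDecomp g0 g1 g2 v := by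
  classical
  refine ⟨fun a b c => w a b c + (if a = x ∧ b = y ∧ c = z then 1 else 0), ?_, ?_, ?_, ?_, ?_⟩
  · intro a b c
    have := hw.nonneg a b c
    show 0 ≤ w a b c + (if a = x ∧ b = y ∧ c = z then 1 else 0)
    split_ifs <;> linarith
  · intro a b c h
    show w a b c + (if a = x ∧ b = y ∧ c = z then 1 else 0) = 0
    have hw0 : w a b c = 0 := by
      refine hw.dead a b c ?_
      rcases h with h | h | h
      · exact Or.inl (del_le hz0 h)
      · exact Or.inr (Or.inl (del_le hz1 h))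
      · exact Or.inr (Or.inr (del_le hz2 h))
    rw [hw0, if_neg, zero_add]
    rintro ⟨rfl, rfl, rfl⟩
    rcases h with h | h | h
    · rw [h0] at h; norm_num at h
    · rw [h1] at h; norm_num at h
    · rw [h2] at h; norm_num at h
  · intro a b hab
    rw [Finset.sum_add_distrib, sum_ind3]
    by_cases hA : a = x ∧ b = y
    · rw [if_pos hA]
      have : ∀ c, w a b c = 0 := fun c => hw.dead a b c (Or.inl (by simp [del, hA]))
      simp [this]
    · rw [if_neg hA, add_zero]
      exact hw.s0 a b (by simp [del, hA, hab])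
  · intro b c hbc
    rw [Finset.sum_add_distrib]
    have e : ∑ a, (if a = x ∧ b = y ∧ c = z then (1 : ℝ) else 0) =
        if b = y ∧ c = z then 1 else 0 := by
      rw [← sum_ind3 (n := n) y z x b c]
      refine Finset.sum_congr rfl fun a _ => ?_
      congr 1
      exact propext ⟨fun ⟨p, q, r⟩ => ⟨q, r, p⟩, fun ⟨q, r, p⟩ => ⟨p, q, r⟩⟩
    rw [e]
    by_cases hA : b = y ∧ c = z
    · rw [if_pos hA]
      have : ∀ a, w a b c = 0 := fun a =>
        hw.dead a b c (Or.inr (Or.inl (by simp [del, hA])))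
      simp [this]
    · rw [if_neg hA, add_zero]
      exact hw.s1 b c (by simp [del, hA, hbc])
  · intro c a hca
    rw [Finset.sum_add_distrib]
    have e : ∑ b, (if a = x ∧ b = y ∧ c = z then (1 : ℝ) else 0) =
        if c = z ∧ a = x then 1 else 0 := by
      rw [← sum_ind3 (n := n) z x y c a]
      refine Finset.sum_congr rfl fun b _ => ?_
      congr 1
      exact propext ⟨fun ⟨p, q, r⟩ => ⟨r, p, q⟩, fun ⟨r, p, q⟩ => ⟨p, q, r⟩⟩
    rw [e]
    by_cases hA : c = z ∧ a = x
    · rw [if_pos hA]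
      have : ∀ b, w a b c = 0 := fun b =>
        hw.dead a b c (Or.inr (Or.inr (by simp [del, hA])))
      simp [this]
    · rw [if_neg hA, add_zero]
      exact hw.s2 c a (by simp [del, hA, hca])

theorem mm_nat {g : W n} (hg : ∀ x y, g x y = 0 ∨ g x y = 1) : ∃ m : ℕ, mm g = m := by
  choose f hf using int_sum hg
  refine ⟨∑ x, f x, ?_⟩
  unfold mm
  push_cast
  exact Finset.sum_congr rfl fun x _ => hf x

/-- **Locally balanced tripartite graphs of partite minimum degree at least `4n/5` have a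
fractional triangle decomposition.** -/
theorem tri_gen {k : ℕ} (h5 : 5 * k ≤ n) : ∀ (m : ℕ) (g0 g1 g2 : W n),
    Hyp (k : ℝ) g0 g1 g2 → mm g0 = m → ∃ w, IsDecomp g0 g1 g2 w := by
  rcases Nat.eq_zero_or_pos n with hn | hn
  · subst hn
    intro m g0 g1 g2 _ _
    exact ⟨fun _ _ _ => 0, fun x => x.elim0, fun x => x.elim0, fun x => x.elim0, fun x => x.elim0,
      fun x => x.elim0⟩
  have h5' : 5 * (k : ℝ) ≤ n := by exact_mod_cast h5
  intro m
  induction m using Nat.strong_induction_on with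
  | _ m ih =>
    intro g0 g1 g2 H hm
    by_cases hmax : ∀ x y z, 0 < dl k g0 x → 0 < dl k g1 y → 0 < dl k g2 z →
      g0 x y = 0 ∨ g1 y z = 0 ∨ g2 z x = 0
    · obtain ⟨w, w1, w2, _, w4, w5, w6⟩ := tri5 H (Nat.cast_nonneg k) h5' hn (deficit H hn hmax)
      exact ⟨w, w1, w2, w4, w5, w6⟩
    · push Not at hmax
      obtain ⟨x, y, z, d0, d1, d2, e0, e1, e2⟩ := hmax
      have f0 := (H.z0 x y).resolve_left e0
      have f1 := (H.z1 y z).resolve_left e1
      have f2 := (H.z2 z x).resolve_left e2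
      have H' := hyp_del H f0 f1 f2 d0 d1 d2
      obtain ⟨m', hm'⟩ := mm_nat H'.z0
      have hlt : m' < m := by
        have h1 : mm (del g0 x y) = mm g0 - 1 := by
          unfold mm
          simp_rw [del_row f0]
          rw [Finset.sum_sub_distrib]
          simp
        rw [hm', hm] at h1
        have h2 : ((m' + 1 : ℕ) : ℝ) = m := by push_cast; linarith
        have h3 : m' + 1 = m := by exact_mod_cast h2
        omega
      obtain ⟨w, hw⟩ := ih m' hlt _ _ _ H' hm'
      exact decomp_add f0 f1 f2 H.z0 H.z1 H.z2 hw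

end Pool.Agent.Lib.MP_cb9986_co
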