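import Pool.Agent.Lib.MP_cb9986_co.Exist

set_option autoImplicit false
open Finset Filter Topology

namespace Pool.Agent.Lib.MP_cb9986_co

variable {n : ℕ}

/-- the smallest of the three multipliers with index `x` -/
noncomputable def mn (u : EE n) (x : Fin n) : ℝ :=
  min (lam u.1 x) (min (lam u.2.1 x) (lam u.2.2 x))

theorem mn_cont (x : Fin n) : Continuous (fun u : EE n => mn u x) := by
  unfold mn lam pp
  fun_prop

theorem mn_pos {g0 g1 g2 : W n} {k e : ℝ} (H : Hyp k g0 g1 g2) (hk0 : 0 ≤ k)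
    (h5 : 5 * k ≤ n) (hn : 0 < n) (he : 0 ≤ e) (hD : 2 * DD k g0 ≤ k ^ 2) {u : EE n}
    (S : Sol e g0 g1 g2 u.1 u.2.1 u.2.2) (h : ∀ x, 0 ≤ mn u x) : ∀ x, 0 < mn u x := by
  have l0 : ∀ x, 0 ≤ lam u.1 x := fun x => (h x).trans (min_le_left _ _)
  have l1 : ∀ x, 0 ≤ lam u.2.1 x := fun x =>
    (h x).trans ((min_le_right _ _).trans (min_le_left _ _))
  have l2 : ∀ x, 0 ≤ lam u.2.2 x := fun x =>
    (h x).trans ((min_le_right _ _).trans (min_le_right _ _))
  have hD1 : 2 * DD k g1 ≤ k ^ 2 := by rw [DD_rot H]; exact hD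
  have hD2 : 2 * DD k g2 ≤ k ^ 2 := by rw [DD_rot H.rot]; exact hD1
  intro x
  refine lt_min ?_ (lt_min ?_ ?_)
  · exact lam1_pos H.rot.rot hk0 h5 hn he hD2 S.rot.rot l2 l0 l1 x
  · exact lam1_pos H hk0 h5 hn he hD S l0 l1 l2 x
  · exact lam1_pos H.rot hk0 h5 hn he hD1 S.rot l1 l2 l0 x

/-- For large `e` all multipliers are positive. -/
theorem mn_large {g0 g1 g2 : W n} {k : ℝ} (H : Hyp k g0 g1 g2) (hn : 0 < n) {u : EE n}
    (S : Sol (4 * (n : ℝ) ^ 2) g0 g1 g2 u.1 u.2.1 u.2.2) (x : Fin n) : 0 < mn u x := by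
  have hnR : (1 : ℝ) ≤ n := by exact_mod_cast hn
  set e : ℝ := 4 * (n : ℝ) ^ 2 with he
  have he0 : 0 < e := by positivity
  have hq := qq_le H S
  set q := qq u.1 + qq u.2.1 + qq u.2.2 with hqd
  -- linear sums against quadratic sums
  have hlin : ∀ v : W n, tau v ≤ e / 2 * qq v + n ^ 2 / (2 * e) := by
    intro v
    have h1 : e / 2 * qq v + n ^ 2 / (2 * e) = ∑ x, ∑ y, (e / 2 * v x y ^ 2 + 1 / (2 * e)) := by
      unfold qq
      simp only [Finset.sum_add_distrib, Finset.mul_sum]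
      simp
      field_simp
    rw [h1]
    unfold tau pp
    refine Finset.sum_le_sum fun x _ => Finset.sum_le_sum fun y _ => ?_
    have h2 : e / 2 * v x y ^ 2 + 1 / (2 * e) - v x y = (e * v x y - 1) ^ 2 / (2 * e) := by
      field_simp
      ring
    have h3 : 0 ≤ (e * v x y - 1) ^ 2 / (2 * e) := by positivity
    linarith
  have hq2 : e * q ≤ e / 2 * q + 3 * (n ^ 2 / (2 * e)) := by
    have t0 := hlin u.1
    have t1 := hlin u.2.1
    have t2 := hlin u.2.2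
    rw [tau_eq S] at t1
    rw [tau_eq S.rot, tau_eq S] at t2
    have : e / 2 * q = e / 2 * qq u.1 + e / 2 * qq u.2.1 + e / 2 * qq u.2.2 := by
      rw [hqd]; ring
    linarith
  have hq3 : (n : ℝ) * q ≤ 3 / 16 := by
    have h1 : e * q ≤ 3 * (n ^ 2 / e) := by
      have : 3 * ((n : ℝ) ^ 2 / (2 * e)) = 3 / 2 * (n ^ 2 / e) := by field_simp
      linarith
    have h2 : (n : ℝ) ^ 2 / e = 1 / 4 := by
      rw [he]; field_simp
    rw [h2] at h1
    have h3 : (n : ℝ) ^ 2 * q ≤ 3 / 16 := by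
      rw [he] at h1; linarith
    have hq0 : 0 ≤ q := by
      have p0 : ∀ v : W n, 0 ≤ qq v := fun v =>
        Finset.sum_nonneg fun _ _ => Finset.sum_nonneg fun _ _ => sq_nonneg _
      have := p0 u.1
      have := p0 u.2.1
      have := p0 u.2.2
      linarith
    have h4 : (n : ℝ) * q ≤ n ^ 2 * q := by
      refine mul_le_mul_of_nonneg_right ?_ hq0
      nlinarith
    linarith
  have hl : ∀ v : W n, qq v ≤ q → 0 < lam v x := by
    intro v hv
    have h1 : pp v x ≤ n * qq v + 1 / 4 := by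
      have h2 : ∑ y, v x y ≤ ∑ y, (n * v x y ^ 2 + 1 / (4 * n)) := by
        refine Finset.sum_le_sum fun y _ => ?_
        have h3 : (n : ℝ) * v x y ^ 2 + 1 / (4 * n) - v x y = (2 * n * v x y - 1) ^ 2 / (4 * n) := by
          field_simp
          ring
        have h4 : 0 ≤ (2 * n * v x y - 1) ^ 2 / (4 * (n : ℝ)) := by positivity
        linarith
      have h5 : ∑ y : Fin n, ((n : ℝ) * v x y ^ 2 + 1 / (4 * n)) = n * ∑ y, v x y ^ 2 + 1 / 4 := by
        rw [Finset.sum_add_distrib, ← Finset.mul_sum]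
        simp
        field_simp
      have h6 : ∑ y, v x y ^ 2 ≤ qq v := by
        unfold qq
        exact Finset.single_le_sum (f := fun x => ∑ y, v x y ^ 2)
          (fun i _ => Finset.sum_nonneg fun j _ => sq_nonneg _) (Finset.mem_univ x)
      have h7 : (n : ℝ) * ∑ y, v x y ^ 2 ≤ n * qq v := mul_le_mul_of_nonneg_left h6 (by linarith)
      unfold pp
      linarith
    have h2 : (n : ℝ) * qq v ≤ n * q := mul_le_mul_of_nonneg_left hv (by linarith)
    unfold lam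
    linarith
  have p0 : ∀ v : W n, 0 ≤ qq v := fun v =>
    Finset.sum_nonneg fun _ _ => Finset.sum_nonneg fun _ _ => sq_nonneg _
  have a0 := p0 u.1
  have a1 := p0 u.2.1
  have a2 := p0 u.2.2
  exact lt_min (hl _ (by linarith)) (lt_min (hl _ (by linarith)) (hl _ (by linarith)))

theorem sol_mn_pos {g0 g1 g2 : W n} {k : ℝ} (H : Hyp k g0 g1 g2) (hk0 : 0 ≤ k)
    (h5 : 5 * k ≤ n) (hn : 0 < n) (hD : 2 * DD k g0 ≤ k ^ 2) :
    ∀ e : ℝ, 0 < e → ∀ x, 0 < mn (sol g0 g1 g2 e) x := by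
  set U : Set ℝ := {e | 0 < e ∧ ∀ x, 0 < mn (sol g0 g1 g2 e) x} with hU
  set V : Set ℝ := {e | 0 < e ∧ ∃ x, mn (sol g0 g1 g2 e) x < 0} with hV
  have hc : ∀ e : ℝ, 0 < e → ∀ x, ContinuousAt (fun e => mn (sol g0 g1 g2 e) x) e := by
    intro e he x
    exact (mn_cont x).continuousAt.comp (sol_cont H he)
  have hUo : IsOpen U := by
    rw [isOpen_iff_mem_nhds]
    rintro e ⟨he, hx⟩
    have h1 : ∀ᶠ e' in 𝓝 e, ∀ x, 0 < mn (sol g0 g1 g2 e') x :=
      eventually_all.2 fun x => (hc e he x).eventually (lt_mem_nhds (hx x))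
    have h2 : ∀ᶠ e' in 𝓝 e, 0 < e' := lt_mem_nhds he
    filter_upwards [h1, h2] with e' h1 h2 using ⟨h2, h1⟩
  have hVo : IsOpen V := by
    rw [isOpen_iff_mem_nhds]
    rintro e ⟨he, x, hx⟩
    have h1 : ∀ᶠ e' in 𝓝 e, mn (sol g0 g1 g2 e') x < 0 :=
      (hc e he x).eventually (gt_mem_nhds hx)
    have h2 : ∀ᶠ e' in 𝓝 e, 0 < e' := lt_mem_nhds he
    filter_upwards [h1, h2] with e' h1 h2 using ⟨h2, x, h1⟩
  have hdisj : Disjoint U V := by
    rw [Set.disjoint_left]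
    rintro e ⟨_, h1⟩ ⟨_, x, h2⟩
    exact absurd (h1 x) (not_lt.2 h2.le)
  have hcov : Set.Ioi (0 : ℝ) ⊆ U ∪ V := by
    intro e he
    by_cases h : ∃ x, mn (sol g0 g1 g2 e) x < 0
    · exact Or.inr ⟨he, h⟩
    · push Not at h
      exact Or.inl ⟨he, mn_pos H hk0 h5 hn (le_of_lt he) hD (sol_Sol H he) h⟩
  have hnR : (0 : ℝ) < n := by exact_mod_cast hn
  have hbig : (0 : ℝ) < 4 * (n : ℝ) ^ 2 := by positivity
  have hne : (Set.Ioi (0 : ℝ) ∩ U).Nonempty :=
    ⟨4 * (n : ℝ) ^ 2, hbig, hbig, fun x => mn_large H hn (sol_Sol H hbig) x⟩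
  have hsub := isPreconnected_Ioi.subset_left_of_subset_union hUo hVo hdisj hcov hne
  intro e he x
  exact (hsub he).2 x

end Pool.Agent.Lib.MP_cb9986_co
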