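import Pool.Agent.Lib.MP_cb9986_co.Big
import Pool.Agent.Lib.MP_cb9986_co.Infl

set_option autoImplicit false

open Finset

namespace Pool.Agent.Lib.MP_cb9986_co.InflFifth

/-- `L` is a partial Latin square of order `n`: no symbol occurs twice in a row or in a column. -/
def PartialLatin {n : ℕ} (L : Fin n → Fin n → Option (Fin n)) : Prop :=
  (∀ r c c' s, L r c = some s → L r c' = some s → c = c') ∧
  (∀ r r' c s, L r c = some s → L r' c = some s → r = r')

/-- Each row, each column and each symbol of `L` is used at most `n / 5` times. -/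
def UsedAtMostFifth {n : ℕ} (L : Fin n → Fin n → Option (Fin n)) : Prop :=
  (∀ r : Fin n, 5 * (univ.filter fun c : Fin n => (L r c).isSome).card ≤ n) ∧
  (∀ c : Fin n, 5 * (univ.filter fun r : Fin n => (L r c).isSome).card ≤ n) ∧
  (∀ s : Fin n, 5 * (univ.filter fun p : Fin n × Fin n => L p.1 p.2 = some s).card ≤ n)

/-- `P` is an `m`-inflation of `L`: every empty cell of `L` is replaced by an empty `m × m` block,
and every cell of `L` filled with `s` by some Latin square of order `m` on the symbols `(s, ·)`. -/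
def Inflation {n : ℕ} (L : Fin n → Fin n → Option (Fin n)) (m : ℕ)
    (P : Fin n × Fin m → Fin n × Fin m → Option (Fin n × Fin m)) : Prop :=
  (∀ r c i j, L r c = none → P (r, i) (c, j) = none) ∧
  (∀ r c s, L r c = some s → ∃ Q : Fin m → Fin m → Fin m,
    (∀ i, Function.Injective (Q i)) ∧ (∀ j, Function.Injective fun i => Q i j) ∧
    ∀ i j, P (r, i) (c, j) = some (s, Q i j))

/-- `P` can be completed to a Latin square on the same rows, columns and symbols. -/
def Completable {X : Type} (P : X → X → Option X) : Prop :=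
  ∃ M : X → X → X, (∀ r, Function.Injective (M r)) ∧ (∀ c, Function.Injective fun r => M r c) ∧
    ∀ r c s, P r c = some s → M r c = s

theorem result (n : ℕ) (L : Fin n → Fin n → Option (Fin n)) (hL : PartialLatin L)
    (hU : UsedAtMostFifth L) :
    ∃ m₁ : ℕ, ∀ m : ℕ, m₁ ≤ m →
      ∀ P : Fin n × Fin m → Fin n × Fin m → Option (Fin n × Fin m),
        Inflation L m P → Completable P := by
  classical
  have hU' : Pool.Agent.Lib.MP_cb9986_co.UsedAtMost (n / 5) L := by
    refine ⟨fun r => ?_, fun c => ?_, fun s => ?_⟩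
    · rw [Nat.le_div_iff_mul_le (by norm_num), mul_comm]; exact hU.1 r
    · rw [Nat.le_div_iff_mul_le (by norm_num), mul_comm]; exact hU.2.1 c
    · rw [Nat.le_div_iff_mul_le (by norm_num), mul_comm]; exact hU.2.2 s
  have h5 : 5 * (n / 5) ≤ n := Nat.mul_div_le n 5
  have hP : Pool.Agent.Lib.MP_cb9986_co.IsPLS L := hL
  obtain ⟨m₁, h1⟩ := Pool.Agent.Lib.MP_cb9986_co.int_fifth hP hU' h5
  refine ⟨m₁ + 1, fun m hm P hInf => ?_⟩
  obtain ⟨A, a1, a2, a3, a4⟩ := h1 m (by omega)
  have hQ : ∀ r c, ∃ Q : Fin m → Fin m → Fin m, ∀ s, L r c = some s →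
      (∀ i, Function.Injective (Q i)) ∧ (∀ j, Function.Injective fun i => Q i j) ∧
      ∀ i j, P (r, i) (c, j) = some (s, Q i j) := by
    intro r c
    by_cases h : ∃ s, L r c = some s
    · obtain ⟨s, hs⟩ := h
      obtain ⟨Q, q⟩ := hInf.2 r c s hs
      refine ⟨Q, fun s' hs' => ?_⟩
      rw [hs] at hs'
      rw [← Option.some.inj hs']
      exact q
    · exact ⟨fun i _ => i, fun s hs => absurd ⟨s, hs⟩ h⟩
  choose Q q using hQ
  obtain ⟨M, M1, M2, M3⟩ := Pool.Agent.Lib.MP_cb9986_co.inflate (by omega) A a1 a2 a3 a4 Q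
    (fun r c s h => ⟨(q r c s h).1, (q r c s h).2.1⟩)
  refine ⟨M, M1, M2, ?_⟩
  rintro ⟨r, i⟩ ⟨c, j⟩ t ht
  cases hrc : L r c with
  | none =>
    rw [hInf.1 r c i j hrc] at ht
    exact absurd ht (by simp)
  | some s =>
    rw [M3 r c s i j hrc]
    rw [(q r c s hrc).2.2 i j] at ht
    exact Option.some.inj ht

end Pool.Agent.Lib.MP_cb9986_co.InflFifth
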