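import Pool.Agent.Lib.MP_cb9986_co.Est

set_option autoImplicit false
open Finset

namespace Pool.Agent.Lib.MP_cb9986_co

variable {n : ℕ}

/-- A dense bipartite graph has no obstruction: functions satisfying the four-cycle rule split. -/
theorem split {A : Type} [AddCommGroup A] (P : Fin n → Fin n → Prop) (c0 : Fin n)
    (h3 : ∀ c c' c'', ∃ s, P c s ∧ P c' s ∧ P c'' s)
    (hs : ∀ s, ∃ c, P c s)
    (f : Fin n → Fin n → A)
    (h4 : ∀ c c' s s', P c s → P c' s' → P c s' → P c' s → f c s + f c' s' = f c s' + f c' s) :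
    ∃ (a b : Fin n → A), ∀ c s, P c s → f c s = a c + b s := by
  classical
  -- base values
  choose t ht using fun c => h3 c c0 c0
  have ha' : ∀ c s, P c s → P c0 s → f c s = (f c (t c) - f c0 (t c)) + f c0 s := by
    intro c s h1 h2
    have h := h4 c c0 s (t c) h1 (ht c).2.1 (ht c).1 h2
    have : f c s = f c (t c) + f c0 s - f c0 (t c) := by rw [← h]; abel
    rw [this]; abel
  choose u hu using hs
  refine ⟨fun c => f c (t c) - f c0 (t c), fun s => f (u s) s - (f (u s) (t (u s)) -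
    f c0 (t (u s))), ?_⟩
  intro c s hcs
  obtain ⟨s', h1, h2, h3'⟩ := h3 c (u s) c0
  have e1 := ha' c s' h1 h3'
  have e2 := ha' (u s) s' h2 h3'
  have e3 := h4 c (u s) s s' hcs h2 h1 (hu s)
  have : f c s = f c s' + f (u s) s - f (u s) s' := by rw [← e3]; abel
  show f c s = (f c (t c) - f c0 (t c)) + (f (u s) s - (f (u s) (t (u s)) - f c0 (t (u s))))
  rw [this, e1, e2]; abel

theorem common4 {k : ℝ} (hk : 4 * k < n) (p1 p2 p3 p4 : Fin n → ℝ)
    (z1 : ∀ z, p1 z = 0 ∨ p1 z = 1) (z2 : ∀ z, p2 z = 0 ∨ p2 z = 1)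
    (z3 : ∀ z, p3 z = 0 ∨ p3 z = 1) (z4 : ∀ z, p4 z = 0 ∨ p4 z = 1)
    (d1 : (n : ℝ) - k ≤ ∑ z, p1 z) (d2 : (n : ℝ) - k ≤ ∑ z, p2 z)
    (d3 : (n : ℝ) - k ≤ ∑ z, p3 z) (d4 : (n : ℝ) - k ≤ ∑ z, p4 z) :
    ∃ z, p1 z = 1 ∧ p2 z = 1 ∧ p3 z = 1 ∧ p4 z = 1 := by
  by_contra hcon
  push Not at hcon
  have h1 : ∑ z, (p1 z + p2 z + p3 z + p4 z - 3) ≤ 0 := by
    refine Finset.sum_nonpos fun z _ => ?_
    rcases z1 z with a1 | a1
    · rw [a1]; linarith [zo_le (z2 z), zo_le (z3 z), zo_le (z4 z)]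
    rcases z2 z with a2 | a2
    · rw [a2]; linarith [zo_le (z1 z), zo_le (z3 z), zo_le (z4 z)]
    rcases z3 z with a3 | a3
    · rw [a3]; linarith [zo_le (z1 z), zo_le (z2 z), zo_le (z4 z)]
    rcases z4 z with a4 | a4
    · rw [a4]; linarith [zo_le (z1 z), zo_le (z2 z), zo_le (z3 z)]
    exact absurd a4 (hcon z a1 a2 a3)
  rw [Finset.sum_sub_distrib, Finset.sum_add_distrib, Finset.sum_add_distrib,
    Finset.sum_add_distrib] at h1
  simp only [Finset.sum_const, Finset.card_univ, Fintype.card_fin, nsmul_eq_mul] at h1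
  linarith

/-- All degrees in both directions. -/
theorem Hyp.deg {g0 g1 g2 : W n} {k : ℝ} (H : Hyp k g0 g1 g2) :
    (∀ x, (n : ℝ) - k ≤ ∑ y, g0 x y) ∧ (∀ y, (n : ℝ) - k ≤ ∑ x, g0 x y) :=
  ⟨H.d0, fun y => by rw [H.b1 y]; exact H.d1 y⟩

theorem splits0 {A : Type} [AddCommGroup A] {g0 g1 g2 : W n} {k : ℝ} (H : Hyp k g0 g1 g2)
    (hn : 0 < n) (hk : 4 * k < n) (f0 f1 f2 : Fin n → Fin n → A)
    (hf : ∀ x y z, g0 x y = 1 → g1 y z = 1 → g2 z x = 1 → f0 x y + f1 y z + f2 z x = 0) :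
    ∃ (a b : Fin n → A), ∀ x y, g0 x y = 1 → f0 x y = a x + b y := by
  refine split (fun x y => g0 x y = 1) ⟨0, hn⟩ ?_ ?_ f0 ?_
  · intro c c' c''
    obtain ⟨z, h1, h2, h3, -⟩ := common4 hk (g0 c) (g0 c') (g0 c'') (g0 c) (H.z0 c) (H.z0 c')
      (H.z0 c'') (H.z0 c) (H.d0 c) (H.d0 c') (H.d0 c'') (H.d0 c)
    exact ⟨z, h1, h2, h3⟩
  · intro s
    obtain ⟨z, h1, -⟩ := common4 hk (fun x => g0 x s) (fun x => g0 x s) (fun x => g0 x s)
      (fun x => g0 x s) (fun x => H.z0 x s) (fun x => H.z0 x s) (fun x => H.z0 x s)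
      (fun x => H.z0 x s) (H.deg.2 s) (H.deg.2 s) (H.deg.2 s) (H.deg.2 s)
    exact ⟨z, h1⟩
  · intro x x' y y' h1 h2 h3 h4
    obtain ⟨z, a1, a2, a3, a4⟩ := common4 hk (fun z => g2 z x) (fun z => g2 z x') (g1 y) (g1 y')
      (fun z => H.z2 z x) (fun z => H.z2 z x') (H.z1 y) (H.z1 y') (H.rot.rot.deg.2 x)
      (H.rot.rot.deg.2 x') (H.d1 y) (H.d1 y')
    have e1 := hf x y z h1 a3 a1
    have e2 := hf x' y' z h2 a4 a2
    have e3 := hf x y' z h3 a4 a1
    have e4 := hf x' y z h4 a3 a2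
    have f1' : f0 x y = -(f1 y z + f2 z x) := by rw [add_assoc] at e1; exact eq_neg_of_add_eq_zero_left e1
    have f2' : f0 x' y' = -(f1 y' z + f2 z x') := by
      rw [add_assoc] at e2; exact eq_neg_of_add_eq_zero_left e2
    have f3' : f0 x y' = -(f1 y' z + f2 z x) := by
      rw [add_assoc] at e3; exact eq_neg_of_add_eq_zero_left e3
    have f4' : f0 x' y = -(f1 y z + f2 z x') := by
      rw [add_assoc] at e4; exact eq_neg_of_add_eq_zero_left e4
    rw [f1', f2', f3', f4']; abel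

/-- natural number degree -/
noncomputable def nd (g : W n) (x : Fin n) : ℕ :=
  by classical exact (Finset.univ.filter fun y => g x y = 1).card

theorem nd_cast {g : W n} (hg : ∀ x y, g x y = 0 ∨ g x y = 1) (x : Fin n) :
    (nd g x : ℝ) = ∑ y, g x y := by
  classical
  unfold nd
  rw [← Finset.sum_boole]
  refine Finset.sum_congr rfl fun y _ => ?_
  rcases hg x y with h | h <;> rw [h] <;> simp

theorem nd_cast' {g : W n} (hg : ∀ x y, g x y = 0 ∨ g x y = 1) (y : Fin n) :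
    (nd (fun y x => g x y) y : ℝ) = ∑ x, g x y :=
  nd_cast (g := fun y x => g x y) (fun x y => hg y x) y

theorem part_sum {A : Type} [AddCommGroup A] {g : W n} (hg : ∀ x y, g x y = 0 ∨ g x y = 1)
    (f : Fin n → Fin n → A) (a b : Fin n → A) (h1 : ∀ x y, g x y = 1 → f x y = a x + b y)
    (h0 : ∀ x y, g x y = 0 → f x y = 0) :
    ∑ x, ∑ y, f x y = ∑ x, nd g x • a x + ∑ y, nd (fun y x => g x y) y • b y := by
  classical
  have e1 : ∀ x y, f x y = (if g x y = 1 then a x else 0) + (if g x y = 1 then b y else 0) := by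
    intro x y
    rcases hg x y with h | h
    · rw [h0 x y h, h]; simp
    · rw [h1 x y h, h]; simp
  simp_rw [e1, Finset.sum_add_distrib]
  congr 1
  · refine Finset.sum_congr rfl fun x _ => ?_
    rw [← Finset.sum_filter, Finset.sum_const]
    rfl
  · rw [Finset.sum_comm]
    refine Finset.sum_congr rfl fun x _ => ?_
    rw [← Finset.sum_filter, Finset.sum_const]
    rfl

theorem const_of {A : Type} [AddCommGroup A] {g0 g1 g2 : W n} {k : ℝ} (H : Hyp k g0 g1 g2)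
    (hk : 4 * k < n) (a b c : Fin n → A)
    (h : ∀ x y z, g0 x y = 1 → g1 y z = 1 → g2 z x = 1 → a x + b y + c z = 0) (x x' : Fin n) :
    a x = a x' := by
  obtain ⟨y, h1, h2, -, -⟩ := common4 hk (g0 x) (g0 x') (g0 x) (g0 x) (H.z0 x) (H.z0 x')
    (H.z0 x) (H.z0 x) (H.d0 x) (H.d0 x') (H.d0 x) (H.d0 x)
  obtain ⟨z, e1, e2, e3, -⟩ := common4 hk (g1 y) (fun z => g2 z x) (fun z => g2 z x') (g1 y)
    (H.z1 y) (fun z => H.z2 z x) (fun z => H.z2 z x') (H.z1 y) (H.d1 y)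
    (H.rot.rot.deg.2 x) (H.rot.rot.deg.2 x') (H.d1 y)
  have f1 := h x y z h1 e1 e2
  have f2 := h x' y z h2 e1 e3
  rw [add_assoc] at f1 f2
  rw [eq_neg_of_add_eq_zero_left f1, eq_neg_of_add_eq_zero_left f2]

/-- Integral relations: if `f0, f1, f2` sum to zero over all live triples of a dense locally
balanced tripartite graph then they sum to zero over all live pairs. -/
theorem dual_zero {A : Type} [AddCommGroup A] {g0 g1 g2 : W n} {k : ℝ} (H : Hyp k g0 g1 g2)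
    (hn : 0 < n) (hk : 4 * k < n) (f0 f1 f2 : Fin n → Fin n → A)
    (hf : ∀ x y z, g0 x y = 1 → g1 y z = 1 → g2 z x = 1 → f0 x y + f1 y z + f2 z x = 0)
    (z0 : ∀ x y, g0 x y = 0 → f0 x y = 0) (z1 : ∀ x y, g1 x y = 0 → f1 x y = 0)
    (z2 : ∀ x y, g2 x y = 0 → f2 x y = 0) :
    ∑ x, ∑ y, f0 x y + ∑ y, ∑ z, f1 y z + ∑ z, ∑ x, f2 z x = 0 := by
  have hf1 : ∀ y z x, g1 y z = 1 → g2 z x = 1 → g0 x y = 1 → f1 y z + f2 z x + f0 x y = 0 := by
    intro y z x h1 h2 h0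
    rw [← hf x y z h0 h1 h2]; abel
  have hf2 : ∀ z x y, g2 z x = 1 → g0 x y = 1 → g1 y z = 1 → f2 z x + f0 x y + f1 y z = 0 := by
    intro z x y h2 h0 h1
    rw [← hf x y z h0 h1 h2]; abel
  obtain ⟨a0, b0, s0⟩ := splits0 H hn hk f0 f1 f2 hf
  obtain ⟨a1, b1, s1⟩ := splits0 H.rot hn hk f1 f2 f0 hf1
  obtain ⟨a2, b2, s2⟩ := splits0 H.rot.rot hn hk f2 f0 f1 hf2
  rw [part_sum H.z0 f0 a0 b0 s0 z0, part_sum H.z1 f1 a1 b1 s1 z1, part_sum H.z2 f2 a2 b2 s2 z2]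
  -- degrees agree
  have e0 : ∀ x, nd (fun y x => g2 x y) x = nd g0 x := by
    intro x
    have : ((nd (fun y x => g2 x y) x : ℕ) : ℝ) = (nd g0 x : ℕ) := by
      rw [nd_cast' H.z2, nd_cast H.z0, H.b0 x]
    exact_mod_cast this
  have e1 : ∀ x, nd (fun y x => g0 x y) x = nd g1 x := by
    intro x
    have : ((nd (fun y x => g0 x y) x : ℕ) : ℝ) = (nd g1 x : ℕ) := by
      rw [nd_cast' H.z0, nd_cast H.z1, H.b1 x]
    exact_mod_cast this
  have e2 : ∀ x, nd (fun y x => g1 x y) x = nd g2 x := by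
    intro x
    have : ((nd (fun y x => g1 x y) x : ℕ) : ℝ) = (nd g2 x : ℕ) := by
      rw [nd_cast' H.z1, nd_cast H.z2, H.b2 x]
    exact_mod_cast this
  simp_rw [e0, e1, e2]
  -- the three vertex functions
  have hrel : ∀ x y z, g0 x y = 1 → g1 y z = 1 → g2 z x = 1 →
      (a0 x + b2 x) + (a1 y + b0 y) + (a2 z + b1 z) = 0 := by
    intro x y z h0 h1 h2
    have := hf x y z h0 h1 h2
    rw [s0 x y h0, s1 y z h1, s2 z x h2] at this
    rw [← this]; abel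
  have hc0 := const_of H hk _ _ _ hrel
  have hc1 := const_of H.rot hk (fun y => a1 y + b0 y) (fun z => a2 z + b1 z)
    (fun x => a0 x + b2 x) (by
      intro y z x h1 h2 h0
      have := hrel x y z h0 h1 h2
      rw [← this]; abel)
  have hc2 := const_of H.rot.rot hk (fun z => a2 z + b1 z) (fun x => a0 x + b2 x)
    (fun y => a1 y + b0 y) (by
      intro z x y h2 h0 h1
      have := hrel x y z h0 h1 h2
      rw [← this]; abel)
  set o : Fin n := ⟨0, hn⟩ with ho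
  have hsum : ∑ x, nd g0 x • a0 x + ∑ y, nd g1 y • b0 y +
      (∑ x, nd g1 x • a1 x + ∑ y, nd g2 y • b1 y) +
      (∑ x, nd g2 x • a2 x + ∑ y, nd g0 y • b2 y) =
      ∑ x, nd g0 x • (a0 x + b2 x) + ∑ y, nd g1 y • (a1 y + b0 y) +
      ∑ z, nd g2 z • (a2 z + b1 z) := by
    simp only [smul_add, Finset.sum_add_distrib]
    abel
  rw [hsum]
  have h0 : ∑ x, nd g0 x • (a0 x + b2 x) = (∑ x, nd g0 x) • (a0 o + b2 o) := by
    rw [Finset.sum_smul]
    exact Finset.sum_congr rfl fun x _ => by rw [hc0 x o]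
  have h1 : ∑ x, nd g1 x • (a1 x + b0 x) = (∑ x, nd g1 x) • (a1 o + b0 o) := by
    rw [Finset.sum_smul]
    exact Finset.sum_congr rfl fun x _ => by rw [hc1 x o]
  have h2 : ∑ x, nd g2 x • (a2 x + b1 x) = (∑ x, nd g2 x) • (a2 o + b1 o) := by
    rw [Finset.sum_smul]
    exact Finset.sum_congr rfl fun x _ => by rw [hc2 x o]
  have t1 : ∑ x, nd g1 x = ∑ x, nd g0 x := by
    have : ((∑ x, nd g1 x : ℕ) : ℝ) = ((∑ x, nd g0 x : ℕ) : ℝ) := by
      push_cast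
      simp_rw [nd_cast H.z0, nd_cast H.z1, ← H.b1]
      exact Finset.sum_comm
    exact_mod_cast this
  have t2 : ∑ x, nd g2 x = ∑ x, nd g0 x := by
    have : ((∑ x, nd g2 x : ℕ) : ℝ) = ((∑ x, nd g0 x : ℕ) : ℝ) := by
      push_cast
      simp_rw [nd_cast H.z0, nd_cast H.z2, ← H.b0]
      exact Finset.sum_comm
    exact_mod_cast this
  rw [h0, h1, h2, t1, t2, ← smul_add, ← smul_add]
  obtain ⟨y, y1, -⟩ := common4 hk (g0 o) (g0 o) (g0 o) (g0 o) (H.z0 o) (H.z0 o)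
    (H.z0 o) (H.z0 o) (H.d0 o) (H.d0 o) (H.d0 o) (H.d0 o)
  obtain ⟨z, z1', z2', -, -⟩ := common4 hk (g1 y) (fun z => g2 z o) (fun z => g2 z o) (g1 y)
    (H.z1 y) (fun z => H.z2 z o) (fun z => H.z2 z o) (H.z1 y) (H.d1 y)
    (H.rot.rot.deg.2 o) (H.rot.rot.deg.2 o) (H.d1 y)
  have := hrel o y z y1 z1' z2'
  have c1 : a1 o + b0 o = a1 y + b0 y := hc1 o y
  have c2 : a2 o + b1 o = a2 z + b1 z := hc2 o z
  rw [c1, c2, this, smul_zero]

end Pool.Agent.Lib.MP_cb9986_co
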