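import Pool.Agent.Lib.MP_cb9986_co.Hom

set_option autoImplicit false
open Finset Filter Topology

namespace Pool.Agent.Lib.MP_cb9986_co

variable {n : ℕ}

theorem isClosed_Sol (g0 g1 g2 : W n) :
    IsClosed {p : ℝ × EE n | Sol p.1 g0 g1 g2 p.2.1 p.2.2.1 p.2.2.2} := by
  have : {p : ℝ × EE n | Sol p.1 g0 g1 g2 p.2.1 p.2.2.1 p.2.2.2} =
      (⋂ x, ⋂ y, {p | g0 x y = 0 → p.2.1 x y = 0}) ∩
      ((⋂ x, ⋂ y, {p | g1 x y = 0 → p.2.2.1 x y = 0}) ∩
      ((⋂ x, ⋂ y, {p | g2 x y = 0 → p.2.2.2 x y = 0}) ∩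
      ((⋂ x, ⋂ y, {p | g0 x y = 1 → XX g1 g2 p.2.1 p.2.2.1 p.2.2.2 x y + p.1 * p.2.1 x y = 1}) ∩
      ((⋂ x, ⋂ y, {p | g1 x y = 1 → XX g2 g0 p.2.2.1 p.2.2.2 p.2.1 x y + p.1 * p.2.2.1 x y = 1}) ∩
      ((⋂ x, ⋂ y, {p | g2 x y = 1 → XX g0 g1 p.2.2.2 p.2.1 p.2.2.1 x y + p.1 * p.2.2.2 x y = 1}) ∩
      ((⋂ x, {p | ∑ z, p.2.2.2 z x = ∑ y, p.2.1 x y}) ∩
      ((⋂ x, {p | ∑ z, p.2.1 z x = ∑ y, p.2.2.1 x y}) ∩
      (⋂ x, {p | ∑ z, p.2.2.1 z x = ∑ y, p.2.2.2 x y})))))))) := by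
    ext p
    simp only [Set.mem_ofPred_eq, Set.mem_inter_iff, Set.mem_iInter]
    exact ⟨fun h => ⟨h.s0, h.s1, h.s2, h.e0, h.e1, h.e2, h.b0, h.b1, h.b2⟩,
      fun ⟨a, b, c, d, e, f, g, h, i⟩ => ⟨a, b, c, d, e, f, g, h, i⟩⟩
  rw [this]
  have hX : ∀ (g h : W n) (x y : Fin n), Continuous
      (fun p : W n × W n × W n => XX g h p.1 p.2.1 p.2.2 x y) := by
    intro g h x y
    unfold XX
    fun_prop
  have imp : ∀ (P : Prop) (f : ℝ × EE n → ℝ) (c : ℝ), Continuous f →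
      IsClosed {p : ℝ × EE n | P → f p = c} := by
    intro P f c hf
    by_cases hP : P
    · simp only [hP, true_implies]
      exact isClosed_eq hf continuous_const
    · simp only [hP, false_implies]
      exact isClosed_univ
  refine IsClosed.inter ?_ (IsClosed.inter ?_ (IsClosed.inter ?_ (IsClosed.inter ?_
    (IsClosed.inter ?_ (IsClosed.inter ?_ (IsClosed.inter ?_ (IsClosed.inter ?_ ?_)))))))
  · exact isClosed_iInter fun x => isClosed_iInter fun y => imp _ _ _ (by fun_prop)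
  · exact isClosed_iInter fun x => isClosed_iInter fun y => imp _ _ _ (by fun_prop)
  · exact isClosed_iInter fun x => isClosed_iInter fun y => imp _ _ _ (by fun_prop)
  · refine isClosed_iInter fun x => isClosed_iInter fun y => imp _
      (fun p => XX g1 g2 p.2.1 p.2.2.1 p.2.2.2 x y + p.1 * p.2.1 x y) _ ?_
    refine Continuous.add ((hX g1 g2 x y).comp
      (continuous_snd : Continuous (fun p : ℝ × EE n => p.2))) (by fun_prop)
  · refine isClosed_iInter fun x => isClosed_iInter fun y => imp _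
      (fun p => XX g2 g0 p.2.2.1 p.2.2.2 p.2.1 x y + p.1 * p.2.2.1 x y) _ ?_
    refine Continuous.add ((hX g2 g0 x y).comp
      (g := fun p : W n × W n × W n => XX g2 g0 p.1 p.2.1 p.2.2 x y)
      (f := fun p : ℝ × EE n => (p.2.2.1, p.2.2.2, p.2.1)) (by fun_prop)) (by fun_prop)
  · refine isClosed_iInter fun x => isClosed_iInter fun y => imp _
      (fun p => XX g0 g1 p.2.2.2 p.2.1 p.2.2.1 x y + p.1 * p.2.2.2 x y) _ ?_
    refine Continuous.add ((hX g0 g1 x y).comp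
      (g := fun p : W n × W n × W n => XX g0 g1 p.1 p.2.1 p.2.2 x y)
      (f := fun p : ℝ × EE n => (p.2.2.2, p.2.1, p.2.2.1)) (by fun_prop)) (by fun_prop)
  · exact isClosed_iInter fun x => isClosed_eq (by fun_prop) (by fun_prop)
  · exact isClosed_iInter fun x => isClosed_eq (by fun_prop) (by fun_prop)
  · exact isClosed_iInter fun x => isClosed_eq (by fun_prop) (by fun_prop)

theorem le_one_of_mn {v : W n} {x y : Fin n} (h0 : ∀ x y, 0 ≤ v x y) (hl : 0 ≤ lam v x) :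
    v x y ≤ 1 := by
  have h1 : v x y ≤ ∑ y, v x y :=
    Finset.single_le_sum (f := fun y => v x y) (fun i _ => h0 x i) (Finset.mem_univ y)
  unfold lam pp at hl
  linarith

theorem exists_limit {g0 g1 g2 : W n} {k : ℝ} (H : Hyp k g0 g1 g2) (hk0 : 0 ≤ k)
    (h5 : 5 * k ≤ n) (hn : 0 < n) (hD : 2 * DD k g0 ≤ k ^ 2) :
    ∃ u : EE n, Sol 0 g0 g1 g2 u.1 u.2.1 u.2.2 ∧ ∀ x, 0 ≤ mn u x := by
  set C : Set (ℝ × EE n) := {p | p ∈ Set.Icc (0 : ℝ × EE n) 1} ∩
    ({p | Sol p.1 g0 g1 g2 p.2.1 p.2.2.1 p.2.2.2} ∩ ⋂ x, {p | 0 ≤ mn p.2 x}) with hC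
  have hcomp : IsCompact C := by
    refine IsCompact.inter_right isCompact_Icc (IsClosed.inter (isClosed_Sol g0 g1 g2) ?_)
    exact isClosed_iInter fun x => isClosed_le continuous_const
      ((mn_cont x).comp continuous_snd)
  have himg : IsClosed (Prod.fst '' C) := (hcomp.image continuous_fst).isClosed
  have hsub : Set.Ioc (0 : ℝ) 1 ⊆ Prod.fst '' C := by
    intro e he
    have hp := sol_mn_pos H hk0 h5 hn hD e he.1
    have S := sol_Sol H he.1
    set u := sol g0 g1 g2 e with hu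
    have l0 : ∀ x, 0 ≤ lam u.1 x := fun x => (hp x).le.trans (min_le_left _ _)
    have l1 : ∀ x, 0 ≤ lam u.2.1 x := fun x =>
      (hp x).le.trans ((min_le_right _ _).trans (min_le_left _ _))
    have l2 : ∀ x, 0 ≤ lam u.2.2 x := fun x =>
      (hp x).le.trans ((min_le_right _ _).trans (min_le_right _ _))
    have hnR : (0 : ℝ) < n := by exact_mod_cast hn
    obtain ⟨h0, h1, h2⟩ := u_nonneg H he.1.le (by linarith) hn S l0 l1 l2
    refine ⟨(e, u), ⟨⟨⟨he.1.le, h0, h1, h2⟩, ⟨he.2, ?_, ?_, ?_⟩⟩, S, ?_⟩, rfl⟩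
    · exact fun x y => le_one_of_mn h0 (l0 x)
    · exact fun x y => le_one_of_mn h1 (l1 x)
    · exact fun x y => le_one_of_mn h2 (l2 x)
    · exact Set.mem_iInter.2 fun x => (hp x).le
  have h0 : (0 : ℝ) ∈ Prod.fst '' C := by
    have h1 : closure (Set.Ioc (0 : ℝ) 1) ⊆ Prod.fst '' C :=
      closure_minimal hsub himg
    rw [closure_Ioc (by norm_num)] at h1
    exact h1 ⟨le_refl _, by norm_num⟩
  obtain ⟨⟨e, u⟩, hp, he⟩ := h0
  have he' : e = 0 := he
  subst he'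
  exact ⟨u, hp.2.1, fun x => Set.mem_iInter.1 hp.2.2 x⟩

/-- **Fractional triangle decompositions of dense tripartite graphs**, with the constant `1/5`. -/
theorem tri5 {g0 g1 g2 : W n} {k : ℝ} (H : Hyp k g0 g1 g2) (hk0 : 0 ≤ k)
    (h5 : 5 * k ≤ n) (hn : 0 < n) (hD : 2 * DD k g0 ≤ k ^ 2) :
    ∃ w : Fin n → Fin n → Fin n → ℝ, (∀ x y z, 0 ≤ w x y z) ∧
      (∀ x y z, g0 x y = 0 ∨ g1 y z = 0 ∨ g2 z x = 0 → w x y z = 0) ∧
      (∀ x y z, g0 x y = 1 → g1 y z = 1 → g2 z x = 1 → 0 < w x y z) ∧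
      (∀ x y, g0 x y = 1 → ∑ z, w x y z = 1) ∧
      (∀ y z, g1 y z = 1 → ∑ x, w x y z = 1) ∧
      (∀ z x, g2 z x = 1 → ∑ y, w x y z = 1) := by
  obtain ⟨u, S, hmn⟩ := exists_limit H hk0 h5 hn hD
  have hp := mn_pos H hk0 h5 hn le_rfl hD S hmn
  have l0 : ∀ x, 0 < lam u.1 x := fun x => (hp x).trans_le (min_le_left _ _)
  have l1 : ∀ x, 0 < lam u.2.1 x := fun x =>
    (hp x).trans_le ((min_le_right _ _).trans (min_le_left _ _))
  have l2 : ∀ x, 0 < lam u.2.2 x := fun x =>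
    (hp x).trans_le ((min_le_right _ _).trans (min_le_right _ _))
  have hnR : (0 : ℝ) < n := by exact_mod_cast hn
  obtain ⟨h0, h1, h2⟩ := u_nonneg H le_rfl (by linarith) hn S (fun x => (l0 x).le)
    (fun x => (l1 x).le) (fun x => (l2 x).le)
  have pos : ∀ x y, g0 x y = 1 → 0 < u.1 x y := by
    intro x y hx
    have e1 := edge H S hx
    have e2 : 0 ≤ FF g1 g2 u.2.1 u.2.2 x y := by
      unfold FF
      refine add_nonneg (Finset.sum_nonneg fun z _ => ?_) (Finset.sum_nonneg fun z _ => ?_)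
      · exact mul_nonneg (by linarith [zo_le (H.z2 z x)]) (h1 y z)
      · exact mul_nonneg (by linarith [zo_le (H.z1 y z)]) (h2 z x)
    rcases (h0 x y).eq_or_lt with h | h
    · rw [← h, mul_zero] at e1
      linarith [l0 x, l1 y]
    · exact h
  refine ⟨fun x y z => g0 x y * g1 y z * g2 z x * (u.1 x y + u.2.1 y z + u.2.2 z x),
    ?_, ?_, ?_, ?_, ?_, ?_⟩
  · intro x y z
    have e0 := zo_nonneg (H.z0 x y)
    have e1 := zo_nonneg (H.z1 y z)
    have e2 := zo_nonneg (H.z2 z x)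
    have f0 := h0 x y
    have f1 := h1 y z
    have f2 := h2 z x
    positivity
  · rintro x y z (h | h | h) <;> simp [h]
  · intro x y z e0 e1 e2
    have f0 := pos x y e0
    have f1 := h1 y z
    have f2 := h2 z x
    simp only [e0, e1, e2]
    linarith
  · intro x y hx
    have h := S.e0 x y hx
    rw [zero_mul, add_zero] at h
    rw [← h, XX]
    refine Finset.sum_congr rfl fun z _ => ?_
    simp only [hx]; ring
  · intro y z hx
    have h := S.e1 y z hx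
    rw [zero_mul, add_zero] at h
    rw [← h, XX]
    refine Finset.sum_congr rfl fun x _ => ?_
    simp only [hx]; ring
  · intro z x hx
    have h := S.e2 z x hx
    rw [zero_mul, add_zero] at h
    rw [← h, XX]
    refine Finset.sum_congr rfl fun y _ => ?_
    simp only [hx]; ring

end Pool.Agent.Lib.MP_cb9986_co
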