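import Pool.Agent.Lib.MP_cb9986_co.Tri

set_option autoImplicit false
open Finset

namespace Pool.Agent.Lib.MP_cb9986_co

variable {n : ℕ}

/-- No symbol occurs twice in a row or in a column. -/
def IsPLS (L : Fin n → Fin n → Option (Fin n)) : Prop :=
  (∀ (r c c' : Fin n) (s : Fin n), L r c = some s → L r c' = some s → c = c') ∧
  (∀ (r r' c : Fin n) (s : Fin n), L r c = some s → L r' c = some s → r = r')

/-- Each row, each column and each symbol is used at most `k` times. -/
def UsedAtMost (k : ℕ) (L : Fin n → Fin n → Option (Fin n)) : Prop :=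
  (∀ r : Fin n, (Finset.univ.filter (fun c : Fin n => (L r c).isSome)).card ≤ k) ∧
  (∀ c : Fin n, (Finset.univ.filter (fun r : Fin n => (L r c).isSome)).card ≤ k) ∧
  (∀ s : Fin n, (Finset.univ.filter (fun p : Fin n × Fin n => L p.1 p.2 = some s)).card ≤ k)

theorem card_le_of_matching {α β : Type*} [Fintype α] [Fintype β] (P : α → β → Prop)
    [DecidablePred fun a => ∃ b, P a b] [DecidablePred fun b => ∃ a, P a b]
    (h2 : ∀ a a' b, P a b → P a' b → a = a') :
    (Finset.univ.filter fun a => ∃ b, P a b).card ≤
      (Finset.univ.filter fun b => ∃ a, P a b).card := by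
  classical
  rcases isEmpty_or_nonempty β with hE | hE
  · rw [Finset.filter_false_of_mem]
    · simp
    · rintro a - ⟨b, -⟩
      exact hE.elim b
  choose! f hf using fun (a : α) (h : ∃ b, P a b) => h
  refine Finset.card_le_card_of_injOn f ?_ ?_
  · intro a ha
    have ha' : ∃ b, P a b := by simpa using ha
    simpa using ⟨a, hf a ha'⟩
  · intro a ha a' ha' h
    have ha1 : ∃ b, P a b := by simpa using ha
    have ha2 : ∃ b, P a' b := by simpa using ha'
    have := hf a ha1
    rw [h] at this
    exact h2 a a' _ this (hf a' ha2)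

theorem card_matching {α β : Type*} [Fintype α] [Fintype β] (P : α → β → Prop)
    [DecidablePred fun a => ∃ b, P a b] [DecidablePred fun b => ∃ a, P a b]
    (h1 : ∀ a b b', P a b → P a b' → b = b')
    (h2 : ∀ a a' b, P a b → P a' b → a = a') :
    (Finset.univ.filter fun a => ∃ b, P a b).card =
      (Finset.univ.filter fun b => ∃ a, P a b).card :=
  le_antisymm (card_le_of_matching P h2)
    (card_le_of_matching (fun b a => P a b) fun b b' a h h' => h1 a b b' h h')

open Classical in
/-- Live row-column pairs. -/
noncomputable def G0 (L : Fin n → Fin n → Option (Fin n)) : W n :=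
  fun r c => if (∃ s, L r c = some s) then 0 else 1

open Classical in
/-- Live column-symbol pairs. -/
noncomputable def G1 (L : Fin n → Fin n → Option (Fin n)) : W n :=
  fun c s => if (∃ r, L r c = some s) then 0 else 1

open Classical in
/-- Live symbol-row pairs. -/
noncomputable def G2 (L : Fin n → Fin n → Option (Fin n)) : W n :=
  fun s r => if (∃ c, L r c = some s) then 0 else 1

theorem sum_ind (P : Fin n → Prop) [DecidablePred P] :
    ∑ x, (if P x then (0 : ℝ) else 1) = n - (Finset.univ.filter P).card := by
  have : ∀ x, (if P x then (0 : ℝ) else 1) = 1 - (if P x then (1 : ℝ) else 0) := by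
    intro x; split_ifs <;> norm_num
  simp_rw [this]
  rw [Finset.sum_sub_distrib, Finset.sum_boole]
  simp

theorem hyp_of_pls {L : Fin n → Fin n → Option (Fin n)} (hL : IsPLS L) {k : ℕ}
    (hk : UsedAtMost k L) : Hyp (k : ℝ) (G0 L) (G1 L) (G2 L) := by
  classical
  have fn : ∀ r c s s', L r c = some s → L r c = some s' → s = s' := by
    intro r c s s' h h'
    rw [h] at h'
    exact Option.some.inj h'
  have rowc : ∀ r, (Finset.univ.filter fun c => ∃ s, L r c = some s).card =
      (Finset.univ.filter fun s => ∃ c, L r c = some s).card := fun r =>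
    card_matching (fun c s => L r c = some s) (fun c s s' => fn r c s s')
      (fun c c' s => hL.1 r c c' s)
  have colc : ∀ c, (Finset.univ.filter fun r => ∃ s, L r c = some s).card =
      (Finset.univ.filter fun s => ∃ r, L r c = some s).card := fun c =>
    card_matching (fun r s => L r c = some s) (fun r s s' => fn r c s s')
      (fun r r' s => hL.2 r r' c s)
  have symc : ∀ s, (Finset.univ.filter fun r => ∃ c, L r c = some s).card =
      (Finset.univ.filter fun c => ∃ r, L r c = some s).card := fun s =>
    card_matching (fun r c => L r c = some s) (fun r c c' => hL.1 r c c' s)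
      (fun r r' c => hL.2 r r' c s)
  have rowk : ∀ r, (Finset.univ.filter fun c => ∃ s, L r c = some s).card ≤ k := by
    intro r
    have := hk.1 r
    simpa [Option.isSome_iff_exists] using this
  have colk : ∀ c, (Finset.univ.filter fun r => ∃ s, L r c = some s).card ≤ k := by
    intro c
    have := hk.2.1 c
    simpa [Option.isSome_iff_exists] using this
  have symk : ∀ s, (Finset.univ.filter fun r => ∃ c, L r c = some s).card ≤ k := by
    intro s
    refine le_trans ?_ (hk.2.2 s)
    choose! f hf using fun (r : Fin n) (h : ∃ c, L r c = some s) => h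
    refine Finset.card_le_card_of_injOn (fun r => (r, f r)) ?_ ?_
    · intro r hr
      have hr' : ∃ c, L r c = some s := by simpa using hr
      simpa using hf r hr'
    · intro r _ r' _ h
      exact (Prod.mk.inj h).1
  refine ⟨?_, ?_, ?_, ?_, ?_, ?_, ?_, ?_, ?_⟩
  · intro x y; unfold G0; split_ifs <;> simp
  · intro x y; unfold G1; split_ifs <;> simp
  · intro x y; unfold G2; split_ifs <;> simp
  · intro r; unfold G0 G2; rw [sum_ind, sum_ind, rowc r]
  · intro c; unfold G0 G1; rw [sum_ind, sum_ind, colc c]
  · intro s; unfold G1 G2; rw [sum_ind, sum_ind, symc s]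
  · intro r; unfold G0; rw [sum_ind]
    have : (((Finset.univ.filter fun c => ∃ s, L r c = some s).card : ℕ) : ℝ) ≤ k := by
      exact_mod_cast rowk r
    linarith
  · intro c; unfold G1; rw [sum_ind, ← colc c]
    have : (((Finset.univ.filter fun r => ∃ s, L r c = some s).card : ℕ) : ℝ) ≤ k := by
      exact_mod_cast colk c
    linarith
  · intro s; unfold G2; rw [sum_ind]
    have : (((Finset.univ.filter fun r => ∃ c, L r c = some s).card : ℕ) : ℝ) ≤ k := by
      exact_mod_cast symk s
    linarith

/-- A fractional Latin square extending `L`, over an ordered field. -/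
structure IsFracCompletion (L : Fin n → Fin n → Option (Fin n)) {F : Type*} [Field F]
    [LinearOrder F] (x : Fin n → Fin n → Fin n → F) : Prop where
  nonneg : ∀ r c s, 0 ≤ x r c s
  cell : ∀ r c, ∑ s, x r c s = 1
  row : ∀ r s, ∑ c, x r c s = 1
  col : ∀ c s, ∑ r, x r c s = 1
  ext : ∀ r c s, L r c = some s → x r c s = 1

theorem frac_of_hyp {L : Fin n → Fin n → Option (Fin n)} (hL : IsPLS L) {k : ℝ}
    (H : Hyp k (G0 L) (G1 L) (G2 L)) (hk0 : 0 ≤ k)
    (hk : 2 * k < n) (hk2 : 2 * k * (n + k) < (n - 2 * k) ^ 2) :
    ∃ x : Fin n → Fin n → Fin n → ℝ, IsFracCompletion L x := by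
  classical
  obtain ⟨w, w1, w2, w3, w4, w5, w6⟩ := tri H hk0 hk hk2
  refine ⟨fun r c s => if L r c = some s then 1 else w r c s, ?_, ?_, ?_, ?_, ?_⟩
  · intro r c s
    show (0 : ℝ) ≤ if L r c = some s then 1 else w r c s
    split_ifs
    · norm_num
    · exact w1 r c s
  · intro r c
    by_cases h : ∃ s, L r c = some s
    · obtain ⟨s, hs⟩ := h
      have hg : G0 L r c = 0 := by unfold G0; rw [if_pos ⟨s, hs⟩]
      rw [Finset.sum_eq_single s]
      · simp [hs]
      · intro b _ hb
        have : L r c ≠ some b := by
          intro h'; rw [hs] at h'; exact hb (Option.some.inj h').symm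
        rw [if_neg this]
        exact w2 r c b (Or.inl hg)
      · intro h'; exact absurd (Finset.mem_univ _) h'
    · have hg : G0 L r c = 1 := by unfold G0; rw [if_neg h]
      rw [← w4 r c hg]
      refine Finset.sum_congr rfl fun s _ => ?_
      rw [if_neg (fun h' => h ⟨s, h'⟩)]
  · intro r s
    by_cases h : ∃ c, L r c = some s
    · obtain ⟨c, hc⟩ := h
      have hg : G2 L s r = 0 := by unfold G2; rw [if_pos ⟨c, hc⟩]
      rw [Finset.sum_eq_single c]
      · simp [hc]
      · intro b _ hb
        have : L r b ≠ some s := fun h' => hb (hL.1 r b c s h' hc)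
        rw [if_neg this]
        exact w2 r b s (Or.inr (Or.inr hg))
      · intro h'; exact absurd (Finset.mem_univ _) h'
    · have hg : G2 L s r = 1 := by unfold G2; rw [if_neg h]
      rw [← w6 s r hg]
      refine Finset.sum_congr rfl fun c _ => ?_
      rw [if_neg (fun h' => h ⟨c, h'⟩)]
  · intro c s
    by_cases h : ∃ r, L r c = some s
    · obtain ⟨r, hr⟩ := h
      have hg : G1 L c s = 0 := by unfold G1; rw [if_pos ⟨r, hr⟩]
      rw [Finset.sum_eq_single r]
      · simp [hr]
      · intro b _ hb
        have : L b c ≠ some s := fun h' => hb (hL.2 b r c s h' hr)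
        rw [if_neg this]
        exact w2 b c s (Or.inr (Or.inl hg))
      · intro h'; exact absurd (Finset.mem_univ _) h'
    · have hg : G1 L c s = 1 := by unfold G1; rw [if_neg h]
      rw [← w5 c s hg]
      refine Finset.sum_congr rfl fun r _ => ?_
      rw [if_neg (fun h' => h ⟨r, h'⟩)]
  · intro r c s h
    show (if L r c = some s then (1 : ℝ) else w r c s) = 1
    rw [if_pos h]

end Pool.Agent.Lib.MP_cb9986_co
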