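import Pool.Agent.Lib.MP_cb9986_co.Deficit
import Pool.Agent.Lib.MP_cb9986_co.Pls

set_option autoImplicit false
open Finset

namespace Pool.Agent.Lib.MP_cb9986_co

variable {n : ℕ}

/-- number of filled cells -/
def filled (L : Fin n → Fin n → Option (Fin n)) : ℕ :=
  (Finset.univ.filter (fun p : Fin n × Fin n => (L p.1 p.2).isSome)).card

/-- `L'` extends `L`. -/
def Ext (L L' : Fin n → Fin n → Option (Fin n)) : Prop :=
  ∀ r c s, L r c = some s → L' r c = some s

open Classical in
/-- Put the symbol `s` in the cell `(r, c)`. -/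
noncomputable def put (L : Fin n → Fin n → Option (Fin n)) (r c s : Fin n) :
    Fin n → Fin n → Option (Fin n) :=
  fun r' c' => if r' = r ∧ c' = c then some s else L r' c'

theorem put_self (L : Fin n → Fin n → Option (Fin n)) (r c s : Fin n) :
    put L r c s r c = some s := by simp [put]

theorem put_of (L : Fin n → Fin n → Option (Fin n)) {r c s r' c' : Fin n}
    (h : ¬ (r' = r ∧ c' = c)) : put L r c s r' c' = L r' c' := by simp [put, h]

theorem put_ext {L : Fin n → Fin n → Option (Fin n)} {r c : Fin n} (s : Fin n)
    (h : L r c = none) : Ext L (put L r c s) := by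
  intro r' c' s' h'
  by_cases hA : r' = r ∧ c' = c
  · rw [hA.1, hA.2, h] at h'; exact absurd h' (by simp)
  · rw [put_of L hA]; exact h'

theorem put_filled {L : Fin n → Fin n → Option (Fin n)} {r c : Fin n} (s : Fin n)
    (h : L r c = none) : filled L < filled (put L r c s) := by
  classical
  unfold filled
  refine Finset.card_lt_card ?_
  rw [Finset.ssubset_iff_of_subset]
  · refine ⟨(r, c), ?_, ?_⟩
    · simp [put_self]
    · simp [h]
  · intro p hp
    simp only [Finset.mem_filter, Finset.mem_univ, true_and] at hp ⊢
    obtain ⟨s', hs'⟩ := Option.isSome_iff_exists.1 hp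
    rw [put_ext s h p.1 p.2 s' hs']
    rfl

theorem put_pls {L : Fin n → Fin n → Option (Fin n)} (hL : IsPLS L) {r c s : Fin n}
    (h1 : ∀ c', L r c' ≠ some s) (h2 : ∀ r', L r' c ≠ some s) : IsPLS (put L r c s) := by
  constructor
  · intro r' c' c'' t h h'
    by_cases hA : r' = r ∧ c' = c
    · by_cases hB : r' = r ∧ c'' = c
      · rw [hA.2, hB.2]
      · rw [hA.1, hA.2, put_self] at h
        rw [put_of L hB, hA.1] at h'
        rw [← h] at h'
        exact absurd h' (h1 c'')
    · by_cases hB : r' = r ∧ c'' = c
      · rw [hB.1, hB.2, put_self] at h'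
        rw [put_of L hA, hB.1] at h
        rw [← h'] at h
        exact absurd h (h1 c')
      · rw [put_of L hA] at h
        rw [put_of L hB] at h'
        exact hL.1 r' c' c'' t h h'
  · intro r' r'' c' t h h'
    by_cases hA : r' = r ∧ c' = c
    · by_cases hB : r'' = r ∧ c' = c
      · rw [hA.1, hB.1]
      · rw [hA.1, hA.2, put_self] at h
        rw [put_of L hB, hA.2] at h'
        rw [← h] at h'
        exact absurd h' (h2 r'')
    · by_cases hB : r'' = r ∧ c' = c
      · rw [hB.1, hB.2, put_self] at h'
        rw [put_of L hA, hB.2] at h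
        rw [← h'] at h
        exact absurd h (h2 r')
      · rw [put_of L hA] at h
        rw [put_of L hB] at h'
        exact hL.2 r' r'' c' t h h'

theorem card_filter_insert_le {α : Type*} [Fintype α] [DecidableEq α] (P Q : α → Prop)
    [DecidablePred P] [DecidablePred Q] (a : α) (k : ℕ)
    (h : ∀ x, Q x → P x ∨ x = a) (hk : (Finset.univ.filter P).card < k) :
    (Finset.univ.filter Q).card ≤ k := by
  have : Finset.univ.filter Q ⊆ insert a (Finset.univ.filter P) := by
    intro x hx
    simp only [Finset.mem_filter, Finset.mem_univ, true_and] at hx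
    rcases h x hx with h' | h'
    · exact Finset.mem_insert_of_mem (by simp [h'])
    · rw [h']; exact Finset.mem_insert_self _ _
  calc (Finset.univ.filter Q).card ≤ (insert a (Finset.univ.filter P)).card :=
        Finset.card_le_card this
    _ ≤ (Finset.univ.filter P).card + 1 := Finset.card_insert_le _ _
    _ ≤ k := hk

theorem card_filter_mono {α : Type*} [Fintype α] (P Q : α → Prop)
    [DecidablePred P] [DecidablePred Q] (h : ∀ x, Q x → P x) {k : ℕ}
    (hk : (Finset.univ.filter P).card ≤ k) : (Finset.univ.filter Q).card ≤ k := by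
  refine le_trans (Finset.card_le_card ?_) hk
  intro x hx
  simp only [Finset.mem_filter, Finset.mem_univ, true_and] at hx ⊢
  exact h x hx

theorem put_used {L : Fin n → Fin n → Option (Fin n)} {k : ℕ} (hk : UsedAtMost k L)
    {r c s : Fin n}
    (h1 : (Finset.univ.filter (fun c' : Fin n => (L r c').isSome)).card < k)
    (h2 : (Finset.univ.filter (fun r' : Fin n => (L r' c).isSome)).card < k)
    (h3 : (Finset.univ.filter (fun p : Fin n × Fin n => L p.1 p.2 = some s)).card < k) :
    UsedAtMost k (put L r c s) := by
  classical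
  refine ⟨?_, ?_, ?_⟩
  · intro r'
    by_cases hr : r' = r
    · subst hr
      refine card_filter_insert_le _ _ c k ?_ h1
      intro c' hc'
      by_cases hc : c' = c
      · exact Or.inr hc
      · left
        rw [put_of L (by rintro ⟨_, h⟩; exact hc h)] at hc'
        exact hc'
    · refine card_filter_mono (fun c' => (L r' c').isSome) _ ?_ (hk.1 r')
      intro c' hc'
      rw [put_of L (by rintro ⟨h, _⟩; exact hr h)] at hc'
      exact hc'
  · intro c'
    by_cases hc : c' = c
    · subst hc
      refine card_filter_insert_le _ _ r k ?_ h2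
      intro r' hr'
      by_cases hr : r' = r
      · exact Or.inr hr
      · left
        rw [put_of L (by rintro ⟨h, _⟩; exact hr h)] at hr'
        exact hr'
    · refine card_filter_mono (fun r' => (L r' c').isSome) _ ?_ (hk.2.1 c')
      intro r' hr'
      rw [put_of L (by rintro ⟨_, h⟩; exact hc h)] at hr'
      exact hr'
  · intro s'
    by_cases hs : s' = s
    · subst hs
      refine card_filter_insert_le _ _ (r, c) k ?_ h3
      intro p hp
      by_cases hA : p.1 = r ∧ p.2 = c
      · right; exact Prod.ext hA.1 hA.2
      · left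
        rw [put_of L hA] at hp
        exact hp
    · refine card_filter_mono (fun p : Fin n × Fin n => L p.1 p.2 = some s') _ ?_ (hk.2.2 s')
      intro p hp
      by_cases hA : p.1 = r ∧ p.2 = c
      · rw [hA.1, hA.2, put_self] at hp
        exact absurd (Option.some.inj hp).symm hs
      · rw [put_of L hA] at hp
        exact hp

theorem dl_G0 {L : Fin n → Fin n → Option (Fin n)} {k : ℕ} {r : Fin n}
    (h : 0 < dl k (G0 L) r) :
    (Finset.univ.filter (fun c' : Fin n => (L r c').isSome)).card < k := by
  classical
  unfold dl G0 at h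
  rw [sum_ind] at h
  have h2 : (((Finset.univ.filter fun c => ∃ s, L r c = some s).card : ℕ) : ℝ) < k := by linarith
  have h3 : (Finset.univ.filter fun c => ∃ s, L r c = some s).card < k := by exact_mod_cast h2
  simpa [Option.isSome_iff_exists] using h3

theorem dl_G1 {L : Fin n → Fin n → Option (Fin n)} (hL : IsPLS L) {k : ℕ} {c : Fin n}
    (h : 0 < dl k (G1 L) c) :
    (Finset.univ.filter (fun r' : Fin n => (L r' c).isSome)).card < k := by
  classical
  unfold dl G1 at h
  rw [sum_ind] at h
  have fn : ∀ r c s s', L r c = some s → L r c = some s' → s = s' := by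
    intro r c s s' h h'
    rw [h] at h'
    exact Option.some.inj h'
  have colc : (Finset.univ.filter fun r => ∃ s, L r c = some s).card =
      (Finset.univ.filter fun s => ∃ r, L r c = some s).card :=
    card_matching (fun r s => L r c = some s) (fun r s s' => fn r c s s')
      (fun r r' s => hL.2 r r' c s)
  rw [← colc] at h
  have h2 : (((Finset.univ.filter fun r => ∃ s, L r c = some s).card : ℕ) : ℝ) < k := by linarith
  have h3 : (Finset.univ.filter fun r => ∃ s, L r c = some s).card < k := by exact_mod_cast h2
  simpa [Option.isSome_iff_exists] using h3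

theorem dl_G2 {L : Fin n → Fin n → Option (Fin n)} (hL : IsPLS L) {k : ℕ} {s : Fin n}
    (h : 0 < dl k (G2 L) s) :
    (Finset.univ.filter (fun p : Fin n × Fin n => L p.1 p.2 = some s)).card < k := by
  classical
  unfold dl G2 at h
  rw [sum_ind] at h
  have h2 : (((Finset.univ.filter fun r => ∃ c, L r c = some s).card : ℕ) : ℝ) < k := by linarith
  have h3 : (Finset.univ.filter fun r => ∃ c, L r c = some s).card < k := by exact_mod_cast h2
  refine lt_of_le_of_lt ?_ h3
  refine Finset.card_le_card_of_injOn (fun p => p.1) ?_ ?_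
  · intro p hp
    have hp' : L p.1 p.2 = some s := by simpa using hp
    simpa using ⟨p.2, hp'⟩
  · intro p hp q hq hpq
    have hp' : L p.1 p.2 = some s := by simpa using hp
    have hq' : L q.1 q.2 = some s := by simpa using hq
    have hpq' : p.1 = q.1 := hpq
    rw [← hpq'] at hq'
    exact Prod.ext hpq' (hL.1 _ _ _ _ hp' hq')

/-- Every partial Latin square with lines used at most `k` times has an extension of the same kind
which is maximal, and a maximal one has total deficit at most `k ^ 2 / 2`. -/
theorem exists_maximal {L : Fin n → Fin n → Option (Fin n)} (hL : IsPLS L) {k : ℕ}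
    (hk : UsedAtMost k L) (hn : 0 < n) :
    ∃ L' : Fin n → Fin n → Option (Fin n), Ext L L' ∧ IsPLS L' ∧ UsedAtMost k L' ∧
      2 * DD k (G0 L') ≤ (k : ℝ) ^ 2 := by
  classical
  obtain ⟨L', hL', hmax⟩ := Finset.exists_max_image
    (Finset.univ.filter fun M : Fin n → Fin n → Option (Fin n) =>
      Ext L M ∧ IsPLS M ∧ UsedAtMost k M) filled
    ⟨L, by simpa using ⟨fun _ _ _ h => h, hL, hk⟩⟩
  simp only [Finset.mem_filter, Finset.mem_univ, true_and] at hL' hmax
  obtain ⟨hE, hP, hU⟩ := hL'
  refine ⟨L', hE, hP, hU, ?_⟩
  refine deficit (hyp_of_pls hP hU) hn ?_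
  intro r c s hr hc hs
  by_contra hcon
  push Not at hcon
  obtain ⟨h0, h1, h2⟩ := hcon
  have a0 : ¬ ∃ s', L' r c = some s' := by
    intro h; exact h0 (by unfold G0; rw [if_pos h])
  have a1 : ¬ ∃ r', L' r' c = some s := by
    intro h; exact h1 (by unfold G1; rw [if_pos h])
  have a2 : ¬ ∃ c', L' r c' = some s := by
    intro h; exact h2 (by unfold G2; rw [if_pos h])
  have b0 : L' r c = none := by
    cases hh : L' r c with
    | none => rfl
    | some t => exact absurd ⟨t, hh⟩ a0
  have key := hmax (put L' r c s) ⟨fun r' c' s' h => put_ext s b0 r' c' s' (hE r' c' s' h),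
    put_pls hP (fun c' h => a2 ⟨c', h⟩) (fun r' h => a1 ⟨r', h⟩),
    put_used hU (dl_G0 hr) (dl_G1 hP hc) (dl_G2 hP hs)⟩
  exact absurd (put_filled s b0) (not_lt.2 key)

end Pool.Agent.Lib.MP_cb9986_co
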