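import Mathlib

set_option autoImplicit false
open Finset

namespace Pool.Agent.Lib.MP_cb9986_co

/-- Functions on pairs. -/
abbrev W (n : ℕ) := Fin n → Fin n → ℝ

variable {n : ℕ}

/-- The energy of a triple of edge functions. -/
def en (g0 g1 g2 u0 u1 u2 : W n) : ℝ :=
  ∑ x, ∑ y, ∑ z, g0 x y * g1 y z * g2 z x * (u0 x y + u1 y z + u2 z x) ^ 2

/-- Normalised nonnegative edge functions supported on `g`. -/
structure Feas (g u : W n) : Prop where
  nonneg : ∀ x y, 0 ≤ u x y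
  supp : ∀ x y, g x y = 0 → u x y = 0
  sum : ∀ y, ∑ x, u x y = 1

structure IsMinz (g0 g1 g2 u0 u1 u2 : W n) : Prop where
  f0 : Feas g0 u0
  f1 : Feas g1 u1
  f2 : Feas g2 u2
  le : ∀ v0 v1 v2, Feas g0 v0 → Feas g1 v1 → Feas g2 v2 →
    en g0 g1 g2 u0 u1 u2 ≤ en g0 g1 g2 v0 v1 v2

theorem en_rot (g0 g1 g2 u0 u1 u2 : W n) :
    en g1 g2 g0 u1 u2 u0 = en g0 g1 g2 u0 u1 u2 := by
  unfold en
  rw [Finset.sum_comm]
  have : ∀ z y : Fin n, ∑ x, g1 y z * g2 z x * g0 x y * (u1 y z + u2 z x + u0 x y) ^ 2 =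
      ∑ x, g0 x y * g1 y z * g2 z x * (u0 x y + u1 y z + u2 z x) ^ 2 := by
    intro z y
    refine Finset.sum_congr rfl fun x _ => by ring
  simp_rw [this]
  rw [Finset.sum_comm]
  have h2 : ∀ y : Fin n, ∑ z, ∑ x, g0 x y * g1 y z * g2 z x * (u0 x y + u1 y z + u2 z x) ^ 2 =
     ∑ x, ∑ z, g0 x y * g1 y z * g2 z x * (u0 x y + u1 y z + u2 z x) ^ 2 := fun y => Finset.sum_comm
  simp_rw [h2]
  rw [Finset.sum_comm]

theorem IsMinz.rot {g0 g1 g2 u0 u1 u2 : W n} (h : IsMinz g0 g1 g2 u0 u1 u2) :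
    IsMinz g1 g2 g0 u1 u2 u0 where
  f0 := h.f1
  f1 := h.f2
  f2 := h.f0
  le := by
    intro v1 v2 v0 h1 h2 h0
    rw [en_rot g0 g1 g2 u0 u1 u2, en_rot g0 g1 g2 v0 v1 v2]
    exact h.le v0 v1 v2 h0 h1 h2

theorem feas_compact (g : W n) : IsCompact {u : W n | Feas g u} := by
  refine IsCompact.of_isClosed_subset (isCompact_Icc (a := (0 : W n)) (b := 1)) ?_ ?_
  · have : {u : W n | Feas g u} =
        (⋂ x, ⋂ y, {u : W n | 0 ≤ u x y}) ∩ (⋂ x, ⋂ y, {u : W n | g x y = 0 → u x y = 0}) ∩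
        (⋂ y, {u : W n | ∑ x, u x y = 1}) := by
      ext u
      simp only [Set.mem_ofPred_eq, Set.mem_inter_iff, Set.mem_iInter]
      exact ⟨fun h => ⟨⟨h.nonneg, h.supp⟩, h.sum⟩, fun h => ⟨h.1.1, h.1.2, h.2⟩⟩
    rw [this]
    refine IsClosed.inter (IsClosed.inter ?_ ?_) ?_
    · refine isClosed_iInter fun x => isClosed_iInter fun y => ?_
      exact isClosed_le continuous_const (by fun_prop)
    · refine isClosed_iInter fun x => isClosed_iInter fun y => ?_
      by_cases hg : g x y = 0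
      · simp only [hg, true_implies]
        exact isClosed_eq (by fun_prop) continuous_const
      · simp only [hg, false_implies]
        exact isClosed_univ
    · refine isClosed_iInter fun y => ?_
      exact isClosed_eq (by fun_prop) continuous_const
  · intro u hu
    refine ⟨fun x y => hu.nonneg x y, fun x y => ?_⟩
    have := hu.sum y
    calc u x y ≤ ∑ x, u x y := Finset.single_le_sum (fun i _ => hu.nonneg i y) (Finset.mem_univ x)
      _ = 1 := this

theorem feas_nonempty (g : W n) (hg : ∀ x y, g x y = 0 ∨ g x y = 1)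
    (hpos : ∀ y, 0 < ∑ x, g x y) : ∃ u, Feas g u := by
  refine ⟨fun x y => g x y / ∑ a, g a y, ?_, ?_, ?_⟩
  · intro x y
    have := hpos y
    rcases hg x y with h | h <;> rw [h] <;> positivity
  · intro x y h
    simp [h]
  · intro y
    rw [← Finset.sum_div]
    exact div_self (hpos y).ne'

theorem exists_minz (g0 g1 g2 : W n) (h0 : ∀ x y, g0 x y = 0 ∨ g0 x y = 1)
    (h1 : ∀ x y, g1 x y = 0 ∨ g1 x y = 1) (h2 : ∀ x y, g2 x y = 0 ∨ g2 x y = 1)
    (p0 : ∀ y, 0 < ∑ x, g0 x y) (p1 : ∀ y, 0 < ∑ x, g1 x y) (p2 : ∀ y, 0 < ∑ x, g2 x y) :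
    ∃ u0 u1 u2, IsMinz g0 g1 g2 u0 u1 u2 := by
  obtain ⟨a0, ha0⟩ := feas_nonempty g0 h0 p0
  obtain ⟨a1, ha1⟩ := feas_nonempty g1 h1 p1
  obtain ⟨a2, ha2⟩ := feas_nonempty g2 h2 p2
  have hc : IsCompact ({u : W n | Feas g0 u} ×ˢ ({u : W n | Feas g1 u} ×ˢ {u : W n | Feas g2 u})) :=
    (feas_compact g0).prod ((feas_compact g1).prod (feas_compact g2))
  have hcont : Continuous (fun p : W n × (W n × W n) => en g0 g1 g2 p.1 p.2.1 p.2.2) := by
    unfold en
    fun_prop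
  obtain ⟨u, hu, hmin⟩ := hc.exists_isMinOn ⟨(a0, (a1, a2)), ⟨ha0, ha1, ha2⟩⟩ hcont.continuousOn
  refine ⟨u.1, u.2.1, u.2.2, hu.1, hu.2.1, hu.2.2, ?_⟩
  intro v0 v1 v2 hv0 hv1 hv2
  exact hmin (a := (v0, (v1, v2))) ⟨hv0, hv1, hv2⟩

/-- Weight collected by the pair `(x, y)` of the first kind. -/
def XX (g1 g2 u0 u1 u2 : W n) (x y : Fin n) : ℝ :=
  ∑ z, g1 y z * g2 z x * (u0 x y + u1 y z + u2 z x)

theorem kkt {g0 g1 g2 u0 u1 u2 : W n} (h : IsMinz g0 g1 g2 u0 u1 u2)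
    (hg0 : ∀ x y, g0 x y = 0 ∨ g0 x y = 1)
    (hg1 : ∀ x y, g1 x y = 0 ∨ g1 x y = 1) (hg2 : ∀ x y, g2 x y = 0 ∨ g2 x y = 1)
    {x x' y : Fin n} (hx : g0 x y = 1) (hx' : g0 x' y = 1) (hu : 0 < u0 x y) :
    XX g1 g2 u0 u1 u2 x y ≤ XX g1 g2 u0 u1 u2 x' y := by
  classical
  set d : W n := fun a b => (if a = x' ∧ b = y then 1 else 0) - (if a = x ∧ b = y then 1 else 0)
    with hd
  set Q : ℝ := ∑ a, ∑ b, ∑ c, g0 a b * g1 b c * g2 c a * (d a b) ^ 2 with hQ
  set Lin : ℝ := ∑ a, ∑ b, ∑ c, g0 a b * g1 b c * g2 c a * (d a b * (u0 a b + u1 b c + u2 c a))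
    with hL
  have hen : ∀ ε : ℝ, en g0 g1 g2 (fun a b => u0 a b + ε * d a b) u1 u2 =
      en g0 g1 g2 u0 u1 u2 + 2 * ε * Lin + ε ^ 2 * Q := by
    intro ε
    simp only [en, hL, hQ, Finset.mul_sum, ← Finset.sum_add_distrib]
    refine Finset.sum_congr rfl fun a _ => Finset.sum_congr rfl fun b _ =>
      Finset.sum_congr rfl fun c _ => by ring
  have hLin : Lin = XX g1 g2 u0 u1 u2 x' y - XX g1 g2 u0 u1 u2 x y := by
    have h1 : Lin = ∑ a, ∑ b, d a b * (g0 a b * XX g1 g2 u0 u1 u2 a b) := by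
      simp only [hL, XX, Finset.mul_sum]
      refine Finset.sum_congr rfl fun a _ => Finset.sum_congr rfl fun b _ =>
        Finset.sum_congr rfl fun c _ => by ring
    rw [h1]
    simp only [hd, sub_mul, ite_and, ite_mul, one_mul, zero_mul, Finset.sum_sub_distrib,
      Finset.sum_ite_eq', Finset.mem_univ, if_true]
    have : ∀ (t : Fin n), (∑ a, ∑ b, if a = t then (if b = y then
        g0 a b * XX g1 g2 u0 u1 u2 a b else 0) else 0) = g0 t y * XX g1 g2 u0 u1 u2 t y := by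
      intro t
      rw [Finset.sum_eq_single t]
      · rw [Finset.sum_eq_single y]
        · simp
        · intro b _ hb; simp [hb]
        · intro hy; exact absurd (Finset.mem_univ _) hy
      · intro a _ ha; simp [ha]
      · intro ht; exact absurd (Finset.mem_univ _) ht
    rw [this, this, hx, hx']
    ring
  have hQ0 : 0 ≤ Q := by
    refine Finset.sum_nonneg fun a _ => Finset.sum_nonneg fun b _ => Finset.sum_nonneg fun c _ => ?_
    have e0 : 0 ≤ g0 a b := by rcases hg0 a b with h | h <;> rw [h] <;> norm_num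
    have e1 : 0 ≤ g1 b c := by rcases hg1 b c with h | h <;> rw [h] <;> norm_num
    have e2 : 0 ≤ g2 c a := by rcases hg2 c a with h | h <;> rw [h] <;> norm_num
    positivity
  have hfe : ∀ ε : ℝ, 0 ≤ ε → ε ≤ u0 x y → Feas g0 (fun a b => u0 a b + ε * d a b) := by
    intro ε h0 h1
    refine ⟨?_, ?_, ?_⟩
    · intro a b
      have hab := h.f0.nonneg a b
      show 0 ≤ u0 a b + ε * ((if a = x' ∧ b = y then 1 else 0) - (if a = x ∧ b = y then 1 else 0))
      by_cases hA : a = x ∧ b = y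
      · have hab' : ε ≤ u0 a b := by rw [hA.1, hA.2]; exact h1
        rw [if_pos hA]
        split_ifs <;> linarith
      · rw [if_neg hA]
        split_ifs <;> linarith
    · intro a b hab
      simp only [hd]
      have hA : ¬ (a = x ∧ b = y) := by
        rintro ⟨rfl, rfl⟩; rw [hx] at hab; norm_num at hab
      have hB : ¬ (a = x' ∧ b = y) := by
        rintro ⟨rfl, rfl⟩; rw [hx'] at hab; norm_num at hab
      simp [hA, hB, h.f0.supp a b hab]
    · intro b
      rw [Finset.sum_add_distrib, h.f0.sum b, ← Finset.mul_sum]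
      have : ∑ a, d a b = 0 := by
        simp only [hd, Finset.sum_sub_distrib, ite_and]
        rw [Finset.sum_ite_eq', Finset.sum_ite_eq']
        simp
      rw [this]; ring
  have hkey : ∀ ε : ℝ, 0 < ε → ε ≤ u0 x y → 0 ≤ 2 * Lin + ε * Q := by
    intro ε h0 h1
    have h2 := h.le _ u1 u2 (hfe ε h0.le h1) h.f1 h.f2
    rw [hen ε] at h2
    have h3 : 0 ≤ ε * (2 * Lin + ε * Q) := by nlinarith
    exact nonneg_of_mul_nonneg_right h3 h0
  by_contra hcon
  push Not at hcon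
  have hneg : Lin < 0 := by rw [hLin]; linarith
  have hε : 0 < min (u0 x y) (-Lin / (Q + 1)) := by
    refine lt_min hu (div_pos (by linarith) (by linarith))
  have h4 := hkey _ hε (min_le_left _ _)
  have h5 : min (u0 x y) (-Lin / (Q + 1)) * Q ≤ -Lin := by
    calc min (u0 x y) (-Lin / (Q + 1)) * Q ≤ (-Lin / (Q + 1)) * Q :=
          mul_le_mul_of_nonneg_right (min_le_right _ _) hQ0
      _ = -Lin * (Q / (Q + 1)) := by ring
      _ ≤ -Lin * 1 := by
          refine mul_le_mul_of_nonneg_left ?_ (by linarith)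
          rw [div_le_one (by linarith)]; linarith
      _ = -Lin := by ring
  linarith

end Pool.Agent.Lib.MP_cb9986_co
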