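import Mathlib

set_option autoImplicit false

namespace Pool.Agent.Lib.MP_cb9986_co

theorem poly_ii (k m d : ℝ) (hk : 0 ≤ k) (hm : 0 ≤ m) (hkm : 0 < 5 * k + m) (hd0 : 0 ≤ d)
    (hd1 : d ≤ k ^ 2 / 2) :
    0 < k ^ 4 / 4 + 72 * k ^ 3 * m + 50 * k ^ 2 * m ^ 2 +
        12 * k * m ^ 3 + m ^ 4 + (19 * k ^ 2 - 2 * m ^ 2) * d + d ^ 2 := by
  have e2 : m ^ 2 * d ≤ m ^ 2 * (k ^ 2 / 2) := mul_le_mul_of_nonneg_left hd1 (sq_nonneg m)
  have e3 : 0 < k ^ 4 / 4 + m ^ 4 := by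
    rcases hk.eq_or_lt with h | h
    · have : 0 < m := by rw [← h] at hkm; linarith
      positivity
    · positivity
  have e4 : 0 ≤ 72 * k ^ 3 * m + 49 * k ^ 2 * m ^ 2 + 12 * k * m ^ 3 + 19 * k ^ 2 * d + d ^ 2 := by
    positivity
  linarith

theorem poly_i (k m d : ℝ) (hk : 0 ≤ k) (hm : 0 ≤ m) 
    (hd1 : d ≤ k ^ 2 / 2) :
    0 ≤ 12 * k ^ 3 + 105 / 2 * k ^ 2 * m + 24 * k * m ^ 2 +
        3 * m ^ 3 - (18 * k + 9 * m) * d := by
  have e2 : (18 * k + 9 * m) * d ≤ (18 * k + 9 * m) * (k ^ 2 / 2) :=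
    mul_le_mul_of_nonneg_left hd1 (by positivity)
  have e3 : 0 ≤ 3 * k ^ 3 + 48 * k ^ 2 * m + 24 * k * m ^ 2 + 3 * m ^ 3 := by positivity
  linarith

theorem poly_base (k A0 t t2 B M : ℝ) (hB0 : 0 ≤ B) (htpos : 0 < t)
    (hMpos : 0 < M) (hA0pos : 0 < A0)
    (ht : t ≤ t2 + B) (hii : 6 * k * t2 < M ^ 2) (hi : 6 * k * A0 ≤ 3 * t2) :
    (6 * k * t - M ^ 2) * A0 < 3 * t * B := by
  have h1 : t * (6 * k * A0 - 3 * B) < M ^ 2 * A0 := by
    by_cases hcase : 6 * k * A0 - 3 * B ≤ 0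
    · have h2 : t * (6 * k * A0 - 3 * B) ≤ 0 := mul_nonpos_of_nonneg_of_nonpos htpos.le hcase
      have h3 : 0 < M ^ 2 * A0 := by positivity
      linarith
    · push Not at hcase
      calc t * (6 * k * A0 - 3 * B) ≤ (t2 + B) * (6 * k * A0 - 3 * B) :=
            mul_le_mul_of_nonneg_right ht hcase.le
        _ = A0 * (6 * k * t2) + B * (6 * k * A0 - 3 * t2) - 3 * B ^ 2 := by ring
        _ ≤ A0 * (6 * k * t2) := by
            have : B * (6 * k * A0 - 3 * t2) ≤ 0 :=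
              mul_nonpos_of_nonneg_of_nonpos hB0 (by linarith)
            linarith [sq_nonneg B]
        _ < A0 * M ^ 2 := mul_lt_mul_of_pos_left hii hA0pos
        _ = M ^ 2 * A0 := by ring
  linarith

theorem poly_c (k n a t M : ℝ) (hk : 0 ≤ k) (h5 : 5 * k ≤ n) (ha0 : 0 < a)
    (ht' : M * (n - 2 * k) ≤ t) (hMge : n * a ≤ M) :
    25 / 2 * k ^ 2 * a ≤ 3 * t / 2 - 2 * k * M := by
  have hcge : M * (3 * n / 2 - 5 * k) ≤ 3 * t / 2 - 2 * k * M := by linarith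
  refine le_trans ?_ hcge
  have h1 : 5 / 2 * k ≤ 3 * n / 2 - 5 * k := by linarith
  have hn : 0 ≤ n := by linarith
  calc 25 / 2 * k ^ 2 * a = (5 * k * a) * (5 / 2 * k) := by ring
    _ ≤ (n * a) * (3 * n / 2 - 5 * k) := by
        refine mul_le_mul (mul_le_mul_of_nonneg_right h5 ha0.le) h1 (by positivity) (by positivity)
    _ ≤ M * (3 * n / 2 - 5 * k) := mul_le_mul_of_nonneg_right hMge (by linarith)

theorem poly_e (k a e c s0 : ℝ) (hk : 0 ≤ k) (ha : 4 * k ≤ a) (he : 0 ≤ e)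
    (hc1 : 25 / 2 * k ^ 2 * a ≤ c) (hs : c * e ≤ s0) (hs0k : s0 ≤ 6 * k ^ 4) (hs00 : 0 ≤ s0) :
    e * s0 ≤ k * s0 := by
  rcases hs00.eq_or_lt with h | h
  · rw [← h]; simp
  · have hkpos : 0 < k := by
      rcases hk.eq_or_lt with h' | h'
      · rw [← h'] at hs0k; norm_num at hs0k; linarith
      · exact h'
    have h1 : 25 / 2 * k ^ 2 * a * e ≤ c * e := mul_le_mul_of_nonneg_right hc1 he
    have h2 : 25 / 2 * k ^ 2 * (4 * k) * e ≤ 25 / 2 * k ^ 2 * a * e :=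
      mul_le_mul_of_nonneg_right (mul_le_mul_of_nonneg_left ha (by positivity)) he
    have h3 : k ^ 3 * (50 * e) ≤ k ^ 3 * (6 * k) := by linarith
    have h4 : 50 * e ≤ 6 * k := le_of_mul_le_mul_left h3 (by positivity)
    exact mul_le_mul_of_nonneg_right (by linarith) h.le

theorem poly_fin (k a e c s0 A0 : ℝ) (hk : 0 ≤ k) (ha : 4 * k ≤ a) (ha0 : 0 < a)
    (hc1 : 25 / 2 * k ^ 2 * a ≤ c) (hc0 : 0 ≤ c) (hs0k : s0 ≤ 6 * k ^ 4) 
    (hA0 : 2 * a ^ 2 ≤ A0) (hes : e * s0 ≤ k * s0) :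
    s0 * (3 * a + e) ≤ c * A0 := by
  have h1 : s0 * (3 * a + e) ≤ s0 * (3 * a + k) := by linarith
  have h2 : s0 * (3 * a + k) ≤ 6 * k ^ 4 * (3 * a + k) :=
    mul_le_mul_of_nonneg_right hs0k (by positivity)
  have h3 : 6 * k ^ 4 * (3 * a + k) ≤ 6 * k ^ 4 * (4 * a) :=
    mul_le_mul_of_nonneg_left (by linarith) (by positivity)
  have h4 : 25 / 2 * k ^ 2 * a * (2 * a ^ 2) ≤ c * A0 := by
    refine mul_le_mul hc1 hA0 (by positivity) hc0
  have h5 : 6 * k ^ 4 * (4 * a) ≤ 25 / 2 * k ^ 2 * a * (2 * a ^ 2) := by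
    have h6 : k ^ 2 ≤ a ^ 2 := pow_le_pow_left₀ hk (by linarith) 2
    have h7 : k ^ 2 * a * (24 * k ^ 2) ≤ k ^ 2 * a * (25 * a ^ 2) :=
      mul_le_mul_of_nonneg_left (by linarith [sq_nonneg a]) (by positivity)
    linarith
  linarith

/-- Polynomial inequality behind the constant `1/5`. -/
theorem poly (k n D t B e τ M : ℝ) (hk : 0 ≤ k) (hn : 0 < n) (h5 : 5 * k ≤ n) (hD0 : 0 ≤ D)
    (hD : 2 * D ≤ k ^ 2) (hB0 : 0 ≤ B) (hB : B ≤ 2 * k * D) (he : 0 ≤ e)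
    (hM : M = n ^ 2 - k * n + D)
    (ht : t ≤ n ^ 3 - 3 * k * n ^ 2 + 3 * k ^ 2 * n + (3 * n - 5 * k) * D + B)
    (ht' : M * (n - 2 * k) ≤ t) (hτ : M ^ 2 ≤ τ * (3 * t + e * M)) :
    (2 * k - e / 2 - τ) * ((n - k + e) * (2 * (n - k) + e) + 2 * D) < B := by
  obtain ⟨m, hm⟩ : ∃ m, n = 5 * k + m := ⟨n - 5 * k, by ring⟩
  have hm0 : 0 ≤ m := by linarith
  obtain ⟨d, hd⟩ : ∃ d, D = k ^ 2 / 2 - d := ⟨k ^ 2 / 2 - D, by ring⟩
  have hd0 : 0 ≤ d := by linarith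
  have hd1 : d ≤ k ^ 2 / 2 := by linarith
  obtain ⟨a, hadef⟩ : ∃ a, a = n - k := ⟨n - k, rfl⟩
  have ha : 4 * k ≤ a := by linarith
  have ha0 : 0 < a := by linarith
  have hMge : n * a ≤ M := by rw [hM, hadef]; linarith
  have hMpos : 0 < M := lt_of_lt_of_le (mul_pos hn ha0) hMge
  have htpos : 0 < t := lt_of_lt_of_le (mul_pos hMpos (by linarith)) ht'
  obtain ⟨A0, hA0⟩ : ∃ A0, A0 = 2 * a ^ 2 + 2 * D := ⟨_, rfl⟩
  have hA0pos : 0 < A0 := by rw [hA0]; positivity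
  have hA : (n - k + e) * (2 * (n - k) + e) + 2 * D = A0 + e * (3 * a + e) := by
    rw [hA0, hadef]; ring
  rw [hA]
  have hApos : 0 < A0 + e * (3 * a + e) := by positivity
  obtain ⟨η, hη⟩ : ∃ η, η = 2 * k - e / 2 - τ := ⟨_, rfl⟩
  rw [← hη]
  by_cases hneg : η < 0
  · have := mul_neg_of_neg_of_pos hneg hApos
    linarith
  push Not at hneg
  obtain ⟨s0, hs0⟩ : ∃ s0, s0 = 6 * k * t - M ^ 2 := ⟨_, rfl⟩
  obtain ⟨c, hc⟩ : ∃ c, c = 3 * t / 2 - 2 * k * M := ⟨_, rfl⟩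
  have hs : η * (3 * t + e * M) ≤ s0 - c * e - e ^ 2 * M / 2 := by
    rw [hη, hs0, hc]
    have : (2 * k - e / 2 - τ) * (3 * t + e * M) =
        6 * k * t + 2 * k * M * e - 3 * t / 2 * e - e ^ 2 * M / 2 - τ * (3 * t + e * M) := by ring
    rw [this]
    linarith
  have hprod : 0 ≤ η * (e * M) := by positivity
  have heM : 0 ≤ e ^ 2 * M / 2 := by positivity
  have hs1 : 3 * t * η ≤ s0 - c * e := by
    have : η * (3 * t + e * M) = 3 * t * η + η * (e * M) := by ring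
    linarith
  have h3tη : 0 ≤ 3 * t * η := by positivity
  have hc1 : 25 / 2 * k ^ 2 * a ≤ c := by
    rw [hc]; exact poly_c k n a t M hk h5 ha0 ht' hMge
  have hc0 : 0 ≤ c := le_trans (by positivity) hc1
  have hce : 0 ≤ c * e := mul_nonneg hc0 he
  have hs00 : 0 ≤ s0 := by linarith
  -- (ii)
  obtain ⟨t2, ht2⟩ : ∃ t2, t2 = n ^ 3 - 3 * k * n ^ 2 + 3 * k ^ 2 * n + (3 * n - 5 * k) * D :=
    ⟨_, rfl⟩
  have htt2 : t ≤ t2 + B := by rw [ht2]; exact ht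
  have hii : 6 * k * t2 < M ^ 2 := by
    have e1 : M ^ 2 - 6 * k * t2 = k ^ 4 / 4 + 72 * k ^ 3 * m + 50 * k ^ 2 * m ^ 2 +
        12 * k * m ^ 3 + m ^ 4 + (19 * k ^ 2 - 2 * m ^ 2) * d + d ^ 2 := by
      rw [hM, ht2, hd, hm]; ring
    have := poly_ii k m d hk hm0 (by linarith) hd0 hd1
    linarith
  have hi : 6 * k * A0 ≤ 3 * t2 := by
    have e1 : 3 * t2 - 6 * k * A0 = 12 * k ^ 3 + 105 / 2 * k ^ 2 * m + 24 * k * m ^ 2 +
        3 * m ^ 3 - (18 * k + 9 * m) * d := by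
      rw [ht2, hA0, hd, hadef, hm]; ring
    have := poly_i k m d hk hm0 hd1
    linarith
  have hbase : s0 * A0 < 3 * t * B := by
    rw [hs0]; exact poly_base k A0 t t2 B M hB0 htpos hMpos hA0pos htt2 hii hi
  have hs0k : s0 ≤ 6 * k ^ 4 := by
    have h1 : 6 * k * t ≤ 6 * k * (t2 + B) := mul_le_mul_of_nonneg_left htt2 (by positivity)
    have h2 : k * (2 * D) ≤ k * k ^ 2 := mul_le_mul_of_nonneg_left hD hk
    have h3 : 6 * k * B ≤ 6 * k * k ^ 3 := mul_le_mul_of_nonneg_left (by linarith) (by positivity)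
    rw [hs0]; linarith
  have hek : e * s0 ≤ k * s0 := poly_e k a e c s0 hk ha he hc1 (by linarith) hs0k hs00
  have hfin : s0 * (3 * a + e) ≤ c * A0 :=
    poly_fin k a e c s0 A0 hk ha ha0 hc1 hc0 hs0k (by rw [hA0]; linarith) hek
  have h3t : 3 * t * (η * (A0 + e * (3 * a + e))) < 3 * t * B := by
    calc 3 * t * (η * (A0 + e * (3 * a + e))) = (3 * t * η) * (A0 + e * (3 * a + e)) := by
          ring
      _ ≤ (s0 - c * e) * (A0 + e * (3 * a + e)) :=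
          mul_le_mul_of_nonneg_right hs1 hApos.le
      _ = s0 * A0 - e * (c * A0 - s0 * (3 * a + e)) - c * e ^ 2 * (3 * a + e) := by ring
      _ ≤ s0 * A0 := by
          have h1 : 0 ≤ e * (c * A0 - s0 * (3 * a + e)) := mul_nonneg he (by linarith)
          have h2 : 0 ≤ c * e ^ 2 * (3 * a + e) := by positivity
          linarith
      _ < 3 * t * B := hbase
  exact lt_of_mul_lt_mul_left h3t (by positivity)

end Pool.Agent.Lib.MP_cb9986_co
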