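import Pool.Agent.Lib.MP_cb9986_co.Energy
import Pool.Agent.Lib.MP_cb9986_co.Poly

set_option autoImplicit false
open Finset

namespace Pool.Agent.Lib.MP_cb9986_co

variable {n : ℕ}

/-- total deficit -/
noncomputable def DD (k : ℝ) (g : W n) : ℝ := ∑ x, dl k g x

/-- sum of squared deficits -/
noncomputable def SS (k : ℝ) (g : W n) : ℝ := ∑ x, dl k g x ^ 2

theorem mm_eq (k : ℝ) (g : W n) : mm g = n ^ 2 - k * n + DD k g := by
  unfold mm DD dl
  rw [Finset.sum_add_distrib]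
  simp
  ring

theorem DD_rot {g0 g1 g2 : W n} {k : ℝ} (H : Hyp k g0 g1 g2) : DD k g1 = DD k g0 := by
  have h1 := mm_eq k g0
  have h2 := mm_eq k g1
  rw [mm_rot H] at h2
  linarith

theorem SS_nonneg (k : ℝ) (g : W n) : 0 ≤ SS k g :=
  Finset.sum_nonneg fun _ _ => sq_nonneg _

theorem DD_nonneg {g0 g1 g2 : W n} {k : ℝ} (H : Hyp k g0 g1 g2) : 0 ≤ DD k g0 :=
  Finset.sum_nonneg fun x _ => dl_nonneg H x

theorem SS_le {g0 g1 g2 : W n} {k : ℝ} (H : Hyp k g0 g1 g2) : SS k g0 ≤ k * DD k g0 := by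
  unfold SS DD
  rw [Finset.mul_sum]
  refine Finset.sum_le_sum fun x _ => ?_
  have h1 := dl_nonneg H x
  have h2 := dl_le H x
  nlinarith

theorem tt_ge {g0 g1 g2 : W n} {k : ℝ} (H : Hyp k g0 g1 g2) :
    mm g0 * (n - 2 * k) ≤ tt g0 g1 g2 := by
  unfold mm tt
  rw [Finset.sum_mul]
  refine Finset.sum_le_sum fun x _ => ?_
  rw [Finset.sum_mul]
  refine Finset.sum_le_sum fun y _ => ?_
  have h1 : ∑ z, g0 x y * g1 y z * g2 z x = g0 x y * NN g1 g2 x y := by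
    unfold NN
    rw [Finset.mul_sum]
    refine Finset.sum_congr rfl fun z _ => by ring
  rw [h1]
  exact mul_le_mul_of_nonneg_left (NN_ge H x y) (zo_nonneg (H.z0 x y))

theorem deg_sq {k : ℝ} (g : W n) :
    ∑ x, (∑ y, g x y) ^ 2 = n * (n - k) ^ 2 + 2 * (n - k) * DD k g + SS k g := by
  have h1 : ∀ x, (∑ y, g x y) ^ 2 = (n - k) ^ 2 + 2 * (n - k) * dl k g x + dl k g x ^ 2 := by
    intro x; unfold dl; ring
  simp_rw [h1]
  rw [Finset.sum_add_distrib, Finset.sum_add_distrib, ← Finset.mul_sum]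
  simp only [Finset.sum_const, Finset.card_univ, Fintype.card_fin, nsmul_eq_mul]
  rfl

theorem tt_le {g0 g1 g2 : W n} {k : ℝ} (H : Hyp k g0 g1 g2) :
    tt g0 g1 g2 ≤ (n : ℝ) ^ 3 - 3 * k * n ^ 2 + 3 * k ^ 2 * n + (3 * n - 6 * k) * DD k g0 +
      (SS k g0 + SS k g1 + SS k g2) := by
  have h1 : tt g0 g1 g2 ≤ ∑ x, ∑ y, ∑ z, (1 - (g0 x y + g1 y z + g2 z x) +
      (g0 x y * g1 y z + g1 y z * g2 z x + g2 z x * g0 x y)) := by
    unfold tt
    refine Finset.sum_le_sum fun x _ => Finset.sum_le_sum fun y _ => Finset.sum_le_sum fun z _ => ?_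
    rcases H.z0 x y with h | h <;> rcases H.z1 y z with h' | h' <;>
      rcases H.z2 z x with h'' | h'' <;> rw [h, h', h''] <;> norm_num
  refine h1.trans (le_of_eq ?_)
  -- the products
  have p1 : ∑ x, ∑ y, ∑ z, g0 x y * g1 y z = ∑ y, (∑ z, g1 y z) ^ 2 := by
    rw [Finset.sum_comm]
    refine Finset.sum_congr rfl fun y _ => ?_
    rw [sq]
    nth_rewrite 1 [← H.b1 y]
    rw [Finset.sum_mul]
    refine Finset.sum_congr rfl fun x _ => ?_
    rw [Finset.mul_sum]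
  have p2 : ∑ x : Fin n, ∑ y, ∑ z, g1 y z * g2 z x = ∑ z, (∑ x, g2 z x) ^ 2 := by
    rw [← sum3_rot, Finset.sum_comm]
    refine Finset.sum_congr rfl fun z _ => ?_
    rw [sq]
    nth_rewrite 1 [← H.b2 z]
    rw [Finset.sum_mul]
    refine Finset.sum_congr rfl fun x _ => ?_
    rw [Finset.mul_sum]
  have p3 : ∑ x, ∑ y, ∑ z, g2 z x * g0 x y = ∑ x, (∑ y, g0 x y) ^ 2 := by
    refine Finset.sum_congr rfl fun x _ => ?_
    rw [Finset.sum_comm, sq]
    nth_rewrite 1 [← H.b0 x]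
    rw [Finset.sum_mul]
    refine Finset.sum_congr rfl fun z _ => ?_
    rw [Finset.mul_sum]
  have q1 : ∑ x, ∑ y, ∑ _z : Fin n, g0 x y = n * mm g0 := by
    unfold mm
    rw [Finset.mul_sum]
    refine Finset.sum_congr rfl fun x _ => ?_
    rw [Finset.mul_sum]
    refine Finset.sum_congr rfl fun y _ => by simp
  have q2 : ∑ _x : Fin n, ∑ y, ∑ z, g1 y z = n * mm g0 := by
    rw [← mm_rot H]
    unfold mm
    simp
  have q3 : ∑ x, ∑ _y : Fin n, ∑ z, g2 z x = n * mm g0 := by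
    rw [← mm_rot H, ← mm_rot H.rot]
    unfold mm
    rw [Finset.sum_comm (f := fun x y => g2 x y), Finset.mul_sum]
    refine Finset.sum_congr rfl fun x _ => by simp
  simp only [Finset.sum_add_distrib, Finset.sum_sub_distrib]
  rw [p1, p2, p3, q1, q2, q3, deg_sq (k := k) g0, deg_sq (k := k) g1, deg_sq (k := k) g2,
    DD_rot H.rot, DD_rot H, mm_eq k g0]
  simp
  ring

theorem P2' {g0 g1 g2 u0 u1 u2 : W n} {k e : ℝ} (H : Hyp k g0 g1 g2)
    (S : Sol e g0 g1 g2 u0 u1 u2) (h0 : ∀ x y, 0 ≤ u0 x y) (h1 : ∀ x y, 0 ≤ u1 x y)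
    (h2 : ∀ x y, 0 ≤ u2 x y) (l0 : ∀ x, 0 ≤ lam u0 x) (l1 : ∀ x, 0 ≤ lam u1 x)
    (l2 : ∀ x, 0 ≤ lam u2 x) (y : Fin n) :
    dl k g1 y - (2 * k - e / 2 - tau u0) ≤ (2 * (n - k) + e) * lam u1 y := by
  have h := P2 H S h0 h1 h2 y
  have a1 : 0 ≤ ∑ x, dl k g0 x * u0 x y :=
    Finset.sum_nonneg fun x _ => mul_nonneg (dl_nonneg H x) (h0 x y)
  have a2 : 0 ≤ ∑ x, (1 - g0 x y) * lam u0 x :=
    Finset.sum_nonneg fun x _ => mul_nonneg (by linarith [zo_le (H.z0 x y)]) (l0 x)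
  have a3 : 0 ≤ ∑ z, dl k g2 z * u1 y z :=
    Finset.sum_nonneg fun z _ => mul_nonneg (dl_nonneg H.rot.rot z) (h1 y z)
  have a4 : 0 ≤ ∑ z, (1 - g1 y z) * lam u2 z :=
    Finset.sum_nonneg fun z _ => mul_nonneg (by linarith [zo_le (H.z1 y z)]) (l2 z)
  have a5 : (2 * (n - 2 * k + dl k g1 y) + e) * lam u1 y ≤ (2 * (n - k) + e) * lam u1 y :=
    mul_le_mul_of_nonneg_right (by linarith [dl_le H.rot y]) (l1 y)
  linarith

/-- lower bound for the gains at one side -/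
theorem gain {g0 g1 u0 : W n} {k e η P Q : ℝ} (l0 : Fin n → ℝ) (d0 : Fin n → ℝ) (y : Fin n)
    (hg : ∀ x, g0 x y = 0 ∨ g0 x y = 1)
    (hd0 : ∀ x, 0 ≤ d0 x) (hdP : ∀ x, d0 x ≤ P) (hP : 0 < P) (hQ : 0 < Q)
    (hl : ∀ x, 0 ≤ l0 x) (hlive : ∀ x, g0 x y = 1 → l0 x ≤ P * u0 x y)
    (hu0 : ∀ x, 0 ≤ u0 x y)
    (hlow : ∀ x, d0 x - η ≤ Q * l0 x) :
    ∑ x, d0 x ^ 2 - η * ∑ x, d0 x ≤
      Q * (P * (∑ x, d0 x * u0 x y + ∑ x, (1 - g0 x y) * l0 x)) := by
  rw [← Finset.sum_add_distrib, Finset.mul_sum, Finset.mul_sum, Finset.mul_sum,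
    ← Finset.sum_sub_distrib]
  refine Finset.sum_le_sum fun x _ => ?_
  have h1 : d0 x * l0 x ≤ P * (d0 x * u0 x y + (1 - g0 x y) * l0 x) := by
    rcases hg x with h | h
    · rw [h]
      have h2 : d0 x * l0 x ≤ P * l0 x := mul_le_mul_of_nonneg_right (hdP x) (hl x)
      have h3 : 0 ≤ P * (d0 x * u0 x y) := mul_nonneg hP.le (mul_nonneg (hd0 x) (hu0 x))
      linarith
    · rw [h]
      have h2 : d0 x * l0 x ≤ d0 x * (P * u0 x y) :=
        mul_le_mul_of_nonneg_left (hlive x h) (hd0 x)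
      linarith
  have h2 : Q * (d0 x * l0 x) ≤ Q * (P * (d0 x * u0 x y + (1 - g0 x y) * l0 x)) :=
    mul_le_mul_of_nonneg_left h1 hQ.le
  have h3 : d0 x * (d0 x - η) ≤ d0 x * (Q * l0 x) := mul_le_mul_of_nonneg_left (hlow x) (hd0 x)
  linarith

theorem lam1_pos {g0 g1 g2 u0 u1 u2 : W n} {k e : ℝ} (H : Hyp k g0 g1 g2) (hk0 : 0 ≤ k)
    (h5 : 5 * k ≤ n) (hn : 0 < n) (he : 0 ≤ e) (hD : 2 * DD k g0 ≤ k ^ 2)
    (S : Sol e g0 g1 g2 u0 u1 u2) (l0 : ∀ x, 0 ≤ lam u0 x) (l1 : ∀ x, 0 ≤ lam u1 x)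
    (l2 : ∀ x, 0 ≤ lam u2 x) (y : Fin n) : 0 < lam u1 y := by
  have hnR : (0 : ℝ) < n := by exact_mod_cast hn
  obtain ⟨h0, h1, h2⟩ := u_nonneg H he (by linarith) hn S l0 l1 l2
  have hτ0 : 0 ≤ tau u0 := Finset.sum_nonneg fun x _ => Finset.sum_nonneg fun y _ => h0 x y
  obtain ⟨η, hη⟩ : ∃ η, η = 2 * k - e / 2 - tau u0 := ⟨_, rfl⟩
  have low1 : ∀ y, dl k g1 y - η ≤ (2 * (n - k) + e) * lam u1 y := fun y => by
    rw [hη]; exact P2' H S h0 h1 h2 l0 l1 l2 y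
  have low2 : ∀ y, dl k g2 y - η ≤ (2 * (n - k) + e) * lam u2 y := fun y => by
    rw [hη, ← tau_eq S]; exact P2' H.rot S.rot h1 h2 h0 l1 l2 l0 y
  have low0 : ∀ y, dl k g0 y - η ≤ (2 * (n - k) + e) * lam u0 y := fun y => by
    rw [hη, ← tau_eq S, ← tau_eq S.rot]
    exact P2' H.rot.rot S.rot.rot h2 h0 h1 l2 l0 l1 y
  set P : ℝ := n - k + dl k g1 y + e with hP
  set Q : ℝ := 2 * (n - k) + e with hQ
  have hd1 := dl_nonneg H.rot y
  have hd1' := dl_le H.rot y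
  have hPpos : 0 < P := by rw [hP]; linarith
  have hQpos : 0 < Q := by rw [hQ]; linarith
  have hdeg : ∑ z, g1 y z = n - k + dl k g1 y := by unfold dl; ring
  have hF0 : ∀ x, 0 ≤ FF g1 g2 u1 u2 x y := fun x => by
    unfold FF
    refine add_nonneg (Finset.sum_nonneg fun z _ => ?_) (Finset.sum_nonneg fun z _ => ?_)
    · exact mul_nonneg (by linarith [zo_le (H.z2 z x)]) (h1 y z)
    · exact mul_nonneg (by linarith [zo_le (H.z1 y z)]) (h2 z x)
  have hF1 : ∀ z, 0 ≤ FF g2 g0 u2 u0 y z := fun z => by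
    unfold FF
    refine add_nonneg (Finset.sum_nonneg fun x _ => ?_) (Finset.sum_nonneg fun x _ => ?_)
    · exact mul_nonneg (by linarith [zo_le (H.z0 x y)]) (h2 z x)
    · exact mul_nonneg (by linarith [zo_le (H.z2 z x)]) (h0 x y)
  have gain0 := gain (g1 := g1) (k := k) (e := e) (η := η) (P := P) (Q := Q) (g0 := g0) (u0 := u0)
    (lam u0) (dl k g0) y (fun x => H.z0 x y) (dl_nonneg H)
    (fun x => by have := dl_le H x; rw [hP]; linarith) hPpos hQpos l0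
    (fun x hx => by
      have e1 := edge H S hx
      have e2 := NN_le H x y
      have e3 : (NN g1 g2 x y + e) * u0 x y ≤ P * u0 x y :=
        mul_le_mul_of_nonneg_right (by rw [hP, ← hdeg]; linarith) (h0 x y)
      linarith [l1 y, hF0 x]) (fun x => h0 x y) low0
  have gain2 := gain (g1 := g0) (k := k) (e := e) (η := η) (P := P) (Q := Q)
    (g0 := fun z y => g1 y z) (u0 := fun z y => u1 y z)
    (lam u2) (dl k g2) y (fun z => H.z1 y z) (dl_nonneg H.rot.rot)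
    (fun z => by have := dl_le H.rot.rot z; rw [hP]; linarith) hPpos hQpos l2
    (fun z hz => by
      have e1 := edge H.rot S.rot hz
      have e2 : NN g2 g0 y z ≤ n - k + dl k g1 y := by
        rw [← hdeg, ← H.b1 y]
        refine Finset.sum_le_sum fun x _ => ?_
        rcases H.z2 z x with h | h <;> rcases H.z0 x y with h' | h' <;> rw [h, h'] <;> norm_num
      have e3 : (NN g2 g0 y z + e) * u1 y z ≤ P * u1 y z :=
        mul_le_mul_of_nonneg_right (by rw [hP]; linarith) (h1 y z)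
      show lam u2 z ≤ P * u1 y z
      linarith [l1 y, hF1 z]) (fun z => h1 y z) low2
  have hmain := P2 H S h0 h1 h2 y
  have hpoly := poly k n (DD k g0) (tt g0 g1 g2) (SS k g0 + SS k g2) e (tau u0) (mm g0) hk0 hnR h5
    (DD_nonneg H) hD (add_nonneg (SS_nonneg _ _) (SS_nonneg _ _))
    (by
      have a := SS_le H
      have b := SS_le H.rot.rot
      rw [DD_rot H.rot, DD_rot H] at b
      linarith) he (mm_eq k g0)
    (by
      have a := tt_le H
      have b := SS_le H.rot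
      rw [DD_rot H] at b
      linarith) (tt_ge H)
    (by
      refine P3 H he S ?_
      have a := tt_ge H
      have b := mm_eq k g0
      have c := DD_nonneg H
      have d : 0 < mm g0 := by
        rw [b]
        have : 0 < (n : ℝ) * (n - k) := mul_pos hnR (by linarith)
        nlinarith
      have f : 0 < mm g0 * (n - 2 * k) := mul_pos d (by linarith)
      have g : 0 ≤ e * mm g0 := mul_nonneg he d.le
      linarith)
  rw [← hη] at hpoly
  have hη2 : η ≤ 2 * k := by rw [hη]; linarith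
  -- combine
  have hDD0 : ∑ x, dl k g0 x = DD k g0 := rfl
  have hDD2 : ∑ x, dl k g2 x = DD k g0 := by
    rw [← DD_rot H, ← DD_rot H.rot]; rfl
  rw [hDD0] at gain0
  rw [hDD2] at gain2
  have hSS0 : ∑ x, dl k g0 x ^ 2 = SS k g0 := rfl
  have hSS2 : ∑ x, dl k g2 x ^ 2 = SS k g2 := rfl
  rw [hSS0] at gain0
  rw [hSS2] at gain2
  set X0 := ∑ x, dl k g0 x * u0 x y + ∑ x, (1 - g0 x y) * lam u0 x with hX0
  set X2 := ∑ z, dl k g2 z * u1 y z + ∑ z, (1 - g1 y z) * lam u2 z with hX2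
  have hmain2 : dl k g1 y - η + X0 + X2 ≤ (2 * (n - 2 * k + dl k g1 y) + e) * lam u1 y := by
    rw [hη]; linarith
  have hδ : -η * ((n - k + e) * Q) ≤ Q * (P * (dl k g1 y - η)) := by
    have e1 : Q * (P * (dl k g1 y - η)) - -η * ((n - k + e) * Q) =
        Q * (dl k g1 y * (n - k + e + dl k g1 y - η)) := by
      rw [hP]; ring
    have e2 : 0 ≤ Q * (dl k g1 y * (n - k + e + dl k g1 y - η)) :=
      mul_nonneg hQpos.le (mul_nonneg hd1 (by linarith))
    linarith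
  have hcomb : 0 < Q * (P * (dl k g1 y - η + X0 + X2)) := by
    have e1 : Q * (P * (dl k g1 y - η + X0 + X2)) =
        Q * (P * (dl k g1 y - η)) + Q * (P * X0) + Q * (P * X2) := by ring
    rw [e1]
    have e2 : η * ((n - k + e) * (2 * (n - k) + e) + 2 * DD k g0) =
        η * ((n - k + e) * Q) + 2 * (η * DD k g0) := by rw [hQ]; ring
    rw [e2] at hpoly
    linarith
  have hpos2 : 0 < dl k g1 y - η + X0 + X2 := by
    by_contra hcon
    push Not at hcon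
    have : Q * (P * (dl k g1 y - η + X0 + X2)) ≤ 0 :=
      mul_nonpos_of_nonneg_of_nonpos hQpos.le (mul_nonpos_of_nonneg_of_nonpos hPpos.le hcon)
    linarith
  by_contra hcon
  push Not at hcon
  have : (2 * (n - 2 * k + dl k g1 y) + e) * lam u1 y ≤ 0 :=
    mul_nonpos_of_nonneg_of_nonpos (by linarith) hcon
  linarith

end Pool.Agent.Lib.MP_cb9986_co
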