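import Pool.Agent.Lib.MP_cb9986_co.Pls

set_option autoImplicit false
open Finset

namespace Pool.Agent.Lib.MP_cb9986_co

variable {n : ℕ}

/-- A `ℚ`-linear functional on the `ℚ`-span of finitely many reals which keeps signs. -/
theorem exists_functional (S : Finset ℝ) :
    ∃ φ : (Submodule.span ℚ (S : Set ℝ)) →ₗ[ℚ] ℚ,
      ∀ v (hv : v ∈ S), 0 < v → 0 < φ ⟨v, Submodule.subset_span hv⟩ := by
  classical
  set V := Submodule.span ℚ (S : Set ℝ) with hV
  haveI : Module.Finite ℚ V := Module.Finite.span_of_finite ℚ S.finite_toSet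
  let b := Module.finBasis ℚ V
  let d := Module.finrank ℚ V
  let ev : ℝ → (Fin d → ℝ) → ℝ := fun v q =>
    if hv : v ∈ S then ∑ j, ((b.repr ⟨v, Submodule.subset_span hv⟩ j : ℚ) : ℝ) * q j else 1
  have hopen : IsOpen {q : Fin d → ℝ | ∀ v ∈ S, 0 < v → 0 < ev v q} := by
    have : {q : Fin d → ℝ | ∀ v ∈ S, 0 < v → 0 < ev v q} =
        ⋂ v ∈ S, {q : Fin d → ℝ | 0 < v → 0 < ev v q} := by
      ext q; simp
    rw [this]
    refine isOpen_biInter_finset fun v hv => ?_
    by_cases h0 : 0 < v
    · simp only [h0, true_implies]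
      refine isOpen_lt continuous_const ?_
      simp only [ev, hv, dif_pos]
      fun_prop
    · simp only [h0, false_implies]
      exact isOpen_univ
  have hne : ({q : Fin d → ℝ | ∀ v ∈ S, 0 < v → 0 < ev v q}).Nonempty := by
    refine ⟨fun j => ((b j : V) : ℝ), ?_⟩
    intro v hv h0
    simp only [ev, hv, dif_pos]
    have h1 : ∑ j, (b.repr ⟨v, Submodule.subset_span hv⟩ j) • (b j) =
        (⟨v, Submodule.subset_span hv⟩ : V) := b.sum_repr _
    have h2 := congrArg (Subtype.val : V → ℝ) h1
    rw [AddSubmonoidClass.coe_finsetSum] at h2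
    simp only [Submodule.coe_smul, Rat.smul_def] at h2
    rw [h2]
    exact h0
  have hdense : DenseRange (Pi.map (fun (_ : Fin d) (q : ℚ) => (q : ℝ))) :=
    DenseRange.piMap fun _ => Rat.denseRange_cast
  obtain ⟨q, hq⟩ := hdense.exists_mem_open hopen hne
  refine ⟨b.constr ℚ q, ?_⟩
  intro v hv h0
  have h3 := hq v hv h0
  simp only [ev, hv, dif_pos, Pi.map_apply] at h3
  rw [Module.Basis.constr_apply_fintype]
  simp only [Module.Basis.equivFun_apply, smul_eq_mul]
  exact_mod_cast h3

/-- A real fractional completion can be replaced by a rational one. -/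
theorem rat_of_real {L : Fin n → Fin n → Option (Fin n)} {x : Fin n → Fin n → Fin n → ℝ}
    (hx : IsFracCompletion L x) : ∃ y : Fin n → Fin n → Fin n → ℚ, IsFracCompletion L y := by
  classical
  set S : Finset ℝ := insert 1 (Finset.univ.image fun p : Fin n × Fin n × Fin n =>
    x p.1 p.2.1 p.2.2) with hS
  obtain ⟨φ, hφ⟩ := exists_functional S
  have h1 : (1 : ℝ) ∈ S := by simp [hS]
  have hxS : ∀ r c s, x r c s ∈ S := by
    intro r c s
    rw [hS]
    exact Finset.mem_insert_of_mem (Finset.mem_image.2 ⟨(r, c, s), Finset.mem_univ _, rfl⟩)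
  set e : Submodule.span ℚ (S : Set ℝ) := ⟨1, Submodule.subset_span h1⟩ with he
  set X : Fin n → Fin n → Fin n → Submodule.span ℚ (S : Set ℝ) := fun r c s =>
    ⟨x r c s, Submodule.subset_span (hxS r c s)⟩ with hX
  have hpos : 0 < φ e := hφ 1 h1 one_pos
  have hsum : ∀ (f : Fin n → Submodule.span ℚ (S : Set ℝ)), ∑ i, ((f i : ℝ)) = 1 →
      ∑ i, φ (f i) / φ e = 1 := by
    intro f hf
    rw [← Finset.sum_div, ← map_sum, div_eq_one_iff_eq hpos.ne']
    congr 1
    apply Subtype.ext
    rw [AddSubmonoidClass.coe_finsetSum, hf]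
  refine ⟨fun r c s => φ (X r c s) / φ e, ?_, ?_, ?_, ?_, ?_⟩
  · intro r c s
    refine div_nonneg ?_ hpos.le
    rcases (hx.nonneg r c s).eq_or_lt with h | h
    · have : X r c s = 0 := by
        apply Subtype.ext
        show x r c s = 0
        exact h.symm
      rw [this, map_zero]
    · exact (hφ _ (hxS r c s) h).le
  · intro r c
    exact hsum (fun s => X r c s) (hx.cell r c)
  · intro r s
    exact hsum (fun c => X r c s) (hx.row r s)
  · intro c s
    exact hsum (fun r => X r c s) (hx.col c s)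
  · intro r c s h
    have : X r c s = e := by
      apply Subtype.ext
      exact hx.ext r c s h
    show φ (X r c s) / φ e = 1
    rw [this]
    exact div_self hpos.ne'

end Pool.Agent.Lib.MP_cb9986_co
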