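import Pool.Agent.Lib.MP_cb9986_co.Est

set_option autoImplicit false
open Finset

namespace Pool.Agent.Lib.MP_cb9986_co

variable {n : ℕ}

/-- Balanced solutions of the regularised system `(K + e) u = 1`. -/
structure Sol (e : ℝ) (g0 g1 g2 u0 u1 u2 : W n) : Prop where
  s0 : ∀ x y, g0 x y = 0 → u0 x y = 0
  s1 : ∀ x y, g1 x y = 0 → u1 x y = 0
  s2 : ∀ x y, g2 x y = 0 → u2 x y = 0
  e0 : ∀ x y, g0 x y = 1 → XX g1 g2 u0 u1 u2 x y + e * u0 x y = 1
  e1 : ∀ x y, g1 x y = 1 → XX g2 g0 u1 u2 u0 x y + e * u1 x y = 1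
  e2 : ∀ x y, g2 x y = 1 → XX g0 g1 u2 u0 u1 x y + e * u2 x y = 1
  b0 : ∀ x, ∑ z, u2 z x = ∑ y, u0 x y
  b1 : ∀ y, ∑ x, u0 x y = ∑ z, u1 y z
  b2 : ∀ z, ∑ y, u1 y z = ∑ x, u2 z x

theorem Sol.rot {e : ℝ} {g0 g1 g2 u0 u1 u2 : W n} (S : Sol e g0 g1 g2 u0 u1 u2) :
    Sol e g1 g2 g0 u1 u2 u0 :=
  ⟨S.s1, S.s2, S.s0, S.e1, S.e2, S.e0, S.b1, S.b2, S.b0⟩

theorem XX_eq' {g0 g1 g2 u0 u1 u2 : W n} {k e : ℝ} (H : Hyp k g0 g1 g2)
    (S : Sol e g0 g1 g2 u0 u1 u2) (x y : Fin n) :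
    XX g1 g2 u0 u1 u2 x y =
      NN g1 g2 x y * u0 x y + pp u1 y + pp u0 x - FF g1 g2 u1 u2 x y := by
  have h2 := S.b0 x
  rw [show pp u0 x = ∑ y, u0 x y from rfl, ← h2]
  simp only [XX, NN, FF, pp, Finset.sum_mul]
  rw [← Finset.sum_add_distrib, ← Finset.sum_add_distrib, ← Finset.sum_add_distrib,
    ← Finset.sum_sub_distrib]
  refine Finset.sum_congr rfl fun z _ => ?_
  have e1 : g1 y z * u1 y z = u1 y z := by
    rcases H.z1 y z with h | h
    · rw [S.s1 y z h]; ring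
    · rw [h]; ring
  have e2 : g2 z x * u2 z x = u2 z x := by
    rcases H.z2 z x with h | h
    · rw [S.s2 z x h]; ring
    · rw [h]; ring
  have e3 : g1 y z * g2 z x * (u0 x y + u1 y z + u2 z x) =
      g1 y z * g2 z x * u0 x y + g2 z x * (g1 y z * u1 y z) + g1 y z * (g2 z x * u2 z x) := by
    ring
  rw [e3, e1, e2]
  ring

/-- `½ - U`. -/
noncomputable def lam (u : W n) (x : Fin n) : ℝ := 1 / 2 - pp u x

theorem edge {g0 g1 g2 u0 u1 u2 : W n} {k e : ℝ} (H : Hyp k g0 g1 g2)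
    (S : Sol e g0 g1 g2 u0 u1 u2) {x y : Fin n} (h : g0 x y = 1) :
    (NN g1 g2 x y + e) * u0 x y = lam u0 x + lam u1 y + FF g1 g2 u1 u2 x y := by
  have h1 := S.e0 x y h
  rw [XX_eq' H S x y] at h1
  unfold lam
  linarith

theorem u_min {g0 g1 g2 u0 u1 u2 : W n} {k e : ℝ} (H : Hyp k g0 g1 g2) (he : 0 ≤ e)
    (hk : 4 * k < n) (S : Sol e g0 g1 g2 u0 u1 u2)
    (l0 : ∀ x, 0 ≤ lam u0 x) (l1 : ∀ x, 0 ≤ lam u1 x)
    {x y : Fin n} (m1 : ∀ a b, u0 x y ≤ u1 a b) (m2 : ∀ a b, u0 x y ≤ u2 a b) :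
    0 ≤ u0 x y := by
  by_contra hcon
  push Not at hcon
  have hl : g0 x y = 1 := by
    rcases H.z0 x y with h | h
    · rw [S.s0 x y h] at hcon; exact absurd hcon (lt_irrefl _)
    · exact h
  have h1 := edge H S hl
  have hF : 2 * k * u0 x y ≤ FF g1 g2 u1 u2 x y := by
    have e1 : k * u0 x y ≤ ∑ z, (1 - g2 z x) * u1 y z := by
      calc k * u0 x y ≤ (∑ z, (1 - g2 z x)) * u0 x y :=
            mul_le_mul_of_nonpos_right ((codeg H).2 x) hcon.le
        _ = ∑ z, (1 - g2 z x) * u0 x y := by rw [Finset.sum_mul]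
        _ ≤ _ := Finset.sum_le_sum fun z _ =>
            mul_le_mul_of_nonneg_left (m1 y z) (by linarith [zo_le (H.z2 z x)])
    have e2 : k * u0 x y ≤ ∑ z, (1 - g1 y z) * u2 z x := by
      calc k * u0 x y ≤ (∑ z, (1 - g1 y z)) * u0 x y :=
            mul_le_mul_of_nonpos_right ((codeg H.rot).1 y) hcon.le
        _ = ∑ z, (1 - g1 y z) * u0 x y := by rw [Finset.sum_mul]
        _ ≤ _ := Finset.sum_le_sum fun z _ =>
            mul_le_mul_of_nonneg_left (m2 z x) (by linarith [zo_le (H.z1 y z)])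
    unfold FF
    linarith
  have hN := NN_ge H x y
  have h2 : 0 ≤ (NN g1 g2 x y + e - 2 * k) * u0 x y := by
    have := l0 x
    have := l1 y
    linarith
  have h3 : 0 < NN g1 g2 x y + e - 2 * k := by linarith
  nlinarith

/-- If no vertex sum exceeds one half then the solution is nonnegative. -/
theorem u_nonneg {g0 g1 g2 u0 u1 u2 : W n} {k e : ℝ} (H : Hyp k g0 g1 g2) (he : 0 ≤ e)
    (hk : 4 * k < n) (hn : 0 < n) (S : Sol e g0 g1 g2 u0 u1 u2)
    (l0 : ∀ x, 0 ≤ lam u0 x) (l1 : ∀ x, 0 ≤ lam u1 x) (l2 : ∀ x, 0 ≤ lam u2 x) :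
    (∀ x y, 0 ≤ u0 x y) ∧ (∀ x y, 0 ≤ u1 x y) ∧ (∀ x y, 0 ≤ u2 x y) := by
  have hne : Nonempty (Fin n × Fin n) := ⟨(⟨0, hn⟩, ⟨0, hn⟩)⟩
  obtain ⟨p0, h0⟩ := Finite.exists_min (fun p : Fin n × Fin n => u0 p.1 p.2)
  obtain ⟨p1, h1⟩ := Finite.exists_min (fun p : Fin n × Fin n => u1 p.1 p.2)
  obtain ⟨p2, h2⟩ := Finite.exists_min (fun p : Fin n × Fin n => u2 p.1 p.2)
  have q0 : ∀ a b, u0 p0.1 p0.2 ≤ u0 a b := fun a b => h0 (a, b)
  have q1 : ∀ a b, u1 p1.1 p1.2 ≤ u1 a b := fun a b => h1 (a, b)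
  have q2 : ∀ a b, u2 p2.1 p2.2 ≤ u2 a b := fun a b => h2 (a, b)
  have key : 0 ≤ u0 p0.1 p0.2 ∧ 0 ≤ u1 p1.1 p1.2 ∧ 0 ≤ u2 p2.1 p2.2 := by
    rcases le_total (u0 p0.1 p0.2) (u1 p1.1 p1.2) with h01 | h01
    · rcases le_total (u0 p0.1 p0.2) (u2 p2.1 p2.2) with h02 | h02
      · have := u_min H he hk S l0 l1 (fun a b => h01.trans (q1 a b)) (fun a b => h02.trans (q2 a b))
        exact ⟨this, this.trans h01, this.trans h02⟩
      · have := u_min H.rot.rot he hk S.rot.rot l2 l0 (fun a b => h02.trans (q0 a b))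
          (fun a b => (h02.trans h01).trans (q1 a b))
        exact ⟨this.trans h02, (this.trans h02).trans h01, this⟩
    · rcases le_total (u1 p1.1 p1.2) (u2 p2.1 p2.2) with h12 | h12
      · have := u_min H.rot he hk S.rot l1 l2 (fun a b => h12.trans (q2 a b))
          (fun a b => h01.trans (q0 a b))
        exact ⟨this.trans h01, this, this.trans h12⟩
      · have := u_min H.rot.rot he hk S.rot.rot l2 l0
          (fun a b => (h12.trans h01).trans (q0 a b)) (fun a b => h12.trans (q1 a b))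
        exact ⟨(this.trans h12).trans h01, this.trans h12, this⟩
  exact ⟨fun x y => key.1.trans (q0 x y), fun x y => key.2.1.trans (q1 x y),
    fun x y => key.2.2.trans (q2 x y)⟩

/-- Deficit of a vertex. -/
noncomputable def dl (k : ℝ) (g : W n) (x : Fin n) : ℝ := k - n + ∑ y, g x y

theorem dl_nonneg {g0 g1 g2 : W n} {k : ℝ} (H : Hyp k g0 g1 g2) (x : Fin n) :
    0 ≤ dl k g0 x := by
  unfold dl; linarith [H.d0 x]

theorem dl_le {g0 g1 g2 : W n} {k : ℝ} (H : Hyp k g0 g1 g2) (x : Fin n) :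
    dl k g0 x ≤ k := by
  unfold dl
  have : ∑ y, g0 x y ≤ n := by
    calc ∑ y, g0 x y ≤ ∑ _y : Fin n, (1 : ℝ) := Finset.sum_le_sum fun y _ => zo_le (H.z0 x y)
      _ = n := by simp
  linarith

/-- total weight of one kind of pairs -/
noncomputable def tau (u0 : W n) : ℝ := ∑ x, pp u0 x

theorem tau_eq {e : ℝ} {g0 g1 g2 u0 u1 u2 : W n} (S : Sol e g0 g1 g2 u0 u1 u2) :
    tau u1 = tau u0 := by
  unfold tau pp
  rw [Finset.sum_comm]
  refine Eq.symm ?_
  rw [Finset.sum_comm]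
  rw [Finset.sum_congr rfl fun y _ => S.b1 y]
  rw [Finset.sum_comm]

/-- The basic inequality at a vertex of the second part. -/
theorem P2 {g0 g1 g2 u0 u1 u2 : W n} {k e : ℝ} (H : Hyp k g0 g1 g2)
    (S : Sol e g0 g1 g2 u0 u1 u2) (h0 : ∀ x y, 0 ≤ u0 x y) (h1 : ∀ x y, 0 ≤ u1 x y)
    (h2 : ∀ x y, 0 ≤ u2 x y) (y : Fin n) :
    tau u0 - 2 * k + dl k g1 y + e / 2 +
      (∑ x, dl k g0 x * u0 x y + ∑ x, (1 - g0 x y) * lam u0 x) +
      (∑ z, dl k g2 z * u1 y z + ∑ z, (1 - g1 y z) * lam u2 z) ≤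
    (2 * (n - 2 * k + dl k g1 y) + e) * lam u1 y := by
  set a := ∑ z, g1 y z with ha
  -- the summed edge equations
  have hsum : ∑ x, (NN g1 g2 x y + e) * u0 x y =
      ∑ x, g0 x y * (lam u0 x + lam u1 y + FF g1 g2 u1 u2 x y) := by
    refine Finset.sum_congr rfl fun x _ => ?_
    rcases H.z0 x y with h | h
    · rw [h, S.s0 x y h]; ring
    · rw [h, one_mul]; exact edge H S h
  have hL : (a - k + e) * pp u1 y + ∑ x, dl k g0 x * u0 x y ≤
      ∑ x, (NN g1 g2 x y + e) * u0 x y := by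
    have : (a - k + e) * pp u1 y + ∑ x, dl k g0 x * u0 x y =
        ∑ x, (a - k + e + dl k g0 x) * u0 x y := by
      rw [pp, ← S.b1 y, Finset.mul_sum, ← Finset.sum_add_distrib]
      refine Finset.sum_congr rfl fun x _ => by ring
    rw [this]
    refine Finset.sum_le_sum fun x _ => mul_le_mul_of_nonneg_right ?_ (h0 x y)
    have hN : a - ∑ z, (1 - g2 z x) ≤ NN g1 g2 x y := by
      rw [ha, ← Finset.sum_sub_distrib]
      refine Finset.sum_le_sum fun z _ => ?_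
      rcases H.z1 y z with h | h <;> rcases H.z2 z x with h' | h' <;> rw [h, h'] <;> norm_num
    rw [Finset.sum_sub_distrib, H.b0 x] at hN
    simp only [Finset.sum_const, Finset.card_univ, Fintype.card_fin, nsmul_eq_mul, mul_one] at hN
    unfold dl
    linarith
  have hR1 : ∑ x, g0 x y * (lam u0 x + lam u1 y + FF g1 g2 u1 u2 x y) =
      (∑ x, lam u0 x - ∑ x, (1 - g0 x y) * lam u0 x) + a * lam u1 y +
        ∑ x, g0 x y * FF g1 g2 u1 u2 x y := by
    have ha2 : a * lam u1 y = ∑ x, g0 x y * lam u1 y := by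
      rw [← Finset.sum_mul, H.b1 y]
    rw [ha2, ← Finset.sum_sub_distrib, ← Finset.sum_add_distrib, ← Finset.sum_add_distrib]
    refine Finset.sum_congr rfl fun x _ => by ring
  have hlam : ∑ x, lam u0 x = n / 2 - tau u0 := by
    unfold lam tau
    rw [Finset.sum_sub_distrib]
    simp; ring
  have hF : ∑ x, g0 x y * FF g1 g2 u1 u2 x y ≤
      (k * pp u1 y - ∑ z, dl k g2 z * u1 y z) +
      ((1 / 2) * (n - a) - ∑ z, (1 - g1 y z) * lam u2 z) := by
    have e1 : ∑ x, g0 x y * FF g1 g2 u1 u2 x y ≤ ∑ x, FF g1 g2 u1 u2 x y := by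
      refine Finset.sum_le_sum fun x _ => ?_
      have hp : 0 ≤ FF g1 g2 u1 u2 x y := by
        unfold FF
        refine add_nonneg (Finset.sum_nonneg fun z _ => ?_) (Finset.sum_nonneg fun z _ => ?_)
        · exact mul_nonneg (by linarith [zo_le (H.z2 z x)]) (h1 y z)
        · exact mul_nonneg (by linarith [zo_le (H.z1 y z)]) (h2 z x)
      nlinarith [zo_le (H.z0 x y)]
    have e2 : ∑ x, FF g1 g2 u1 u2 x y =
        ∑ z, (n - ∑ x, g2 z x) * u1 y z + ∑ z, (1 - g1 y z) * pp u2 z := by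
      simp only [FF, Finset.sum_add_distrib]
      congr 1
      · rw [Finset.sum_comm]
        refine Finset.sum_congr rfl fun z _ => ?_
        rw [← Finset.sum_mul, Finset.sum_sub_distrib]
        simp
      · rw [Finset.sum_comm]
        refine Finset.sum_congr rfl fun z _ => ?_
        rw [pp, ← Finset.mul_sum]
    have e3 : ∑ z, (n - ∑ x, g2 z x) * u1 y z = k * pp u1 y - ∑ z, dl k g2 z * u1 y z := by
      rw [pp, Finset.mul_sum, ← Finset.sum_sub_distrib]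
      refine Finset.sum_congr rfl fun z _ => ?_
      unfold dl; ring
    have e4 : ∑ z, (1 - g1 y z) * pp u2 z =
        (1 / 2) * (n - a) - ∑ z, (1 - g1 y z) * lam u2 z := by
      have : (1 / 2 : ℝ) * (n - a) = ∑ z, (1 / 2) * (1 - g1 y z) := by
        rw [← Finset.mul_sum, Finset.sum_sub_distrib]
        simp [ha]
      rw [this, ← Finset.sum_sub_distrib]
      refine Finset.sum_congr rfl fun z _ => ?_
      unfold lam; ring
    linarith
  rw [hsum, hR1, hlam] at hL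
  have hp : pp u1 y = 1 / 2 - lam u1 y := by unfold lam; ring
  have hdl : dl k g1 y = k - n + a := rfl
  rw [hdl]
  rw [hp] at hL hF
  nlinarith

end Pool.Agent.Lib.MP_cb9986_co
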