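import Pool.Agent.Lib.MP_cb9986_co.Est

set_option autoImplicit false
open Finset

namespace Pool.Agent.Lib.MP_cb9986_co

variable {n : ℕ}

theorem exists_kap {g0 g1 g2 u0 u1 u2 : W n} {k : ℝ} (H : Hyp k g0 g1 g2) (hk0 : 0 ≤ k)
    (hk : 2 * k < n) (hk2 : 2 * k * (n + k) < (n - 2 * k) ^ 2)
    (M : IsMinz g0 g1 g2 u0 u1 u2) :
    ∃ kap : Fin n → ℝ, (∀ y, 0 < kap y) ∧
      ∀ x y, g0 x y = 1 → 0 < u0 x y ∧ XX g1 g2 u0 u1 u2 x y = kap y := by
  have : ∀ y, ∃ t : ℝ, 0 < t ∧ ∀ x, g0 x y = 1 → 0 < u0 x y ∧ XX g1 g2 u0 u1 u2 x y = t := by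
    intro y
    obtain ⟨lam, h1, h2, h3⟩ := exists_lam H M y
    have hl := lam_pos H hk0 hk hk2 M y lam h2
    have hp : 0 ≤ pp u1 y := Finset.sum_nonneg fun z _ => M.f1.nonneg y z
    have hu : ∀ x, g0 x y = 1 → 0 < u0 x y := by
      intro x hx
      have h4 := h1 x hx
      have h5 := FF_nonneg H M.f1 M.f2 x y
      rcases (M.f0.nonneg x y).eq_or_lt with h | h
      · rw [← h, mul_zero] at h4; linarith
      · exact h
    exact ⟨lam + 1 + pp u1 y, by linarith, fun x hx => ⟨hu x hx, h3 x (hu x hx)⟩⟩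
  choose kap h1 h2 using this
  exact ⟨kap, h1, fun x y hx => h2 y x hx⟩

theorem harm {g0 g1 g2 : W n} {k : ℝ} (H : Hyp k g0 g1 g2) (hk : 2 * k < n)
    (a b c : Fin n → ℝ)
    (ha : ∀ x, a x * ∑ y, g0 x y = ∑ y, g0 x y * b y)
    (hb : ∀ y, b y * ∑ z, g1 y z = ∑ z, g1 y z * c z)
    (hc : ∀ z, c z * ∑ x, g2 z x = ∑ x, g2 z x * a x) (hk0 : 0 ≤ k) :
    ∃ t : ℝ, (∀ x, a x = t) ∧ (∀ x, b x = t) ∧ (∀ x, c x = t) := by
  have hn : 0 < n := by
    have : (0 : ℝ) < n := by linarith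
    exact_mod_cast this
  haveI : Nonempty (Fin n) := ⟨⟨0, hn⟩⟩
  have D0 : ∀ x, 0 < ∑ y, g0 x y := fun x => lt_of_lt_of_le (by linarith) (H.d0 x)
  have D1 : ∀ x, 0 < ∑ y, g1 x y := fun x => lt_of_lt_of_le (by linarith) (H.d1 x)
  have D2 : ∀ x, 0 < ∑ y, g2 x y := fun x => lt_of_lt_of_le (by linarith) (H.d2 x)
  obtain ⟨xa, hxa⟩ := Finite.exists_max a
  obtain ⟨xb, hxb⟩ := Finite.exists_max b
  obtain ⟨xc, hxc⟩ := Finite.exists_max c
  have step : ∀ (g : W n) (p q : Fin n → ℝ) (i j : Fin n), (∀ x y, g x y = 0 ∨ g x y = 1) →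
      (∀ x, 0 < ∑ y, g x y) → (∀ x, p x * ∑ y, g x y = ∑ y, g x y * q y) →
      (∀ y, q y ≤ q j) → p i ≤ q j := by
    intro g p q i j hg hD hpq hq
    have h1 : ∑ y, g i y * q y ≤ ∑ y, g i y * q j :=
      Finset.sum_le_sum fun y _ => mul_le_mul_of_nonneg_left (hq y) (zo_nonneg (hg i y))
    rw [← hpq, ← Finset.sum_mul] at h1
    have h2 := hD i
    by_contra hcon
    push Not at hcon
    nlinarith
  have sab : a xa ≤ b xb := step g0 a b xa xb H.z0 D0 ha hxb
  have sbc : b xb ≤ c xc := step g1 b c xb xc H.z1 D1 hb hxc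
  have sca : c xc ≤ a xa := step g2 c a xc xa H.z2 D2 hc hxa
  have eab : a xa = b xb := by linarith
  have ebc : b xb = c xc := by linarith
  set t := a xa with ht
  -- propagation of maximality
  have prop : ∀ (g : W n) (p q : Fin n → ℝ) (i : Fin n), (∀ x y, g x y = 0 ∨ g x y = 1) →
      (∀ x, p x * ∑ y, g x y = ∑ y, g x y * q y) → p i = t → (∀ y, q y ≤ t) →
      ∀ y, g i y = 1 → q y = t := by
    intro g p q i hg hpq hpi hq y hy
    have h1 : ∑ y, g i y * (t - q y) = 0 := by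
      have h3 := hpq i
      rw [hpi] at h3
      simp only [mul_sub, Finset.sum_sub_distrib]
      rw [← h3, ← Finset.sum_mul]
      ring
    have h2 := (Finset.sum_eq_zero_iff_of_nonneg (fun y _ =>
      mul_nonneg (zo_nonneg (hg i y)) (by linarith [hq y]))).1 h1 y (Finset.mem_univ y)
    rw [hy, one_mul] at h2
    linarith
  have hb1 : ∀ y, g0 xa y = 1 → b y = t :=
    prop g0 a b xa H.z0 ha rfl (fun y => by linarith [hxb y])
  have hc1 : ∀ z, c z = t := by
    intro z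
    have hex : ∃ y, g0 xa y = 1 ∧ g1 y z = 1 := by
      by_contra hcon
      push Not at hcon
      have h1 : ∑ y, (g0 xa y + g1 y z - 1) ≤ 0 := by
        refine Finset.sum_nonpos fun y _ => ?_
        rcases H.z0 xa y with h | h
        · rw [h]; linarith [zo_le (H.z1 y z)]
        · rcases H.z1 y z with h' | h'
          · rw [h, h']; norm_num
          · exact absurd h' (hcon y h)
      rw [Finset.sum_sub_distrib, Finset.sum_add_distrib, H.b2 z] at h1
      simp only [Finset.sum_const, Finset.card_univ, Fintype.card_fin, nsmul_eq_mul, mul_one] at h1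
      have h2 := H.d0 xa
      have h3 := H.d2 z
      linarith
    obtain ⟨y, hy1, hy2⟩ := hex
    exact prop g1 b c y H.z1 hb (hb1 y hy1) (fun z => by linarith [hxc z]) z hy2
  have hb2 : ∀ y, b y = t := by
    intro y
    have h := hb y
    simp only [hc1] at h
    rw [← Finset.sum_mul] at h
    have := D1 y
    have h3 : (b y - t) * ∑ z, g1 y z = 0 := by linarith
    rcases mul_eq_zero.1 h3 with h4 | h4
    · linarith
    · linarith
  have ha2 : ∀ x, a x = t := by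
    intro y
    have h := ha y
    simp only [hb2] at h
    rw [← Finset.sum_mul] at h
    have := D0 y
    have h3 : (a y - t) * ∑ z, g0 y z = 0 := by linarith
    rcases mul_eq_zero.1 h3 with h4 | h4
    · linarith
    · linarith
  exact ⟨t, ha2, hb2, hc1⟩

theorem balance {g0 g1 g2 u0 u1 u2 : W n} {k : ℝ} (H : Hyp k g0 g1 g2)
    (k1 k0 : Fin n → ℝ)
    (h0 : ∀ x y, g0 x y = 1 → XX g1 g2 u0 u1 u2 x y = k1 y)
    (h2 : ∀ z x, g2 z x = 1 → XX g0 g1 u2 u0 u1 z x = k0 x) (x : Fin n) :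
    k0 x * ∑ y, g0 x y = ∑ y, g0 x y * k1 y := by
  have e1 : ∑ y, g0 x y * k1 y = ∑ y, g0 x y * XX g1 g2 u0 u1 u2 x y := by
    refine Finset.sum_congr rfl fun y _ => ?_
    rcases H.z0 x y with h | h
    · rw [h]; simp
    · rw [h0 x y h]
  have e2 : k0 x * ∑ y, g0 x y = ∑ z, g2 z x * XX g0 g1 u2 u0 u1 z x := by
    rw [← H.b0 x, Finset.mul_sum]
    refine Finset.sum_congr rfl fun z _ => ?_
    rcases H.z2 z x with h | h
    · rw [h]; simp
    · rw [h2 z x h]; ring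
  rw [e1, e2]
  simp only [XX, Finset.mul_sum]
  rw [Finset.sum_comm]
  refine Finset.sum_congr rfl fun y _ => Finset.sum_congr rfl fun z _ => by ring

/-- **Fractional triangle decompositions of dense tripartite graphs.** -/
theorem tri {g0 g1 g2 : W n} {k : ℝ} (H : Hyp k g0 g1 g2) (hk0 : 0 ≤ k)
    (hk : 2 * k < n) (hk2 : 2 * k * (n + k) < (n - 2 * k) ^ 2) :
    ∃ w : Fin n → Fin n → Fin n → ℝ, (∀ x y z, 0 ≤ w x y z) ∧
      (∀ x y z, g0 x y = 0 ∨ g1 y z = 0 ∨ g2 z x = 0 → w x y z = 0) ∧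
      (∀ x y z, g0 x y = 1 → g1 y z = 1 → g2 z x = 1 → 0 < w x y z) ∧
      (∀ x y, g0 x y = 1 → ∑ z, w x y z = 1) ∧
      (∀ y z, g1 y z = 1 → ∑ x, w x y z = 1) ∧
      (∀ z x, g2 z x = 1 → ∑ y, w x y z = 1) := by
  have hn : 0 < n := by
    have : (0 : ℝ) < n := by linarith
    exact_mod_cast this
  have D0 : ∀ x, 0 < ∑ y, g0 x y := fun x => lt_of_lt_of_le (by linarith) (H.d0 x)
  have D1 : ∀ x, 0 < ∑ y, g1 x y := fun x => lt_of_lt_of_le (by linarith) (H.d1 x)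
  have D2 : ∀ x, 0 < ∑ y, g2 x y := fun x => lt_of_lt_of_le (by linarith) (H.d2 x)
  obtain ⟨u0, u1, u2, M⟩ := exists_minz g0 g1 g2 H.z0 H.z1 H.z2
    (fun y => by rw [H.b1 y]; exact D1 y) (fun z => by rw [H.b2 z]; exact D2 z)
    (fun x => by rw [H.b0 x]; exact D0 x)
  obtain ⟨k1, p1, h1⟩ := exists_kap H hk0 hk hk2 M
  obtain ⟨k2, p2, h2⟩ := exists_kap H.rot hk0 hk hk2 M.rot
  obtain ⟨k0, p0, h0⟩ := exists_kap H.rot.rot hk0 hk hk2 M.rot.rot
  obtain ⟨t, t0, t1, t2⟩ := harm H hk k0 k1 k2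
    (balance H k1 k0 (fun x y h => (h1 x y h).2) (fun z x h => (h0 z x h).2))
    (balance H.rot k2 k1 (fun x y h => (h2 x y h).2) (fun z x h => (h1 z x h).2))
    (balance H.rot.rot k0 k2 (fun x y h => (h0 x y h).2) (fun z x h => (h2 z x h).2)) hk0
  have ht : 0 < t := by rw [← t0 ⟨0, hn⟩]; exact p0 _
  refine ⟨fun x y z => g0 x y * g1 y z * g2 z x * (u0 x y + u1 y z + u2 z x) / t,
    ?_, ?_, ?_, ?_, ?_, ?_⟩
  · intro x y z
    have e0 := zo_nonneg (H.z0 x y)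
    have e1 := zo_nonneg (H.z1 y z)
    have e2 := zo_nonneg (H.z2 z x)
    have f0 := M.f0.nonneg x y
    have f1 := M.f1.nonneg y z
    have f2 := M.f2.nonneg z x
    positivity
  · rintro x y z (h | h | h) <;> simp [h]
  · intro x y z e0 e1 e2
    have f0 := (h1 x y e0).1
    have f1 := (h2 y z e1).1
    have f2 := (h0 z x e2).1
    simp only [e0, e1, e2]
    positivity
  · intro x y hx
    have h := (h1 x y hx).2
    rw [t1 y] at h
    rw [← Finset.sum_div, div_eq_one_iff_eq ht.ne', ← h, XX]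
    refine Finset.sum_congr rfl fun z _ => ?_
    rw [hx]; ring
  · intro y z hx
    have h := (h2 y z hx).2
    rw [t2 z] at h
    rw [← Finset.sum_div, div_eq_one_iff_eq ht.ne', ← h, XX]
    refine Finset.sum_congr rfl fun x _ => ?_
    rw [hx]; ring
  · intro z x hx
    have h := (h0 z x hx).2
    rw [t0 x] at h
    rw [← Finset.sum_div, div_eq_one_iff_eq ht.ne', ← h, XX]
    refine Finset.sum_congr rfl fun y _ => ?_
    rw [hx]; ring

end Pool.Agent.Lib.MP_cb9986_co
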